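import Pool.Agent.Mg.F96872c.Gc859a9
import Pool.Agent.MP_96872c_an.Defs

section

open Finset Real MeasureTheory ProbabilityTheory Filter Topology
open scoped NNReal ENNReal

namespace Pool.Agent.MP_96872c_an

variable {N : ℕ} {μ : ℝ} {Ω : Type} [mΩ : MeasurableSpace Ω] {P : Measure Ω}

theorem Search.hY (S : Search N μ P) (t : ℝ≥0) : Measurable[S.G t] (S.Y t) := S.Y_adapted t

theorem Search.box_set (S : Search N μ P) (j : Fin N) (t : ℝ≥0) :
    MeasurableSet[S.F t] {ω | S.box ω = j} :=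
  S.F.mono zero_le _ (S.box_meas (measurableSet_singleton j))

theorem Search.box_set' (S : Search N μ P) (j : Fin N) : MeasurableSet {ω | S.box ω = j} :=
  S.F.le 0 _ (S.box_set j 0)

/-- the law given that the object is in box `j` -/
noncomputable def Search.rho (S : Search N μ P) (j : Fin N) : Measure Ω :=
  (N : ℝ≥0∞) • P.restrict {ω | S.box ω = j}

theorem Search.rho_apply (S : Search N μ P) (j : Fin N) (A : Set Ω) :
    S.rho j A = N * P (A ∩ {ω | S.box ω = j}) := by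
  rw [Search.rho, Measure.smul_apply, Measure.restrict_apply' (S.box_set' j), smul_eq_mul]

instance (S : Search N μ P) (j : Fin N) : IsProbabilityMeasure (S.rho j) :=
  ⟨by
    rw [S.rho_apply, Set.univ_inter, S.uniform, ENNReal.mul_inv_cancel _ (by simp)]
    exact_mod_cast j.pos.ne'⟩

theorem Search.rho_ae (S : Search N μ P) (j : Fin N) {p : Ω → Prop} (h : ∀ᵐ ω ∂P, p ω) :
    ∀ᵐ ω ∂S.rho j, p ω := Measure.ae_smul_measure (ae_restrict_of_ae h) _

theorem Search.BW (S : Search N μ P) (j : Fin N) :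
    ∀ᵐ ω ∂P, S.box ω = j → ∀ t, S.Y t ω - μ * DD S.J j t ω = S.W t ω := by
  filter_upwards [S.signal] with ω hω hj t
  rw [hω t, hj]
  simp [DD, HH]

theorem Search.bm (S : Search N μ P) (j : Fin N) (T : ℝ≥0) :
    BMon (S.rho j) S.G (fun t ω => S.Y t ω - μ * DD S.J j t ω) T := by
  have hm : ∀ t, Measurable[S.G t] fun ω => S.Y t ω - μ * DD S.J j t ω := fun t =>
    (S.hY t).sub ((meas_DD S.J_prog j t).const_mul μ)
  refine ⟨hm, fun s t hst _ A hA => Measure.ext fun U hU => ?_⟩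
  have hX : Measurable fun ω => (S.Y t ω - μ * DD S.J j t ω) - (S.Y s ω - μ * DD S.J j s ω) :=
    ((hm t).mono (S.G.le _) le_rfl).sub ((hm s).mono (S.G.le _) le_rfl)
  rw [Measure.map_apply hX hU, Measure.restrict_apply (hX hU), S.rho_apply, Measure.smul_apply,
    S.rho_apply, smul_eq_mul, mul_assoc]
  congr 1
  have h1 := (Indep_iff _ _ _).1 (S.W_indep s t hst) ((fun ω => S.W t ω - S.W s ω) ⁻¹' U)
    (A ∩ {ω | S.box ω = j}) ⟨U, hU, rfl⟩ ((S.G_le s _ hA).inter (S.box_set j s))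
  have h2 := (S.brownian.toIsPreBrownianReal.hasLaw_sub t s).measure_eq (p := fun x => x ∈ U) hU
  have h3 : nndist t.1 s.1 = t - s := by
    rw [← NNReal.coe_inj, coe_nndist, Real.dist_eq, NNReal.coe_sub hst]
    exact abs_of_nonneg (sub_nonneg.2 (NNReal.coe_le_coe.2 hst))
  rw [h3] at h2
  have h4 : P ((fun ω => S.W t ω - S.W s ω) ⁻¹' U) = gaussianReal 0 (t - s) U := h2
  rw [h4, mul_comm] at h1
  rw [← h1]
  refine measure_congr ?_
  filter_upwards [S.BW j] with ω hω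
  change ((_ ∈ U ∧ ω ∈ A) ∧ S.box ω = j) = (S.W t ω - S.W s ω ∈ U ∧ ω ∈ A ∧ S.box ω = j)
  by_cases hj : S.box ω = j
  · simp only [hω hj, hj, and_true]
  · simp only [hj, and_false]

theorem Search.one (S : Search N μ P) {m : ℕ} {n : ℕ → ℕ} {c : ℕ → ℕ → Ω → Fin N}
    (h : Apx P S.G S.J m n c) (j : Fin N) : One (S.rho j) S.G S.Y S.J μ j m n c where
  hJ := S.J_prog
  hY := S.hY
  bm := S.bm j m
  mono := h.mono
  meas := h.meas
  conv ω := ee_tendsto S.J_prog _ (h.conv ω)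
  fast r := by
    rw [Search.rho, lintegral_smul_measure, ENNReal.ofReal_mul (Nat.cast_nonneg N),
      ENNReal.ofReal_natCast, smul_eq_mul]
    exact mul_le_mul_right ((setLIntegral_le_lintegral _ _).trans (h.fast r)) _

theorem Search.Y0 (S : Search N μ P) : ∀ᵐ ω ∂P, S.Y 0 ω = 0 := by
  filter_upwards [S.signal, S.brownian.toIsPreBrownianReal.eval_zero_ae_eq_zero] with ω h1 h2
  rw [h1, h2]; simp

/-- the reference measure under which the signal is a Brownian motion -/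
structure Filt (S : Search N μ P) (m : ℕ) (n : ℕ → ℕ) (c : ℕ → ℕ → Ω → Fin N) (Q : Measure Ω) :
    Prop where
  apx : Apx P S.G S.J m n c
  bm : BMon Q S.G S.Y m
  lim : ∀ j (a : ℝ≥0), a ≤ m → ∀ᵐ ω ∂Q,
    Tendsto (fun r => zr μ S.Y m (n r) (c r) j a ω) atTop (𝓝 (zl μ S.Y m n c j a ω))
  dens : ∀ j (a : ℝ≥0), a ≤ m → ∀ A, MeasurableSet[S.G a] A →
    S.rho j A = ∫⁻ ω in A, ENNReal.ofReal (exp (zl μ S.Y m n c j a ω)) ∂Q

omit mΩ in
theorem dens_lintegral {m mΩ : MeasurableSpace Ω} {ρ Q : Measure Ω} {L g : Ω → ℝ≥0∞} (hle : m ≤ mΩ)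
    (hL : Measurable L) (h : ∀ A, MeasurableSet[m] A → ρ A = ∫⁻ ω in A, L ω ∂Q)
    (hg : Measurable[m] g) {A : Set Ω} (hA : MeasurableSet[m] A) :
    ∫⁻ ω in A, g ω ∂ρ = ∫⁻ ω in A, L ω * g ω ∂Q := by
  have e : ρ.trim hle = (Q.withDensity L).trim hle := @Measure.ext _ m _ _ fun B hB => by
    rw [trim_measurableSet_eq _ hB, trim_measurableSet_eq _ hB, h B hB,
      withDensity_apply _ (hle _ hB)]
  rw [← setLIntegral_trim hle hg hA, e, setLIntegral_trim hle hg hA,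
    restrict_withDensity (hle _ hA), lintegral_withDensity_eq_lintegral_mul _ hL (hg.mono hle le_rfl)]
  rfl

theorem Search.filt_nat [IsProbabilityMeasure P] (S : Search N μ P) (j0 : Fin N) {m : ℕ}
    {n : ℕ → ℕ} {c : ℕ → ℕ → Ω → Fin N} (h : Apx P S.G S.J m n c)
    (hG : S.G = Filtration.natural S.Y S.Y_meas) (j : Fin N) {a : ℝ≥0} (ha : a ≤ m) {A : Set Ω}
    (hA : MeasurableSet[S.G a] A) : S.rho j A =
      ∫⁻ ω in A, ENNReal.ofReal (exp (zl μ S.Y m n c j a ω)) ∂QQ (S.rho j0) μ S.Y m n c j0 := by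
  have hp := fun j => (S.one h j).prob
  have hac : ∀ j, QQ (S.rho j) μ S.Y m n c j ≪ S.rho j := fun j =>
    withDensity_absolutelyContinuous _ _
  have hag : ∀ A, MeasurableSet[S.G m] A →
      QQ (S.rho j) μ S.Y m n c j A = QQ (S.rho j0) μ S.Y m n c j0 A := by
    have h1 := (S.one h j).bmQ
    have h2 := (S.one h j0).bmQ
    rw [hG] at h1 h2 ⊢
    exact agree_natural h1 h2 ((hac j).ae_le (S.rho_ae j S.Y0)) ((hac j0).ae_le (S.rho_ae j0 S.Y0))
  have hz := (zl_meas h.meas μ S.hY m j a).exp.ennreal_ofReal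
  have e : (QQ (S.rho j) μ S.Y m n c j).trim (S.G.le a) =
      (QQ (S.rho j0) μ S.Y m n c j0).trim (S.G.le a) :=
    @Measure.ext _ (S.G a) _ _ fun B hB => by
      rw [trim_measurableSet_eq _ hB, trim_measurableSet_eq _ hB, hag B (S.G.mono ha _ hB)]
  rw [(S.one h j).dens ha hA, ← setLIntegral_trim (S.G.le a) hz hA,
    ← setLIntegral_trim (S.G.le a) hz hA, e]

theorem Search.lim_P (S : Search N μ P) {m : ℕ} {n : ℕ → ℕ} {c : ℕ → ℕ → Ω → Fin N}
    (h : Apx P S.G S.J m n c) (i : Fin N) {a : ℝ≥0} (ha : a ≤ m) : ∀ᵐ ω ∂P,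
    Tendsto (fun r => zr μ S.Y m (n r) (c r) i a ω) atTop (𝓝 (zl μ S.Y m n c i a ω)) := by
  have h1 := fun j => (ae_restrict_iff' (S.box_set' j)).1 ((Measure.ae_ennreal_smul_measure_iff
    (by exact_mod_cast i.pos.ne')).1 ((S.one h j).lim i ha))
  filter_upwards [ae_all_iff.2 h1] with ω hω
  exact hω _ rfl

theorem Search.zl_eq (S : Search N μ P) {m : ℕ} {n : ℕ → ℕ} {c : ℕ → ℕ → Ω → Fin N}
    (h : Apx P S.G S.J m n c) (i : Fin N) {a : ℝ≥0} (ha : a ≤ m) {I : Ω → ℝ}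
    (hI : IsIto P S.G S.Y (fun s ω => if S.J s ω = i then 1 else 0) a I) :
    ∀ᵐ ω ∂P, zl μ S.Y m n c i a ω = μ * I ω - μ ^ 2 / 2 * DD S.J i a ω := by
  have h1 := hI n (fun r => ph (c r) i) (fun r k => ph_meas (h.meas r k) i)
    (fun r k ω => ph_abs _ _ _ _) (by
      have h2 := ENNReal.tendsto_ofReal (tendsto_pow_atTop_nhds_zero_of_lt_one
        (by norm_num : (0 : ℝ) ≤ 1 / 4) (by norm_num))
      rw [ENNReal.ofReal_zero] at h2
      refine tendsto_of_tendsto_of_tendsto_of_le_of_le tendsto_const_nhds h2 (fun _ => zero_le)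
        fun r => (lintegral_mono fun ω => ENNReal.ofReal_le_ofReal ((le_abs_self _).trans
          (abs_int_le_ee S.J_prog _ _ zero_le ha ω fun s => ?_))).trans (h.fast r)
      simp only [ph]
      split_ifs <;> simp_all)
  obtain ⟨ns, h2, h3⟩ := h1.exists_seq_tendsto_ae
  filter_upwards [h3, S.lim_P h i ha] with ω h3 h4
  have h5 := ((S.one h i).tm_lim i zero_le ha ω).comp h2.tendsto_atTop
  have e0 : DD S.J i 0 ω = 0 := by simp [DD]
  rw [e0, sub_zero] at h5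
  refine tendsto_nhds_unique (h4.comp h2.tendsto_atTop)
    (((h3.const_mul μ).sub (h5.const_mul (μ ^ 2 / 2))).congr fun r => ?_)
  simp only [Function.comp, zr]
  congr 2
  have hle : ⌈a⌉₊ ≤ m := Nat.ceil_le.2 ha
  have e1 : ∀ k, pc (n (ns r)) 0 a k = min ((k : ℝ≥0) / 2 ^ n (ns r)) a := fun k => by
    simp [pc, grid]
  simp only [II, SI, e1]
  refine sum_subset (range_subset_range.2 (Nat.mul_le_mul_right _ hle)) fun k _ hk => ?_
  have h6 : ∀ k', ⌈a⌉₊ * 2 ^ n (ns r) ≤ k' → min ((k' : ℝ≥0) / 2 ^ n (ns r)) a = a := fun k' hk' =>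
    min_eq_right ((Nat.le_ceil a).trans (by
      rw [← grid_nat (n (ns r))]; exact grid_mono _ hk'))
  rw [mem_range, not_lt] at hk
  rw [h6 _ hk, h6 _ (hk.trans (Nat.le_succ k)), sub_self, mul_zero]

theorem Search.filt_weak [IsProbabilityMeasure P] (S : Search N μ P) (j0 : Fin N) {m : ℕ}
    {n : ℕ → ℕ} {c : ℕ → ℕ → Ω → Fin N} (h : Apx P S.G S.J m n c) {I : Fin N → ℝ≥0 → Ω → ℝ}
    (hI : ∀ j t, IsIto P S.G S.Y (fun s ω => if S.J s ω = j then 1 else 0) t (I j t))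
    (hp : ∀ i t, S.post i t =ᵐ[P] fun ω => lik μ S.J I i t ω / ∑ j, lik μ S.J I j t ω)
    (j : Fin N) {a : ℝ≥0} (ha : a ≤ m) {A : Set Ω} (hA : MeasurableSet[S.G a] A) : S.rho j A =
      ∫⁻ ω in A, ENNReal.ofReal (exp (zl μ S.Y m n c j a ω)) ∂QQ (S.rho j0) μ S.Y m n c j0 := by
  have hz := fun i => zl_meas h.meas μ S.hY m i a
  have hz' : ∀ i, Measurable (zl μ S.Y m n c i a) := fun i => (hz i).mono (S.G.le a) le_rfl
  have hS : ∀ ω, 0 < ∑ l, exp (zl μ S.Y m n c l a ω) := fun ω =>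
    sum_pos (fun _ _ => exp_pos _) ⟨j, mem_univ _⟩
  have key : ∀ i A, MeasurableSet[S.G a] A → S.rho i A = ∫⁻ ω in A, ENNReal.ofReal
      (N * (exp (zl μ S.Y m n c i a ω) / ∑ l, exp (zl μ S.Y m n c l a ω))) ∂P := by
    intro i A hA
    have h1 : (fun ω => exp (zl μ S.Y m n c i a ω) / ∑ l, exp (zl μ S.Y m n c l a ω)) =ᵐ[P]
        P[Set.indicator {ω | S.box ω = i} (fun _ => (1 : ℝ)) | S.G a] := by
      filter_upwards [S.post_eq i a, hp i a, ae_all_iff.2 fun l => S.zl_eq h l ha (hI l a)]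
        with ω h1 h2 h3
      rw [← h1, h2]
      simp only [h3]
      rfl
    have h2 := setIntegral_condExp (S.G.le a)
      ((integrable_const (1 : ℝ)).indicator (S.box_set' i)) hA (μ := P)
    rw [← integral_congr_ae (ae_restrict_of_ae h1), integral_indicator (S.box_set' i),
      Measure.restrict_restrict (S.box_set' i), Set.inter_comm] at h2
    rw [← ofReal_integral_eq_lintegral_ofReal
      (((integrable_condExp.congr h1.symm).const_mul _).integrableOn)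
      (Eventually.of_forall fun ω => mul_nonneg (Nat.cast_nonneg N)
        (div_nonneg (exp_pos _).le (hS ω).le)), integral_const_mul, h2, S.rho_apply,
      ENNReal.ofReal_mul (Nat.cast_nonneg N), ENNReal.ofReal_natCast]
    simp [Measure.real]
  have hg : Measurable[S.G a] fun ω =>
      ENNReal.ofReal (exp (zl μ S.Y m n c j a ω - zl μ S.Y m n c j0 a ω)) :=
    ((hz j).sub (hz j0)).exp.ennreal_ofReal
  have e1 := dens_lintegral (S.G.le a) (by fun_prop) (key j0) hg hA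
  have e2 := dens_lintegral (S.G.le a) (by fun_prop) (fun A hA => (S.one h j0).dens ha hA) hg hA
  rw [key j A hA]
  refine Eq.trans (lintegral_congr fun ω => ?_) (e1.symm.trans (e2.trans
    (lintegral_congr fun ω => ?_)))
  · rw [← ENNReal.ofReal_mul (mul_nonneg (Nat.cast_nonneg N) (div_nonneg (exp_pos _).le (hS ω).le)),
      Real.exp_sub]
    congr 1
    field_simp
  · rw [← ENNReal.ofReal_mul (exp_pos _).le, ← Real.exp_add, add_sub_cancel]

theorem Search.exists_filt [IsProbabilityMeasure P] (S : Search N μ P) (j0 : Fin N) (m : ℕ) :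
    ∃ n c Q, IsProbabilityMeasure Q ∧ Filt S m n c Q := by
  obtain ⟨n, c, h⟩ := exists_apx P S.J_prog j0 m
  refine ⟨n, c, QQ (S.rho j0) μ S.Y m n c j0, (S.one h j0).prob, h, (S.one h j0).bmQ,
    fun j a ha => (withDensity_absolutelyContinuous _ _).ae_le ((S.one h j0).lim j ha),
    fun j a ha A hA => ?_⟩
  rcases S.info with hG | ⟨I, hI, hp⟩
  · exact S.filt_nat j0 h hG j ha hA
  · exact S.filt_weak j0 h hI hp j ha hA

end Pool.Agent.MP_96872c_an

end

section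

open Finset Real MeasureTheory ProbabilityTheory Filter Topology
open scoped NNReal ENNReal

namespace Pool.Agent.MP_96872c_an

section Dens

variable {Ω : Type} {m mΩ : MeasurableSpace Ω} {ρ Q : Measure Ω} {L f : Ω → ℝ}

theorem dens_trim (hle : m ≤ mΩ)
    (h : ∀ A, MeasurableSet[m] A → ρ A = ∫⁻ ω in A, ENNReal.ofReal (L ω) ∂Q) :
    ρ.trim hle = (Q.withDensity fun ω => ENNReal.ofReal (L ω)).trim hle :=
  @Measure.ext _ m _ _ fun B hB => by
    rw [trim_measurableSet_eq _ hB, trim_measurableSet_eq _ hB, h B hB,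
      withDensity_apply _ (hle _ hB)]

theorem dens_integral (hle : m ≤ mΩ) (hL : Measurable L) (hL0 : ∀ ω, 0 ≤ L ω)
    (h : ∀ A, MeasurableSet[m] A → ρ A = ∫⁻ ω in A, ENNReal.ofReal (L ω) ∂Q)
    (hf : Measurable[m] f) {A : Set Ω} (hA : MeasurableSet[m] A) :
    ∫ ω in A, f ω ∂ρ = ∫ ω in A, L ω * f ω ∂Q := by
  rw [setIntegral_trim hle hf.stronglyMeasurable hA, dens_trim hle h,
    ← setIntegral_trim hle hf.stronglyMeasurable hA, restrict_withDensity (hle _ hA),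
    integral_withDensity_eq_integral_toReal_smul hL.ennreal_ofReal (by simp)]
  simp only [ENNReal.toReal_ofReal (hL0 _), smul_eq_mul]

theorem dens_integrable (hle : m ≤ mΩ) (hL : Measurable L) (hL0 : ∀ ω, 0 ≤ L ω)
    (h : ∀ A, MeasurableSet[m] A → ρ A = ∫⁻ ω in A, ENNReal.ofReal (L ω) ∂Q)
    (hf : Measurable[m] f) (hi : Integrable (fun ω => L ω * f ω) Q) : Integrable f ρ := by
  refine integrable_of_integrable_trim hle ?_
  rw [dens_trim hle h]
  refine Integrable.trim hle ?_ hf.stronglyMeasurable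
  rw [integrable_withDensity_iff_integrable_smul' hL.ennreal_ofReal (by simp)]
  simpa only [ENNReal.toReal_ofReal (hL0 _), smul_eq_mul] using hi

theorem dens_ae (h : ∀ A, MeasurableSet[m] A → ρ A = ∫⁻ ω in A, ENNReal.ofReal (L ω) ∂Q)
    {p : Ω → Prop} (hp : MeasurableSet[m] {ω | p ω}) (hQ : ∀ᵐ ω ∂Q, p ω) : ∀ᵐ ω ∂ρ, p ω := by
  rw [ae_iff] at hQ ⊢
  exact (h _ hp.compl).trans (setLIntegral_measure_zero _ _ hQ)

theorem scheffe {f : ℕ → Ω → ℝ} {g : Ω → ℝ} (hf : ∀ r, Integrable (f r) ρ) (hg : Integrable g ρ)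
    (f0 : ∀ r ω, 0 ≤ f r ω) (g0 : ∀ ω, 0 ≤ g ω)
    (hl : ∀ᵐ ω ∂ρ, Tendsto (fun r => f r ω) atTop (𝓝 (g ω)))
    (hI : Tendsto (fun r => ∫ ω, f r ω ∂ρ) atTop (𝓝 (∫ ω, g ω ∂ρ))) :
    Tendsto (fun r => ∫ ω, |f r ω - g ω| ∂ρ) atTop (𝓝 0) := by
  have hi : ∀ r, Integrable (fun ω => max (g ω - f r ω) 0) ρ := fun r => (hg.sub (hf r)).pos_part
  have h1 := tendsto_integral_of_dominated_convergence (μ := ρ)
    (F := fun r ω => max (g ω - f r ω) 0) (f := fun _ => 0) g (fun r => (hi r).1) hg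
    (fun r => Eventually.of_forall fun ω => by
      rw [Real.norm_eq_abs, abs_of_nonneg (le_max_right _ _)]
      exact max_le (by linarith [f0 r ω]) (g0 ω))
    (hl.mono fun ω hω => by simpa using (hω.const_sub (g ω)).max (tendsto_const_nhds (x := 0)))
  have h2 := (hI.sub_const (∫ ω, g ω ∂ρ)).add (h1.const_mul 2)
  simp only [sub_self, integral_zero, mul_zero, add_zero] at h2
  refine h2.congr fun r => ?_
  have i1 : Integrable (fun ω => f r ω - g ω) ρ := (hf r).sub hg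
  rw [← integral_sub (hf r) hg, ← integral_const_mul, ← integral_add i1 ((hi r).const_mul 2)]
  refine integral_congr_ae (Eventually.of_forall fun ω => ?_)
  simp only
  rcases le_total (f r ω) (g ω) with h | h
  · rw [max_eq_left (by linarith), abs_of_nonpos (by linarith)]; ring
  · rw [max_eq_right (by linarith), abs_of_nonneg (by linarith)]; ring

theorem abs_int_le [IsFiniteMeasure ρ] (hle : m ≤ mΩ) (hf : Measurable[m] f)
    (hfi : Integrable f ρ) {g : Ω → ℝ} (hg : Integrable g ρ)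
    (h : ∀ A, MeasurableSet[m] A → ∫ ω in A, f ω ∂ρ = ∫ ω in A, g ω ∂ρ) :
    ∫ ω, |f ω| ∂ρ ≤ ∫ ω, |g ω| ∂ρ := by
  have h1 := ae_eq_condExp_of_forall_setIntegral_eq hle hg (fun _ _ _ => hfi.integrableOn)
    (fun A hA _ => h A hA) hf.aestronglyMeasurable
  rw [integral_congr_ae (h1.mono fun ω hω => by rw [hω])]
  exact integral_abs_condExp_le g

end Dens

section Model

variable {N : ℕ} {Ω : Type} {mΩ : MeasurableSpace Ω} {G : Filtration ℝ≥0 mΩ} {Q : Measure Ω}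
  {Y : ℝ≥0 → Ω → ℝ}

noncomputable def vv (μ : ℝ) (n : ℕ) : ℝ≥0 := .mk (μ ^ 2) (sq_nonneg _) * grid n 1

theorem vv_coe (μ : ℝ) (n : ℕ) : (vv μ n : ℝ) = μ ^ 2 / 2 ^ n := by
  simp [vv, grid_coe, div_eq_mul_inv]

theorem vv_mul (μ : ℝ) (n k : ℕ) : (vv μ n : ℝ) * k = μ ^ 2 * grid n k := by
  rw [vv_coe, grid_coe]; ring

/-- the filtration along a grid -/
noncomputable def Gd (G : Filtration ℝ≥0 mΩ) (n : ℕ) : Filtration ℕ mΩ :=
  ⟨fun k => G (grid n k), fun _ _ h => G.mono (grid_mono n h), fun _ => G.le _⟩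

noncomputable def XX (μ : ℝ) (Y : ℝ≥0 → Ω → ℝ) (n k : ℕ) (ω : Ω) : ℝ :=
  μ * (Y (grid n (k + 1)) ω - Y (grid n k) ω) - vv μ n / 2

theorem disc_model {m : ℕ} (hB : BMon Q G Y m) (μ : ℝ) {n : ℕ} {c : ℕ → Ω → Fin N}
    (hc : ∀ k, Measurable[G (grid n k)] (c k)) :
    Disc Q (Gd G n) (XX μ Y n) c (vv μ n) (m * 2 ^ n) where
  mX k := (((hB.meas _).sub ((hB.meas _).mono (G.mono (grid_mono n (Nat.le_succ k)))
    le_rfl)).const_mul μ).sub_const _
  mJ := hc
  law k hk := by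
    have h1 := (hB.law _ _ (grid_mono n (Nat.le_succ k)) (by
      rw [← grid_nat n m]; exact grid_mono n hk)).map
      (((hB.meas _).mono (G.le _) le_rfl).sub ((hB.meas _).mono (G.le _) le_rfl))
      (g := (fun x => x - (vv μ n : ℝ) / 2) ∘ fun x => μ * x) (by fun_prop)
    rw [← Measure.map_map (by fun_prop) (by fun_prop), gaussianReal_map_const_mul,
      gaussianReal_map_sub_const, grid_succ', mul_zero, zero_sub, ← neg_div] at h1
    exact h1

theorem zeta_eq (μ : ℝ) (Y : ℝ≥0 → Ω → ℝ) {m n k : ℕ} (c : ℕ → Ω → Fin N) (hk : k ≤ m * 2 ^ n)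
    (ω : Ω) : zeta (XX μ Y n) c k ω = fun j => zr μ Y m n c j (grid n k) ω := by
  funext j
  simp only [zr, II, SI_grid n hk, zeta, Finset.sum_apply, mul_sum, ← sum_sub_distrib, tm, grid_succ]
  refine sum_congr rfl fun l _ => ?_
  unfold ph XX
  rw [vv_coe]
  split_ifs with h
  · rw [h, Pi.single_eq_same]; ring
  · rw [Pi.single_eq_of_ne' h]; ring

end Model

theorem cont_SS {N : ℕ} : Continuous (SS (N := N)) := by unfold SS; fun_prop

theorem cont_Gam {N : ℕ} : Continuous (Gam (N := N)) := by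
  have h : Continuous (Xi (N := N)) := by
    refine continuous_finsetSum _ fun i _ => continuous_finsetSum _ fun l _ => ?_
    split_ifs
    · exact continuous_const
    · unfold xi; fun_prop
  unfold Gam Phi SS
  fun_prop

variable {N : ℕ} {μ : ℝ} {Ω : Type} [mΩ : MeasurableSpace Ω] {P : Measure Ω}
  {S : Search N μ P} {m : ℕ} {n : ℕ → ℕ} {c : ℕ → ℕ → Ω → Fin N} {Q : Measure Ω}

/-- vector of log likelihoods -/
noncomputable def zv (S : Search N μ P) (m : ℕ) (n : ℕ → ℕ) (c : ℕ → ℕ → Ω → Fin N) (a : ℝ≥0)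
    (ω : Ω) : Fin N → ℝ := fun j => zl μ S.Y m n c j a ω

theorem Filt.mzv (h : Filt S m n c Q) (a : ℝ≥0) : Measurable[S.G a] (zv S m n c a) :=
  @measurable_pi_lambda _ _ _ (S.G a) _ _ fun j => zl_meas h.apx.meas μ S.hY m j a

theorem Filt.mzv' (h : Filt S m n c Q) (a : ℝ≥0) : Measurable (zv S m n c a) :=
  (h.mzv a).mono (S.G.le a) le_rfl

theorem Filt.disc (h : Filt S m n c Q) (r : ℕ) :
    Disc Q (Gd S.G (n r)) (XX μ S.Y (n r)) (c r) (vv μ (n r)) (m * 2 ^ n r) :=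
  disc_model h.bm μ (h.apx.meas r)

theorem Filt.P_apply (h : Filt S m n c Q) (hN : 2 ≤ N) {a : ℝ≥0} (ha : a ≤ m) (A : Set Ω)
    (hA : MeasurableSet[S.G a] A) :
    P A = ∫⁻ ω in A, ENNReal.ofReal (SS (zv S m n c a ω) / N) ∂Q := by
  have hN0 : (N : ℝ≥0∞) ≠ 0 := by exact_mod_cast (by omega : N ≠ 0)
  have e1 : P A = ∑ j, P (A ∩ {ω | S.box ω = j}) := by
    rw [← measure_biUnion_finset (fun i _ j _ hij => Set.disjoint_left.2 fun ω h1 h2 =>
      hij (h1.2.symm.trans h2.2)) fun j _ => (S.G.le _ _ hA).inter (S.box_set' j)]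
    congr 1
    ext ω
    simp
  have hz : ∀ j, Measurable fun ω => ENNReal.ofReal (exp (zl μ S.Y m n c j a ω)) := fun j =>
    ((zl_meas h.apx.meas μ S.hY m j a).mono (S.G.le a) le_rfl).exp.ennreal_ofReal
  have e2 : (N : ℝ≥0∞) * P A = ∫⁻ ω in A, ENNReal.ofReal (SS (zv S m n c a ω)) ∂Q := by
    rw [e1, mul_sum]
    simp only [← S.rho_apply, h.dens _ a ha A hA]
    rw [← lintegral_finsetSum _ fun j _ => hz j]
    refine lintegral_congr fun ω => ?_
    rw [SS, ENNReal.ofReal_sum_of_nonneg fun _ _ => (exp_pos _).le]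
    rfl
  have hNp : (0 : ℝ) < N := by exact_mod_cast (by omega : 0 < N)
  simp only [ENNReal.ofReal_div_of_pos hNp, ENNReal.ofReal_natCast]
  simp only [div_eq_mul_inv]
  have hm : Measurable fun ω => ENNReal.ofReal (SS (zv S m n c a ω)) :=
    (gr_SS.1.comp (h.mzv' a)).ennreal_ofReal
  rw [lintegral_mul_const _ hm, ← e2, mul_comm, ← mul_assoc,
    ENNReal.inv_mul_cancel hN0 (by simp), one_mul]

theorem Filt.int_P (h : Filt S m n c Q) (hN : 2 ≤ N) {a : ℝ≥0} (ha : a ≤ m) {f : Ω → ℝ}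
    (hf : Measurable[S.G a] f) {A : Set Ω} (hA : MeasurableSet[S.G a] A) :
    ∫ ω in A, f ω / SS (zv S m n c a ω) ∂P = (∫ ω in A, f ω ∂Q) / N := by
  have hm : Measurable[S.G a] fun ω => f ω / SS (zv S m n c a ω) :=
    hf.div (gr_SS.1.comp (h.mzv a))
  rw [dens_integral (S.G.le a) ((gr_SS.1.comp (h.mzv' a)).div_const _)
    (fun ω => div_nonneg (SS_pos hN _).le (Nat.cast_nonneg N)) (h.P_apply hN ha) hm hA,
    ← integral_div]
  refine integral_congr_ae (Eventually.of_forall fun ω => ?_)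
  have := SS_pos hN (zv S m n c a ω)
  simp only [Function.comp]
  field_simp

theorem Filt.integrable_P (h : Filt S m n c Q) (hN : 2 ≤ N) {a : ℝ≥0} (ha : a ≤ m) {f : Ω → ℝ}
    (hf : Measurable[S.G a] f) (hi : Integrable f Q) :
    Integrable (fun ω => f ω / SS (zv S m n c a ω)) P := by
  refine dens_integrable (S.G.le a) ((gr_SS.1.comp (h.mzv' a)).div_const _)
    (fun ω => div_nonneg (SS_pos hN _).le (Nat.cast_nonneg N)) (h.P_apply hN ha)
    (hf.div (gr_SS.1.comp (h.mzv a))) ((hi.div_const N).congr (Eventually.of_forall fun ω => ?_))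
  have := SS_pos hN (zv S m n c a ω)
  simp only [Function.comp]
  field_simp

/-- the conditional probability -/
noncomputable def Search.cE (S : Search N μ P) (i : Fin N) (a : ℝ≥0) : Ω → ℝ :=
  P[Set.indicator {ω | S.box ω = i} (fun _ => (1 : ℝ)) | S.G a]

theorem Search.mcE (S : Search N μ P) (i : Fin N) (a : ℝ≥0) : Measurable[S.G a] (S.cE i a) :=
  stronglyMeasurable_condExp.measurable

theorem Filt.int_exp (h : Filt S m n c Q) (i : Fin N) {a : ℝ≥0} (ha : a ≤ m) {A : Set Ω}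
    (hA : MeasurableSet[S.G a] A) :
    ∫ ω in A, exp (zv S m n c a ω i) ∂Q = (S.rho i).real A := by
  rw [Measure.real, h.dens i a ha A hA, integral_eq_lintegral_of_nonneg_ae
    (Eventually.of_forall fun _ => (exp_pos _).le)
    ((Gr.expc i).1.comp (h.mzv' a)).aestronglyMeasurable]
  rfl

variable [IsProbabilityMeasure P]

theorem Filt.cE_eq (h : Filt S m n c Q) (hN : 2 ≤ N) {a : ℝ≥0} (ha : a ≤ m) :
    ∀ᵐ ω ∂P, ∀ i, S.cE i a ω = exp (zv S m n c a ω i) / SS (zv S m n c a ω) := by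
  refine ae_all_iff.2 fun i => ?_
  have hm : Measurable[S.G a] fun ω => exp (zv S m n c a ω i) := (Gr.expc i).1.comp (h.mzv a)
  have hm2 : Measurable[S.G a] fun ω => exp (zv S m n c a ω i) / SS (zv S m n c a ω) :=
    hm.div (gr_SS.1.comp (h.mzv a))
  refine (ae_eq_condExp_of_forall_setIntegral_eq (S.G.le a)
    ((integrable_const (1 : ℝ)).indicator (S.box_set' i)) (fun A _ _ => Integrable.integrableOn ?_)
    (fun A hA _ => ?_) hm2.aestronglyMeasurable).symm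
  · refine Integrable.of_bound (hm2.mono (S.G.le a) le_rfl).aestronglyMeasurable 1
      (Eventually.of_forall fun ω => ?_)
    rw [Real.norm_eq_abs, abs_of_pos (div_pos (exp_pos _) (SS_pos hN _)), div_le_one (SS_pos hN _)]
    exact exp_le_SS _ _
  · have hNp : (0 : ℝ) < N := by exact_mod_cast (by omega : 0 < N)
    rw [h.int_P hN ha hm hA, h.int_exp i ha hA, Measure.real, S.rho_apply,
      integral_indicator (S.box_set' i), Measure.restrict_restrict (S.box_set' i), Set.inter_comm]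
    simp [Measure.real, hNp.ne']

/-- value function along the posterior -/
noncomputable def Search.U (S : Search N μ P) (a : ℝ≥0) (ω : Ω) : ℝ :=
  Gam fun i => log (S.cE i a ω)

omit [IsProbabilityMeasure P] in
theorem Search.mU (S : Search N μ P) (a : ℝ≥0) : Measurable[S.G a] (S.U a) :=
  gr_Gam.1.comp (@measurable_pi_lambda _ _ _ (S.G a) _ _ fun i => (S.mcE i a).log)

theorem Filt.U_eq (h : Filt S m n c Q) (hN : 2 ≤ N) {a : ℝ≥0} (ha : a ≤ m) :
    ∀ᵐ ω ∂P, S.U a ω = Gam (zv S m n c a ω) / SS (zv S m n c a ω) := by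
  filter_upwards [h.cE_eq hN ha] with ω hω
  have hS := SS_pos hN (zv S m n c a ω)
  simp only [Search.U, hω, Real.log_div (exp_pos _).ne' hS.ne', Real.log_exp, sub_eq_add_neg]
  rw [Gam_shift hN, Real.exp_neg, Real.exp_log hS, div_eq_inv_mul]

theorem grid_le {l k m : ℕ} (hk : k ≤ m * 2 ^ l) : grid l k ≤ m := by
  rw [← grid_nat l m]; exact grid_mono l hk

omit [IsProbabilityMeasure P] in
theorem Filt.idx (h : Filt S m n c Q) {l r : ℕ} (hl : l ≤ r) (k : ℕ) :
    grid (n r) (k * 2 ^ (n r - l)) = grid l k ∧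
      (k ≤ m * 2 ^ l → k * 2 ^ (n r - l) ≤ m * 2 ^ n r) := by
  obtain ⟨d, hd⟩ := Nat.exists_eq_add_of_le (hl.trans (h.apx.mono.id_le r))
  rw [hd, Nat.add_sub_cancel_left, grid_mul_pow, pow_add, ← mul_assoc]
  exact ⟨rfl, fun hk => Nat.mul_le_mul_right _ hk⟩

variable [IsProbabilityMeasure Q]

omit [IsProbabilityMeasure P] [IsProbabilityMeasure Q] in
theorem Filt.lim_zeta (h : Filt S m n c Q) {l k : ℕ} (hk : k ≤ m * 2 ^ l) :
    ∀ᵐ ω ∂Q, Tendsto (fun r => zeta (XX μ S.Y (n r)) (c r) (k * 2 ^ (n r - l)) ω) atTop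
      (𝓝 (zv S m n c (grid l k) ω)) := by
  filter_upwards [ae_all_iff.2 fun j => h.lim j _ (grid_le hk)] with ω hω
  refine (tendsto_pi_nhds.2 hω).congr' ?_
  filter_upwards [eventually_ge_atTop l] with r hr
  rw [zeta_eq μ S.Y (c r) ((h.idx hr k).2 hk), (h.idx hr k).1]

omit [IsProbabilityMeasure P] in
theorem Filt.bound (h : Filt S m n c Q) {F : (Fin N → ℝ) → ℝ} (hF : Gr F) : ∃ C, ∀ r,
    ∀ k ≤ m * 2 ^ n r, ∫⁻ ω, ENNReal.ofReal |F (zeta (XX μ S.Y (n r)) (c r) k ω)| ∂Q ≤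
      ENNReal.ofReal C := by
  obtain ⟨C, hC⟩ := hF.bound (mΩ := mΩ) (μ ^ 2 * m)
  refine ⟨C, fun r k hk => hC Q _ _ _ _ _ (h.disc r) k hk ?_⟩
  rw [vv_mul]
  exact mul_le_mul_of_nonneg_left (by exact_mod_cast grid_le hk) (sq_nonneg _)

omit [IsProbabilityMeasure P] in
theorem Filt.limF (h : Filt S m n c Q) {F : (Fin N → ℝ) → ℝ} (hF : Gr F) (hc : Continuous F)
    {l k : ℕ} (hk : k ≤ m * 2 ^ l) (A : Set Ω) :
    IntegrableOn (fun ω => F (zv S m n c (grid l k) ω)) A Q ∧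
    Tendsto (fun r => ∫ ω in A, F (zeta (XX μ S.Y (n r)) (c r) (k * 2 ^ (n r - l)) ω) ∂Q) atTop
      (𝓝 (∫ ω in A, F (zv S m n c (grid l k) ω) ∂Q)) := by
  obtain ⟨C, hC⟩ := h.bound (hF.pow 2)
  rw [← tendsto_add_atTop_iff_nat l]
  refine tendsto_integral_L2 (C := C)
    (fun r => (hF.1.comp ((h.disc (r + l)).mz' _)).aestronglyMeasurable) (fun r => ?_)
    (ae_restrict_of_ae ((h.lim_zeta hk).mono fun ω hω =>
      (hc.tendsto _).comp ((tendsto_add_atTop_iff_nat l).2 hω)))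
  refine (setLIntegral_le_lintegral _ _).trans ?_
  simpa only [abs_pow, sq_abs] using hC (r + l) _ ((h.idx (Nat.le_add_left l r) k).2 hk)

theorem Filt.intU (h : Filt S m n c Q) (hN : 2 ≤ N) {l k : ℕ} (hk : k ≤ m * 2 ^ l) :
    Integrable (S.U (grid l k)) P :=
  (h.integrable_P hN (grid_le hk) (gr_Gam.1.comp (h.mzv _))
    (integrableOn_univ.1 (h.limF gr_Gam cont_Gam hk _).1)).congr
    ((h.U_eq hN (grid_le hk)).mono fun _ hω => hω.symm)

omit [IsProbabilityMeasure Q] in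
theorem Filt.int_U (h : Filt S m n c Q) (hN : 2 ≤ N) {a : ℝ≥0} (ha : a ≤ m) {A : Set Ω}
    (hA : MeasurableSet[S.G a] A) :
    ∫ ω in A, S.U a ω ∂P = (∫ ω in A, Gam (zv S m n c a ω) ∂Q) / N := by
  rw [← h.int_P hN ha (f := fun ω => Gam (zv S m n c a ω)) (gr_Gam.1.comp (h.mzv a)) hA]
  exact integral_congr_ae (ae_restrict_of_ae (h.U_eq hN ha))

omit [IsProbabilityMeasure Q] [IsProbabilityMeasure P] in
theorem Filt.real_eq (h : Filt S m n c Q) (hN : 2 ≤ N) {a : ℝ≥0} (ha : a ≤ m) {A : Set Ω}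
    (hA : MeasurableSet[S.G a] A) : P.real A = (∫ ω in A, SS (zv S m n c a ω) ∂Q) / N := by
  rw [← h.int_P hN ha (f := fun ω => SS (zv S m n c a ω)) (gr_SS.1.comp (h.mzv a)) hA]
  simp [(SS_pos hN _).ne']

omit [IsProbabilityMeasure Q] [IsProbabilityMeasure P] in
theorem Filt.vv_idx (h : Filt S m n c Q) {l r : ℕ} (hl : l ≤ r) (k0 k1 : ℕ) :
    (vv μ (n r) : ℝ) * (((k1 * 2 ^ (n r - l) : ℕ) : ℝ) - (k0 * 2 ^ (n r - l) : ℕ)) =
      μ ^ 2 * ((grid l k1 : ℝ) - grid l k0) := by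
  rw [mul_sub, vv_mul, vv_mul, (h.idx hl k0).1, (h.idx hl k1).1, mul_sub]

theorem Filt.I1 (h : Filt S m n c Q) (hN : 2 ≤ N) {l k0 k1 : ℕ} (h01 : k0 ≤ k1)
    (hk : k1 ≤ m * 2 ^ l) {A : Set Ω} (hA : MeasurableSet[S.G (grid l k0)] A) :
    ∫ ω in A, S.U (grid l k1) ω ∂P ≤ ∫ ω in A, S.U (grid l k0) ω ∂P +
      μ ^ 2 * ((grid l k1 : ℝ) - grid l k0) / 2 * P.real A := by
  have hk0 := h01.trans hk
  rw [h.int_U hN (grid_le hk) (S.G.mono (grid_mono l h01) _ hA), h.int_U hN (grid_le hk0) hA,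
    h.real_eq hN (grid_le hk0) hA, ← mul_div_assoc, ← add_div]
  refine div_le_div_of_nonneg_right ?_ (Nat.cast_nonneg N)
  refine le_of_tendsto_of_tendsto (h.limF gr_Gam cont_Gam hk A).2
    ((h.limF gr_Gam cont_Gam hk0 A).2.add ((h.limF gr_SS cont_SS hk0 A).2.const_mul _)) ?_
  filter_upwards [eventually_ge_atTop l] with r hr
  rw [← h.vv_idx hr]
  exact (h.disc r).D1 hN (by rw [← (h.idx hr k0).1] at hA; exact hA)
    (Nat.mul_le_mul_right _ h01) ((h.idx hr k1).2 hk)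

end Pool.Agent.MP_96872c_an

end

section

open Finset Real MeasureTheory ProbabilityTheory Filter Topology
open scoped NNReal ENNReal

namespace Pool.Agent.MP_96872c_an

variable {N : ℕ} {μ : ℝ} {Ω : Type} [mΩ : MeasurableSpace Ω] {P : Measure Ω}
  {S : Search N μ P} {m : ℕ} {n : ℕ → ℕ} {c : ℕ → ℕ → Ω → Fin N} {Q : Measure Ω}

theorem Yy_close (ζ ξ : Fin N → ℝ) (j : Fin N) :
    Yy ζ j ≤ Yy ξ j + (N + 1) * ∑ i, |exp (ζ i) - exp (ξ i)| := by
  have h1 : |exp (ζ j) - exp (ξ j)| ≤ ∑ i, |exp (ζ i) - exp (ξ i)| :=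
    single_le_sum (f := fun i => |exp (ζ i) - exp (ξ i)|) (fun _ _ => abs_nonneg _) (mem_univ j)
  have h2 : Yy ζ j ≤ ∑ i, (max (exp (ξ i) - exp (ξ j)) 0 + |exp (ζ i) - exp (ξ i)| +
      |exp (ζ j) - exp (ξ j)|) := by
    refine sum_le_sum fun i _ => max_le ?_ (by positivity)
    linarith [le_max_left (exp (ξ i) - exp (ξ j)) 0, le_abs_self (exp (ζ i) - exp (ξ i)),
      neg_abs_le (exp (ζ j) - exp (ξ j))]
  simp only [sum_add_distrib, sum_const, card_univ, Fintype.card_fin, nsmul_eq_mul] at h2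
  have h3 := mul_le_mul_of_nonneg_left h1 (Nat.cast_nonneg (α := ℝ) N)
  unfold Yy at *
  linarith

theorem tendsto_grid {n : ℕ → ℕ} (hn : StrictMono n) {s : ℝ} (hs : 0 ≤ s) :
    Tendsto (fun r => grid (n r) ⌊s * 2 ^ n r⌋₊) atTop (𝓝 s.toNNReal) := by
  rw [← NNReal.tendsto_coe, Real.coe_toNNReal _ hs]
  simp only [grid_coe]
  exact (tendsto_nat_floor_mul_div_atTop hs).comp
    ((tendsto_pow_atTop_atTop_of_one_lt one_lt_two).comp hn.tendsto_atTop)

/-- normalised excess at a grid point -/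
noncomputable def ww (S : Search N μ P) (m : ℕ) (n : ℕ → ℕ) (c : ℕ → ℕ → Ω → Fin N) (r k : ℕ)
    (ω : Ω) : ℝ :=
  Yy (zv S m n c (grid (n r) k) ω) (c r k ω) / SS (zv S m n c (grid (n r) k) ω)

theorem ww_abs (hN : 2 ≤ N) (r k : ℕ) (ω : Ω) : |ww S m n c r k ω| ≤ 1 := by
  rw [ww, abs_of_nonneg (div_nonneg (Yy_nonneg _ _) (SS_pos hN _).le), div_le_one (SS_pos hN _)]
  exact Yy_le _ _

theorem Filt.mYy (h : Filt S m n c Q) (r k : ℕ) : Measurable[S.G (grid (n r) k)] fun ω =>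
    Yy (zv S m n c (grid (n r) k) ω) (c r k ω) :=
  (meas_err gr_Yy).comp ((h.mzv _).prodMk (h.apx.meas r k))

theorem Filt.mww (h : Filt S m n c Q) (r k : ℕ) : Measurable (ww S m n c r k) :=
  ((h.mYy r k).div (gr_SS.1.comp (h.mzv _))).mono (S.G.le _) le_rfl

variable [IsProbabilityMeasure P]

theorem Filt.ww_path (h : Filt S m n c Q) (hN : 2 ≤ N) (hF : S.IsFTL) : ∀ᵐ ω ∂P,
    Tendsto (fun r => ∑ k ∈ range (m * 2 ^ n r), ww S m n c r k ω * (1 / 2 ^ n r)) atTop (𝓝 0) := by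
  have h1 : ∀ᵐ ω ∂P, ∀ r k, k ≤ m * 2 ^ n r → ∀ i, S.post i (grid (n r) k) ω =
      exp (zv S m n c (grid (n r) k) ω i) / SS (zv S m n c (grid (n r) k) ω) := by
    refine ae_all_iff.2 fun r => ae_all_iff.2 fun k => ?_
    by_cases hk : k ≤ m * 2 ^ n r
    · filter_upwards [h.cE_eq hN (grid_le hk), ae_all_iff.2 fun i => S.post_eq i (grid (n r) k)]
        with ω h1 h2 _ i
      rw [h2 i, ← h1 i]
      rfl
    · exact Eventually.of_forall fun _ h => absurd h hk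
  filter_upwards [h1, S.post_cont, hF] with ω h1 h2 h3
  have h4 := tendsto_int_zero (f := fun r s => ww S m n c r ⌊s * 2 ^ n r⌋₊ ω)
    (fun r => meas_step _ fun k => ww S m n c r k ω) (fun r s => ww_abs hN _ _ _) m (by
      filter_upwards [h3, h.apx.conv ω] with s h3 h4 hs0 hsm
      have h5 := fun i => ((h2 i).tendsto _).comp (tendsto_grid h.apx.mono hs0.le)
      have h6 := tendsto_finsetSum univ fun i _ =>
        ((h5 i).sub (h5 (S.J s.toNNReal ω))).max (tendsto_const_nhds (x := (0 : ℝ)))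
      rw [sum_eq_zero fun i _ => max_eq_right (sub_nonpos.2 (h3 hs0 i))] at h6
      refine h6.congr' ?_
      filter_upwards [h4 hs0] with r hr
      have hk : ⌊s * 2 ^ n r⌋₊ ≤ m * 2 ^ n r := Nat.floor_le_of_le (by
        push_cast
        exact mul_le_mul_of_nonneg_right (by exact_mod_cast hsm) (by positivity))
      simp only [Function.comp, h1 r _ hk, ww, Yy, hr, sum_div]
      refine sum_congr rfl fun i _ => ?_
      rw [← max_div_div_right (SS_pos hN _).le, sub_div, zero_div])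
  refine h4.congr fun r => ?_
  have e1 := SI_time (n := n r) (m := m * 2 ^ n r) (a := 0) (b := m) zero_le
    (by rw [grid_nat]) (fun k => ww_abs (S := S) (m := m) (n := n) (c := c) hN r k ω)
  have e2 := SI_grid (n r) (le_refl (m * 2 ^ n r)) (ww S m n c r) tm ω
  rw [grid_nat, e1] at e2
  simpa only [tm, grid_succ, NNReal.coe_zero] using e2

theorem Filt.ww_int (h : Filt S m n c Q) (hN : 2 ≤ N) (hF : S.IsFTL) :
    Tendsto (fun r => ∑ k ∈ range (m * 2 ^ n r), (∫ ω, ww S m n c r k ω ∂P) * (1 / 2 ^ n r))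
      atTop (𝓝 0) := by
  have h1 := tendsto_integral_of_dominated_convergence (μ := P) (fun _ => (m : ℝ))
    (fun r => (Finset.measurable_sum _ fun k _ =>
      (h.mww r k).mul_const (1 / 2 ^ n r)).aestronglyMeasurable) (integrable_const _)
    (fun r => Eventually.of_forall fun ω => (norm_sum_le _ _).trans (by
      refine (sum_le_card_nsmul _ _ (1 / 2 ^ n r) fun k _ => ?_).trans (le_of_eq ?_)
      · rw [norm_mul, Real.norm_eq_abs, Real.norm_eq_abs, abs_of_pos (by positivity : (0 : ℝ) < 1 / 2 ^ n r)]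
        exact mul_le_of_le_one_left (by positivity) (ww_abs hN _ _ _)
      · simp)) (h.ww_path hN hF)
  rw [integral_zero] at h1
  refine h1.congr fun r => ?_
  rw [integral_finsetSum _ fun k _ => (Integrable.of_bound (h.mww r k).aestronglyMeasurable 1
    (Eventually.of_forall fun ω => ww_abs hN _ _ _)).mul_const _]
  simp only [integral_mul_const]

variable [IsProbabilityMeasure Q]

omit [IsProbabilityMeasure P] in
theorem Filt.int_expc (h : Filt S m n c Q) (i : Fin N) {l k : ℕ} (hk : k ≤ m * 2 ^ l) :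
    Integrable (fun ω => exp (zv S m n c (grid l k) ω i)) Q :=
  integrableOn_univ.1 (h.limF (Gr.expc i) (by fun_prop) hk _).1

omit [IsProbabilityMeasure P] in
theorem Filt.delta_le (h : Filt S m n c Q) (i : Fin N) (r : ℕ) {k : ℕ} (hk : k ≤ m * 2 ^ n r) :
    ∫ ω, |exp (zeta (XX μ S.Y (n r)) (c r) k ω i) - exp (zv S m n c (grid (n r) k) ω i)| ∂Q ≤
      ∫ ω, |exp (zeta (XX μ S.Y (n r)) (c r) (m * 2 ^ n r) ω i) - exp (zv S m n c m ω i)| ∂Q := by
  have i1 := (h.disc r).int (Gr.expc i) hk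
  have i2 := h.int_expc i hk
  have i3 := (h.disc r).int (Gr.expc i) le_rfl
  have i4 := h.int_expc i (le_refl (m * 2 ^ n r))
  rw [grid_nat] at i4
  refine abs_int_le (S.G.le (grid (n r) k))
    (((Gr.expc i).1.comp ((h.disc r).mz k)).sub ((Gr.expc i).1.comp (h.mzv _))) (i1.sub i2)
    (i3.sub i4) fun A hA => ?_
  simp only [Pi.sub_apply, Function.comp]
  rw [integral_sub i1.integrableOn i2.integrableOn, integral_sub i3.integrableOn i4.integrableOn,
    (h.disc r).mart (Gr.expc i) (I_expc _ i) hA hk le_rfl, h.int_exp i (grid_le hk) hA,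
    h.int_exp i le_rfl (S.G.mono (grid_le hk) _ hA)]

omit [IsProbabilityMeasure P] in
theorem Filt.delta_lim (h : Filt S m n c Q) (i : Fin N) :
    Tendsto (fun r => ∫ ω, |exp (zeta (XX μ S.Y (n r)) (c r) (m * 2 ^ n r) ω i) -
      exp (zv S m n c m ω i)| ∂Q) atTop (𝓝 0) := by
  have hk : m ≤ m * 2 ^ 0 := by simp
  have e : grid 0 m = m := by simp [grid]
  have h1 := h.int_expc i hk
  have h2 := h.lim_zeta hk
  have h3 := (h.limF (Gr.expc i) (by fun_prop) hk Set.univ).2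
  simp only [e, Nat.sub_zero, Measure.restrict_univ] at h1 h2 h3
  exact scheffe (fun r => (h.disc r).int (Gr.expc i) le_rfl) h1 (fun _ _ => (exp_pos _).le)
    (fun _ => (exp_pos _).le) (h2.mono fun ω hω =>
      (Real.continuous_exp.tendsto _).comp (tendsto_pi_nhds.1 hω i)) h3

theorem Filt.RR_lim (h : Filt S m n c Q) (hN : 2 ≤ N) (hF : S.IsFTL) :
    Tendsto (fun r => RR Q (XX μ S.Y (n r)) (c r) (vv μ (n r)) (m * 2 ^ n r)) atTop (𝓝 0) := by
  have h1 := ((h.ww_int hN hF).const_mul (μ ^ 2 * N)).add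
    ((tendsto_finsetSum univ fun i _ => h.delta_lim i).const_mul (μ ^ 2 * m * (N + 1)))
  simp only [mul_zero, sum_const_zero, add_zero] at h1
  refine squeeze_zero (fun r => mul_nonneg (vv μ _).2 (sum_nonneg fun k _ =>
    integral_nonneg fun ω => Yy_nonneg _ _)) (fun r => ?_) h1
  set δ := ∑ i, ∫ ω, |exp (zeta (XX μ S.Y (n r)) (c r) (m * 2 ^ n r) ω i) -
      exp (zv S m n c m ω i)| ∂Q
  have hNp : (0 : ℝ) < N := by exact_mod_cast (by omega : 0 < N)
  have key : ∀ k ∈ range (m * 2 ^ n r), ∫ ω, Yy (zeta (XX μ S.Y (n r)) (c r) k ω) (c r k ω) ∂Q ≤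
      N * ∫ ω, ww S m n c r k ω ∂P + (N + 1) * δ := by
    intro k hk
    have hk' := (mem_range.1 hk).le
    have e1 := h.int_P hN (grid_le hk') (h.mYy r k) (@MeasurableSet.univ _ (S.G _))
    simp only [Measure.restrict_univ] at e1
    have i1 : Integrable (fun ω => Yy (zv S m n c (grid (n r) k) ω) (c r k ω)) Q :=
      (integrableOn_univ.1 (h.limF gr_SS cont_SS hk' _).1).mono'
        ((h.mYy r k).mono (S.G.le _) le_rfl).aestronglyMeasurable (Eventually.of_forall fun ω => by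
          rw [Real.norm_eq_abs, abs_of_nonneg (Yy_nonneg _ _)]; exact Yy_le _ _)
    have i2 : ∀ i, Integrable (fun ω => |exp (zeta (XX μ S.Y (n r)) (c r) k ω i) -
        exp (zv S m n c (grid (n r) k) ω i)|) Q := fun i =>
      (((h.disc r).int (Gr.expc i) hk').sub (h.int_expc i hk')).abs
    have i3 := (integrable_finsetSum univ fun i _ => i2 i).const_mul ((N : ℝ) + 1)
    refine (integral_mono ((h.disc r).int_err gr_Yy hk') (i1.add i3) fun ω =>
      Yy_close _ _ _).trans ?_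
    simp only [Pi.add_apply]
    rw [integral_add i1 i3, integral_const_mul, integral_finsetSum _ fun i _ => i2 i]
    refine add_le_add (le_of_eq ?_) (mul_le_mul_of_nonneg_left
      (sum_le_sum fun i _ => h.delta_le i r hk') (by positivity))
    unfold ww
    rw [e1]
    field_simp
  refine (mul_le_mul_of_nonneg_left (sum_le_sum key) (vv μ _).2).trans (le_of_eq ?_)
  simp only [sum_add_distrib, sum_const, card_range, nsmul_eq_mul, ← mul_sum, ← sum_mul]
  change (vv μ (n r) : ℝ) * _ = _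
  rw [vv_coe]
  push_cast
  field_simp

omit [IsProbabilityMeasure P] [IsProbabilityMeasure Q] in
theorem Filt.vv_lim (h : Filt S m n c Q) : Tendsto (fun r => (vv μ (n r) : ℝ)) atTop (𝓝 0) := by
  simp only [vv_coe]
  exact ((tendsto_pow_atTop_atTop_of_one_lt one_lt_two).comp
    h.apx.mono.tendsto_atTop).const_div_atTop _

theorem vv_pos (hμ : 0 < μ) (n : ℕ) : 0 < vv μ n := by
  rw [← NNReal.coe_pos, vv_coe]; positivity

theorem vv_M (μ : ℝ) (n m : ℕ) : (vv μ n : ℝ) * (m * 2 ^ n : ℕ) = μ ^ 2 * m := by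
  rw [vv_mul, grid_nat]; rfl

theorem Filt.I2 (h : Filt S m n c Q) (hN : 2 ≤ N) (hμ : 0 < μ) (hF : S.IsFTL) {l k0 k1 : ℕ}
    (h01 : k0 ≤ k1) (hk : k1 ≤ m * 2 ^ l) {A : Set Ω} (hA : MeasurableSet[S.G (grid l k0)] A) :
    ∫ ω in A, S.U (grid l k0) ω ∂P + μ ^ 2 * ((grid l k1 : ℝ) - grid l k0) / 2 * P.real A ≤
      ∫ ω in A, S.U (grid l k1) ω ∂P := by
  have hk0 := h01.trans hk
  rw [h.int_U hN (grid_le hk) (S.G.mono (grid_mono l h01) _ hA), h.int_U hN (grid_le hk0) hA,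
    h.real_eq hN (grid_le hk0) hA, ← mul_div_assoc, ← add_div]
  refine div_le_div_of_nonneg_right ?_ (Nat.cast_nonneg N)
  have h1 := (h.limF gr_Gam cont_Gam hk A).2.add ((((h.RR_lim hN hF).const_mul 2).add
    (((h.vv_lim.sqrt.const_mul 11).const_mul (μ ^ 2 * m)).mul_const (N : ℝ))).const_mul ((N : ℝ) ^ 2))
  simp only [sqrt_zero, mul_zero, zero_mul, add_zero] at h1
  refine le_of_tendsto_of_tendsto ((h.limF gr_Gam cont_Gam hk0 A).2.add
    ((h.limF gr_SS cont_SS hk0 A).2.const_mul _)) h1 ?_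
  filter_upwards [eventually_ge_atTop l,
    h.vv_lim.eventually (ge_mem_nhds (by norm_num : (0 : ℝ) < 1 / 6))] with r hr hv
  rw [← h.vv_idx hr, ← vv_M μ (n r)]
  exact (h.disc r).D2 hN (vv_pos hμ _) hv (by rw [← (h.idx hr k0).1] at hA; exact hA)
    (Nat.mul_le_mul_right _ h01) ((h.idx hr k1).2 hk)

omit [IsProbabilityMeasure P] in
theorem Filt.bound' (h : Filt S m n c Q) {F : (Fin N → ℝ) → ℝ} (hF : Gr F) : ∃ C, ∀ r,
    ∀ k ≤ m * 2 ^ n r, ∫ ω, F (zeta (XX μ S.Y (n r)) (c r) k ω) ∂Q ≤ C := by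
  obtain ⟨C, hC⟩ := h.bound hF
  refine ⟨max C 0, fun r k hk => ?_⟩
  have i1 := (h.disc r).int hF hk
  have h1 := (hC r k hk).trans (ENNReal.ofReal_le_ofReal (le_max_left C 0))
  rw [← ofReal_integral_eq_lintegral_ofReal i1.abs (Eventually.of_forall fun _ => abs_nonneg _),
    ENNReal.ofReal_le_ofReal_iff (le_max_right _ _)] at h1
  exact (integral_mono i1 i1.abs fun _ => le_abs_self _).trans h1

theorem Filt.I3 (h : Filt S m n c Q) (hN : 2 ≤ N) (hμ : 0 < μ) (hF : S.IsFTL) {l k : ℕ}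
    (hk : k ≤ m * 2 ^ l) {a b d : Fin N} (hab : a ≠ b) (had : a ≠ d) (hbd : b ≠ d) :
    ∀ᵐ ω ∂P, lam (exp (zv S m n c (grid l k) ω a)) (exp (zv S m n c (grid l k) ω b))
      (exp (zv S m n c (grid l k) ω d)) = 0 := by
  obtain ⟨C3, h3⟩ := h.bound' (gr_SS.pow 3)
  obtain ⟨C4, h4⟩ := h.bound' (gr_SS.pow 4)
  obtain ⟨i1, l1⟩ := h.limF (gr_lam a b d) (by unfold lam; fun_prop) hk Set.univ
  rw [integrableOn_univ] at i1
  rw [Measure.restrict_univ] at l1
  have key : ∀ K : ℝ, 0 < K → ∫ ω, lam (exp (zv S m n c (grid l k) ω a))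
      (exp (zv S m n c (grid l k) ω b)) (exp (zv S m n c (grid l k) ω d)) ∂Q ≤
      24 * (μ ^ 2 * m * C4 / K) := by
    intro K hK
    have h1 := ((((h.RR_lim hN hF).const_mul (K ^ 2)).add_const (μ ^ 2 * m * C4 / K)).const_mul
      24).add (((h.vv_lim.sqrt.const_mul 44).const_mul (12 * (μ ^ 2 * m))).mul_const C3)
    simp only [sqrt_zero, mul_zero, zero_mul, add_zero, zero_add] at h1
    refine le_of_tendsto_of_tendsto l1 h1 ?_
    filter_upwards [eventually_ge_atTop l,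
      h.vv_lim.eventually (ge_mem_nhds (by norm_num : (0 : ℝ) < 1 / 6))] with r hr hv
    rw [← vv_M μ (n r)]
    exact (h.disc r).D3 (vv_pos hμ _) hv hab had hbd hK (h3 r) (h4 r) ((h.idx hr k).2 hk)
  have h0 := ge_of_tendsto ((tendsto_id.const_div_atTop (μ ^ 2 * m * C4)).const_mul 24)
    ((eventually_gt_atTop 0).mono key)
  rw [mul_zero] at h0
  have h5 := (integral_eq_zero_iff_of_nonneg (fun ω => lam_nonneg _ _ _) i1).1
    (le_antisymm h0 (integral_nonneg fun ω => lam_nonneg _ _ _))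
  exact dens_ae (h.P_apply hN (grid_le hk))
    (((gr_lam a b d).1.comp (h.mzv _)) (measurableSet_singleton 0)) h5

end Pool.Agent.MP_96872c_an

end

section

open Finset Real MeasureTheory ProbabilityTheory Filter Topology
open scoped NNReal ENNReal

namespace Pool.Agent.MP_96872c_an

section Abs

variable {Ω : Type} {mΩ : MeasurableSpace Ω} {P : Measure Ω}

open Classical in
/-- first entrance index, capped at `M` -/
noncomputable def st (H : ℕ → Set Ω) (M : ℕ) (ω : Ω) : ℕ :=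
  Nat.find (⟨M, Or.inl le_rfl⟩ : ∃ k, M ≤ k ∨ ω ∈ H k)

theorem st_le (H : ℕ → Set Ω) (M : ℕ) (ω : Ω) : st H M ω ≤ M := by
  classical exact Nat.find_min' _ (Or.inl le_rfl)

theorem st_le_of {H : ℕ → Set Ω} (M : ℕ) {ω : Ω} {k : ℕ} (h : ω ∈ H k) : st H M ω ≤ k := by
  classical exact Nat.find_min' _ (Or.inr h)

theorem st_spec (H : ℕ → Set Ω) (M : ℕ) (ω : Ω) : st H M ω = M ∨ ω ∈ H (st H M ω) := by
  classical
  rcases Nat.find_spec (⟨M, Or.inl le_rfl⟩ : ∃ k, M ≤ k ∨ ω ∈ H k) with h | h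
  · exact Or.inl (le_antisymm (st_le H M ω) h)
  · exact Or.inr h

theorem st_meas {G : Filtration ℕ mΩ} {H : ℕ → Set Ω} (hH : ∀ k, MeasurableSet[G k] (H k)) (M k : ℕ) :
    MeasurableSet[G k] {ω | k < st H M ω} := by
  classical
  have : {ω | k < st H M ω} = ⋂ j ∈ Set.Iic k, ({_ω | M ≤ j} ∪ H j)ᶜ := by
    ext ω
    simp only [st, Nat.lt_find_iff, Set.mem_ofPred_eq, Set.mem_iInter, Set.mem_Iic,
      Set.mem_compl_iff, Set.mem_union]
  rw [this]
  exact MeasurableSet.biInter (Set.to_countable _) fun j hj =>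
    ((@MeasurableSet.const _ (G k) _).union (G.mono hj _ (hH j))).compl

theorem st_eq_meas {G : Filtration ℕ mΩ} {H : ℕ → Set Ω} (hH : ∀ k, MeasurableSet[G k] (H k))
    (M k : ℕ) : MeasurableSet[G k] {ω | st H M ω = k} := by
  rcases k with _ | k
  · convert (st_meas hH M 0).compl using 1
    ext ω; simp
  · convert (G.mono (Nat.le_succ k) _ (st_meas hH M k)).diff (st_meas hH M (k + 1)) using 1
    ext ω
    simp only [Set.mem_ofPred_eq, Set.mem_sdiff]
    omega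

theorem tele (f : ℕ → ℝ) {τ M : ℕ} (h : τ ≤ M) :
    f τ = f 0 + ∑ k ∈ range M, if k < τ then f (k + 1) - f k else 0 := by
  rw [← sum_filter]
  have : (range M).filter (· < τ) = range τ := by
    ext k; simp only [mem_filter, mem_range]; omega
  rw [this, sum_range_sub]; ring

theorem stop_int {U : ℕ → Ω → ℝ} (hU : ∀ k, Integrable (U k) P) {τ : Ω → ℕ} {M : ℕ}
    (hM : ∀ ω, τ ω ≤ M) (hτ : ∀ k, MeasurableSet {ω | k < τ ω}) :
    Integrable (fun ω => U (τ ω) ω) P ∧ ∫ ω, U (τ ω) ω ∂P = ∫ ω, U 0 ω ∂P + ∑ k ∈ range M,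
      (∫ ω in {ω | k < τ ω}, U (k + 1) ω ∂P - ∫ ω in {ω | k < τ ω}, U k ω ∂P) := by
  have e : (fun ω => U (τ ω) ω) = fun ω => U 0 ω + ∑ k ∈ range M,
      {ω | k < τ ω}.indicator (fun ω => U (k + 1) ω - U k ω) ω := by
    funext ω
    rw [tele (fun k => U k ω) (hM ω)]
    simp only [Set.indicator_apply, Set.mem_ofPred_eq]
  have i1 : ∀ k, Integrable ({ω | k < τ ω}.indicator fun ω => U (k + 1) ω - U k ω) P := fun k =>
    ((hU _).sub (hU _)).indicator (hτ k)
  have i2 := integrable_finsetSum (range M) fun k _ => i1 k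
  rw [e]
  refine ⟨(hU 0).add i2, ?_⟩
  rw [integral_add (hU 0) i2, integral_finsetSum _ fun k _ => i1 k]
  congr 1
  refine sum_congr rfl fun k _ => ?_
  rw [integral_indicator (hτ k), integral_sub (hU _).integrableOn (hU _).integrableOn]

theorem stop_time [IsProbabilityMeasure P] {τ : Ω → ℕ} {M : ℕ} (hM : ∀ ω, τ ω ≤ M)
    (hτ : ∀ k, MeasurableSet {ω | k < τ ω}) (l : ℕ) :
    Integrable (fun ω => (grid l (τ ω) : ℝ)) P ∧ ∫ ω, (grid l (τ ω) : ℝ) ∂P = ∑ k ∈ range M,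
      ((grid l (k + 1) : ℝ) - grid l k) * P.real {ω | k < τ ω} := by
  obtain ⟨h1, h2⟩ := stop_int (P := P) (U := fun k _ => (grid l k : ℝ))
    (fun _ => integrable_const _) hM hτ
  refine ⟨h1, ?_⟩
  rw [h2]
  simp only [grid_zero, NNReal.coe_zero, integral_zero, zero_add, integral_const, smul_eq_mul,
    measureReal_restrict_apply_univ]
  exact sum_congr rfl fun k _ => by ring

end Abs

variable {N : ℕ} {μ : ℝ} {Ω : Type} [mΩ : MeasurableSpace Ω] {P : Measure Ω}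
  [IsProbabilityMeasure P] (S : Search N μ P)

theorem le_mul_pow (k l : ℕ) : k ≤ k * 2 ^ l := Nat.le_mul_of_pos_right _ (by positivity)

theorem Search.intU (hN : 2 ≤ N) (l k : ℕ) : Integrable (S.U (grid l k)) P := by
  obtain ⟨n, c, Q, _, h⟩ := S.exists_filt ⟨0, by omega⟩ k
  exact h.intU hN (le_mul_pow k l)

theorem Search.I1 (hN : 2 ≤ N) {l k0 k1 : ℕ} (h01 : k0 ≤ k1) {A : Set Ω}
    (hA : MeasurableSet[S.G (grid l k0)] A) :
    ∫ ω in A, S.U (grid l k1) ω ∂P ≤ ∫ ω in A, S.U (grid l k0) ω ∂P +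
      μ ^ 2 * ((grid l k1 : ℝ) - grid l k0) / 2 * P.real A := by
  obtain ⟨n, c, Q, _, h⟩ := S.exists_filt ⟨0, by omega⟩ k1
  exact h.I1 hN h01 (le_mul_pow k1 l) hA

theorem Search.I2 (hN : 2 ≤ N) (hμ : 0 < μ) (hF : S.IsFTL) {l k0 k1 : ℕ} (h01 : k0 ≤ k1)
    {A : Set Ω} (hA : MeasurableSet[S.G (grid l k0)] A) :
    ∫ ω in A, S.U (grid l k0) ω ∂P + μ ^ 2 * ((grid l k1 : ℝ) - grid l k0) / 2 * P.real A ≤
      ∫ ω in A, S.U (grid l k1) ω ∂P := by
  obtain ⟨n, c, Q, _, h⟩ := S.exists_filt ⟨0, by omega⟩ k1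
  exact h.I2 hN hμ hF h01 (le_mul_pow k1 l) hA

theorem argmax (hN : 2 ≤ N) (ζ : Fin N → ℝ) : ∃ i0, (∀ i, ζ i ≤ ζ i0) ∧
    (∀ i, exp (ζ i) / SS ζ ≤ exp (ζ i0) / SS ζ) ∧
    exp (ζ i0) / SS ζ ∈ Set.Ico (1 / N : ℝ) 1 := by
  obtain ⟨i0, -, h⟩ := exists_max_image univ ζ ⟨⟨0, by omega⟩, mem_univ _⟩
  have hS := SS_pos hN ζ
  have hNp : (0 : ℝ) < N := by exact_mod_cast (by omega : 0 < N)
  refine ⟨i0, fun i => h i (mem_univ _), fun i => div_le_div_of_nonneg_right
    (Real.exp_le_exp.2 (h i (mem_univ _))) hS.le, ?_, ?_⟩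
  · rw [div_le_div_iff₀ hNp hS]
    have := sum_le_card_nsmul univ (fun i => exp (ζ i)) _ fun i hi => Real.exp_le_exp.2 (h i hi)
    simp only [card_univ, Fintype.card_fin, nsmul_eq_mul] at this
    unfold SS
    linarith
  · rw [div_lt_one hS]
    linarith [rest_pos hN ζ i0]

theorem Search.good (hN : 2 ≤ N) : ∀ᵐ ω ∂P, ∀ l k, ∃ i0,
    (∀ i, S.cE i (grid l k) ω ≤ S.cE i0 (grid l k) ω) ∧
    S.cE i0 (grid l k) ω ∈ Set.Ico (1 / N : ℝ) 1 ∧
    AA N (S.cE i0 (grid l k) ω) ≤ S.U (grid l k) ω := by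
  refine ae_all_iff.2 fun l => ae_all_iff.2 fun k => ?_
  obtain ⟨n, c, Q, _, h⟩ := S.exists_filt ⟨0, by omega⟩ k
  have hk := grid_le (le_mul_pow k l)
  filter_upwards [h.cE_eq hN hk, h.U_eq hN hk] with ω h1 h2
  obtain ⟨i0, a1, a2, a3⟩ := argmax hN (zv S k n c (grid l k) ω)
  simp only [h1, h2]
  refine ⟨i0, a2, a3, ?_⟩
  rw [le_div_iff₀ (SS_pos hN _), mul_comm]
  exact Gam_ge hN _ _ a1

theorem Search.good' (hN : 2 ≤ N) (hμ : 0 < μ) (hF : S.IsFTL) : ∀ᵐ ω ∂P, ∀ l k, ∃ i0,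
    S.cE i0 (grid l k) ω ∈ Set.Ico (1 / N : ℝ) 1 ∧
    S.U (grid l k) ω = AA N (S.cE i0 (grid l k) ω) := by
  refine ae_all_iff.2 fun l => ae_all_iff.2 fun k => ?_
  obtain ⟨n, c, Q, _, h⟩ := S.exists_filt ⟨0, by omega⟩ k
  have hk := grid_le (le_mul_pow k l)
  have h3 : ∀ᵐ ω ∂P, ∀ a b d : Fin N, a ≠ b → a ≠ d → b ≠ d →
      lam (exp (zv S k n c (grid l k) ω a)) (exp (zv S k n c (grid l k) ω b))
        (exp (zv S k n c (grid l k) ω d)) = 0 := by
    simp only [ae_all_iff]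
    exact fun a b d hab had hbd => h.I3 hN hμ hF (le_mul_pow k l) hab had hbd
  filter_upwards [h.cE_eq hN hk, h.U_eq hN hk, h3] with ω h1 h2 h3
  obtain ⟨i0, a1, -, a3⟩ := argmax hN (zv S k n c (grid l k) ω)
  simp only [h1, h2]
  refine ⟨i0, a3, ?_⟩
  rw [div_eq_iff (SS_pos hN _).ne', mul_comm]
  refine Gam_ray hN _ _ a1 fun b d hb hd => ?_
  by_cases hbd : b = d
  · rw [hbd]
  · exact Real.exp_injective (eq_of_lam (Real.exp_le_exp.2 (a1 b)) (Real.exp_le_exp.2 (a1 d))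
      (h3 i0 b d hb.symm hd.symm hbd))

theorem Search.at_zero (hN : 2 ≤ N) :
    ∀ᵐ ω ∂P, (∀ i, S.cE i 0 ω = 1 / N) ∧ S.U 0 ω = AA N (1 / N) := by
  obtain ⟨n, c, Q, _, h⟩ := S.exists_filt ⟨0, by omega⟩ 0
  have e : ∀ ω, zv S 0 n c 0 ω = 0 := fun ω => funext fun j => zl_zero _ _ _ _ _ _ _
  have e2 : SS (0 : Fin N → ℝ) = N := by simp [SS]
  filter_upwards [h.cE_eq hN zero_le, h.U_eq hN zero_le] with ω h1 h2
  simp only [e, e2, Pi.zero_apply, Real.exp_zero] at h1 h2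
  refine ⟨h1, ?_⟩
  have hNp : (0 : ℝ) < N := by exact_mod_cast (by omega : 0 < N)
  rw [h2, Gam_ray hN 0 ⟨0, by omega⟩ (fun _ => le_rfl) fun _ _ _ _ => rfl, e2]
  simp only [Pi.zero_apply, Real.exp_zero]
  field_simp

omit [IsProbabilityMeasure P] in
theorem Search.post_grid : ∀ᵐ ω ∂P, ∀ l k i, S.post i (grid l k) ω = S.cE i (grid l k) ω := by
  simp only [ae_all_iff]
  exact fun l k i => S.post_eq i _

/-- the level is reached at a grid point -/
def Search.hit (p : ℝ) (l k : ℕ) : Set Ω := {ω | ∃ i, p ≤ S.cE i (grid l k) ω}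

omit [IsProbabilityMeasure P] in
theorem Search.hit_meas (p : ℝ) (l k : ℕ) : MeasurableSet[Gd S.G l k] (S.hit p l k) := by
  rw [Search.hit, Set.ofPred_exists]
  exact MeasurableSet.iUnion fun i => S.mcE i _ measurableSet_Ici

theorem Search.stop_eq (hN : 2 ≤ N) (p : ℝ) (l M : ℕ) :
    Integrable (fun ω => S.U (grid l (st (S.hit p l) M ω)) ω) P ∧
    ∫ ω, S.U (grid l (st (S.hit p l) M ω)) ω ∂P = AA N (1 / N) + ∑ k ∈ range M,
      (∫ ω in {ω | k < st (S.hit p l) M ω}, S.U (grid l (k + 1)) ω ∂P -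
        ∫ ω in {ω | k < st (S.hit p l) M ω}, S.U (grid l k) ω ∂P) := by
  obtain ⟨h1, h2⟩ := stop_int (U := fun k => S.U (grid l k)) (S.intU hN l) (st_le (S.hit p l) M)
    fun k => (Gd S.G l).le k _ (st_meas (S.hit_meas p l) M k)
  refine ⟨h1, h2.trans ?_⟩
  rw [grid_zero, integral_congr_ae ((S.at_zero hN).mono fun ω h => h.2)]
  simp

theorem Search.time_eq (p : ℝ) (l M : ℕ) :
    Integrable (fun ω => (grid l (st (S.hit p l) M ω) : ℝ)) P ∧
    μ ^ 2 / 2 * ∫ ω, (grid l (st (S.hit p l) M ω) : ℝ) ∂P = ∑ k ∈ range M,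
      μ ^ 2 * ((grid l (k + 1) : ℝ) - grid l k) / 2 * P.real {ω | k < st (S.hit p l) M ω} := by
  obtain ⟨h1, h2⟩ := stop_time (P := P) (st_le (S.hit p l) M)
    (fun k => (Gd S.G l).le k _ (st_meas (S.hit_meas p l) M k)) l
  refine ⟨h1, ?_⟩
  rw [h2, mul_sum]
  exact sum_congr rfl fun k _ => by ring

theorem Search.stop_le (hN : 2 ≤ N) (p : ℝ) (l M : ℕ) :
    ∫ ω, S.U (grid l (st (S.hit p l) M ω)) ω ∂P ≤
      AA N (1 / N) + μ ^ 2 / 2 * ∫ ω, (grid l (st (S.hit p l) M ω) : ℝ) ∂P := by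
  rw [(S.stop_eq hN p l M).2, (S.time_eq p l M).2]
  refine add_le_add le_rfl (sum_le_sum fun k _ => ?_)
  linarith [S.I1 hN (Nat.le_succ k) (st_meas (S.hit_meas p l) M k)]

theorem Search.stop_ge (hN : 2 ≤ N) (hμ : 0 < μ) (hF : S.IsFTL) (p : ℝ) (l M : ℕ) :
    AA N (1 / N) + μ ^ 2 / 2 * ∫ ω, (grid l (st (S.hit p l) M ω) : ℝ) ∂P ≤
      ∫ ω, S.U (grid l (st (S.hit p l) M ω)) ω ∂P := by
  rw [(S.stop_eq hN p l M).2, (S.time_eq p l M).2]
  refine add_le_add le_rfl (sum_le_sum fun k _ => ?_)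
  linarith [S.I2 hN hμ hF (Nat.le_succ k) (st_meas (S.hit_meas p l) M k)]

end Pool.Agent.MP_96872c_an

end

section

open Finset Real MeasureTheory ProbabilityTheory Filter Topology
open scoped NNReal ENNReal

namespace Pool.Agent.MP_96872c_an

variable {N : ℕ} {μ : ℝ} {Ω : Type} [mΩ : MeasurableSpace Ω] {P : Measure Ω}
  [IsProbabilityMeasure P] (S : Search N μ P)

omit [IsProbabilityMeasure P] in
theorem Search.st_measurable (p : ℝ) (l M : ℕ) : Measurable (st (S.hit p l) M) :=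
  measurable_to_countable' fun k => (Gd S.G l).le k _ (st_eq_meas (S.hit_meas p l) M k)

theorem Search.lower1 (hN : 2 ≤ N) (hμ : 0 < μ) {p : ℝ} (hp : p ∈ Set.Ico (1 / N : ℝ) 1) {m : ℕ}
    (hm : 0 < m) (l : ℕ) : (AA N p - AA N (1 / N)) / (μ ^ 2 / 2 + (AA N p - AA N (1 / N)) / m) ≤
      ∫ ω, (grid l (st (S.hit p l) (m * 2 ^ l) ω) : ℝ) ∂P := by
  have h0 : (1 / N : ℝ) ∈ Set.Ico (1 / N : ℝ) 1 := ⟨le_rfl, hp.1.trans_lt hp.2⟩
  set Δ := AA N p - AA N (1 / N) with hΔ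
  have hΔ0 : 0 ≤ Δ := sub_nonneg.2 (AA_mono hN h0 hp hp.1)
  have hm' : (0 : ℝ) < m := by exact_mod_cast hm
  have i1 := (S.time_eq p l (m * 2 ^ l)).1
  have i2 : Integrable (fun ω => AA N (1 / N) + Δ -
      Δ / m * (grid l (st (S.hit p l) (m * 2 ^ l) ω) : ℝ)) P :=
    (integrable_const _).sub (i1.const_mul _)
  have h1 := (integral_mono_ae i2 (S.stop_eq hN p l (m * 2 ^ l)).1 ?_).trans
    (S.stop_le hN p l (m * 2 ^ l))
  · rw [integral_sub (integrable_const _) (i1.const_mul _), integral_const_mul] at h1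
    simp only [integral_const, probReal_univ, smul_eq_mul, one_mul] at h1
    rw [div_le_iff₀ (by positivity)]
    linarith
  · filter_upwards [S.good hN] with ω hω
    obtain ⟨i0, a1, a2, a3⟩ := hω l (st (S.hit p l) (m * 2 ^ l) ω)
    rcases st_spec (S.hit p l) (m * 2 ^ l) ω with h | ⟨i, hi⟩
    · have := (AA_mono hN h0 a2 a2.1).trans a3
      rw [h, grid_nat] at this ⊢
      rw [NNReal.coe_natCast, div_mul_cancel₀ _ hm'.ne']
      linarith
    · have h2 := AA_mono hN hp a2 (hi.trans (a1 i))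
      have : 0 ≤ Δ / m * (grid l (st (S.hit p l) (m * 2 ^ l) ω) : ℝ) := by positivity
      linarith

theorem Search.lower2 (hN : 2 ≤ N) (hμ : 0 < μ) {p ε : ℝ} (hp : p ∈ Set.Ico (1 / N : ℝ) 1)
    (hpε : p < 1 - ε) {m : ℕ} (hm : 0 < m) :
    ENNReal.ofReal ((AA N p - AA N (1 / N)) / (μ ^ 2 / 2 + (AA N p - AA N (1 / N)) / m)) ≤
      S.cost ε := by
  have h1 := limsup_lintegral_le (μ := P)
    (f := fun l ω => (grid l (st (S.hit p l) (m * 2 ^ l) ω) : ℝ≥0∞)) (fun _ => (m : ℝ≥0))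
    (fun l => (measurable_from_nat (f := fun k => (grid l k : ℝ≥0∞))).comp (S.st_measurable _ _ _))
    (fun l => Eventually.of_forall fun ω => ENNReal.coe_le_coe.2 (grid_le (st_le _ _ _))) (by simp)
  refine (le_limsup_of_frequently_le' (Frequently.of_forall fun l => ?_)).trans
    (h1.trans (lintegral_mono_ae ?_))
  · refine (ENNReal.ofReal_le_ofReal (S.lower1 hN hμ hp hm l)).trans (le_of_eq ?_)
    rw [ofReal_integral_eq_lintegral_ofReal (S.time_eq p l _).1
      (Eventually.of_forall fun _ => NNReal.coe_nonneg _)]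
    simp only [ENNReal.ofReal_coe_nnreal]
  · filter_upwards [S.post_grid, S.post_cont] with ω h2 h3
    refine le_iInf₂ fun t ⟨i, hi⟩ => limsup_le_of_le (by isBoundedDefault) ?_
    have h4 := ((h3 i).tendsto _).comp (tendsto_grid strictMono_id t.coe_nonneg)
    rw [Real.toNNReal_coe] at h4
    filter_upwards [h4.eventually (lt_mem_nhds (hpε.trans_le hi))] with l hl
    simp only [Function.comp, id, h2] at hl
    rw [ENNReal.coe_le_coe]
    refine (grid_mono l (st_le_of (H := S.hit p l) _ ⟨i, hl.le⟩)).trans ?_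
    rw [← NNReal.coe_le_coe, grid_coe, div_le_iff₀ (by positivity)]
    exact Nat.floor_le (by positivity)

theorem tendsto_AA (hN : 2 ≤ N) (μ : ℝ) {p : ℝ} (hp : 1 / N < p) (h1 : p < 1) (s : Set ℝ) :
    Tendsto (fun q => ENNReal.ofReal (2 / μ ^ 2 * (AA N q - AA N (1 / N)))) (𝓝[s] p)
      (𝓝 (ENNReal.ofReal (2 / μ ^ 2 * (AA N p - AA N (1 / N))))) :=
  ENNReal.tendsto_ofReal ((((AA_cont hN (lt_trans (by positivity) hp) h1).tendsto.mono_left
    nhdsWithin_le_nhds).sub_const _).const_mul _)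

theorem Search.lower (hN : 2 ≤ N) (hμ : 0 < μ) {ε : ℝ} (hε : 0 < ε) (h : 1 / N < 1 - ε) :
    ENNReal.ofReal (2 / μ ^ 2 * (AA N (1 - ε) - AA N (1 / N))) ≤ S.cost ε := by
  refine le_of_tendsto (tendsto_AA hN μ h (by linarith) (Set.Iio (1 - ε))) ?_
  filter_upwards [Ioo_mem_nhdsLT h] with p hp
  have h1 := ENNReal.tendsto_ofReal ((tendsto_const_nhds (x := AA N p - AA N (1 / N))).div
    ((tendsto_const_div_atTop_nhds_zero_nat (AA N p - AA N (1 / N))).const_add (μ ^ 2 / 2))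
    (by positivity))
  refine (le_of_eq ?_).trans (le_of_tendsto h1 ((eventually_gt_atTop 0).mono fun m hm =>
    S.lower2 hN hμ ⟨hp.1.le, by linarith [hp.2]⟩ hp.2 hm))
  congr 1
  field_simp
  ring

/-- overshoot event -/
def Search.over (p q : ℝ) (l M : ℕ) : Set Ω :=
  ⋃ k ∈ range (M + 1), {ω | st (S.hit p l) M ω = k} ∩ {ω | ∃ i, q < S.cE i (grid l k) ω}

omit [IsProbabilityMeasure P] in
theorem Search.over_meas (p q : ℝ) (l M k : ℕ) : MeasurableSet[S.G (grid l k)]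
    ({ω | st (S.hit p l) M ω = k} ∩ {ω | ∃ i, q < S.cE i (grid l k) ω}) := by
  refine (st_eq_meas (S.hit_meas p l) M k).inter ?_
  rw [Set.ofPred_exists]
  exact MeasurableSet.iUnion fun i => S.mcE i _ measurableSet_Ioi

theorem Search.upper1 (hN : 2 ≤ N) (hμ : 0 < μ) (hF : S.IsFTL) (p : ℝ) {q : ℝ}
    (hq : q ∈ Set.Ico (1 / N : ℝ) 1) (l M : ℕ) :
    μ ^ 2 / 2 * ∫ ω, (grid l (st (S.hit p l) M ω) : ℝ) ∂P ≤ AA N q - AA N (1 / N) +
      ∫ ω in S.over p q l M, |S.U (grid l M) ω - AA N q| ∂P := by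
  have hm : ∀ k, MeasurableSet ({ω | st (S.hit p l) M ω = k} ∩
      {ω | ∃ i, q < S.cE i (grid l k) ω}) := fun k => S.G.le _ _ (S.over_meas p q l M k)
  have hE : MeasurableSet (S.over p q l M) := Finset.measurableSet_biUnion _ fun k _ => hm k
  have hd : Set.Pairwise (↑(range (M + 1))) (Function.onFun Disjoint fun k =>
      {ω | st (S.hit p l) M ω = k} ∩ {ω | ∃ i, q < S.cE i (grid l k) ω}) :=
    fun k _ k' _ h => Set.disjoint_left.2 fun ω h1 h2 => h (h1.1.symm.trans h2.1)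
  have i1 : Integrable (fun ω => S.U (grid l (st (S.hit p l) M ω)) ω - AA N q) P :=
    (S.stop_eq hN p l M).1.sub (integrable_const _)
  have i2 : Integrable (fun ω => S.U (grid l M) ω - AA N q) P :=
    (S.intU hN l M).sub (integrable_const _)
  have h1 : ∫ ω in S.over p q l M, (S.U (grid l (st (S.hit p l) M ω)) ω - AA N q) ∂P ≤
      ∫ ω in S.over p q l M, (S.U (grid l M) ω - AA N q) ∂P := by
    unfold Search.over
    rw [integral_biUnion_finset _ (fun k _ => hm k) hd fun k _ => i1.integrableOn,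
      integral_biUnion_finset _ (fun k _ => hm k) hd fun k _ => i2.integrableOn]
    refine sum_le_sum fun k hk => ?_
    have hk' := Nat.lt_succ_iff.1 (mem_range.1 hk)
    rw [setIntegral_congr_fun (hm k) (g := fun ω => S.U (grid l k) ω - AA N q) fun ω hω => by
      simp only [show st (S.hit p l) M ω = k from hω.1],
      integral_sub (S.intU hN l k).integrableOn (integrable_const _),
      integral_sub (S.intU hN l M).integrableOn (integrable_const _)]
    have h2 := S.I2 hN hμ hF hk' (S.over_meas p q l M k)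
    have h3 : (0 : ℝ) ≤ (grid l M : ℝ) - grid l k :=
      sub_nonneg.2 (NNReal.coe_le_coe.2 (grid_mono l hk'))
    have h4 : 0 ≤ μ ^ 2 * ((grid l M : ℝ) - grid l k) / 2 * P.real ({ω | st (S.hit p l) M ω = k} ∩
      {ω | ∃ i, q < S.cE i (grid l k) ω}) := by positivity
    linarith
  have h2 : ∫ ω in (S.over p q l M)ᶜ, (S.U (grid l (st (S.hit p l) M ω)) ω - AA N q) ∂P ≤ 0 := by
    refine setIntegral_nonpos_ae hE.compl ?_
    filter_upwards [S.good' hN hμ hF] with ω hω h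
    obtain ⟨i, a1, a2⟩ := hω l (st (S.hit p l) M ω)
    rw [a2, sub_nonpos]
    refine AA_mono hN a1 hq (not_lt.1 fun h' => h ?_)
    exact Set.mem_biUnion (mem_coe.2 (mem_range.2 (Nat.lt_succ_of_le (st_le _ M ω)))) ⟨rfl, i, h'⟩
  have h3 := integral_add_compl hE i1
  rw [integral_sub (S.stop_eq hN p l M).1 (integrable_const _)] at h3
  simp only [integral_const, probReal_univ, smul_eq_mul, one_mul] at h3
  have h4 : ∫ ω in S.over p q l M, (S.U (grid l M) ω - AA N q) ∂P ≤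
      ∫ ω in S.over p q l M, |S.U (grid l M) ω - AA N q| ∂P :=
    integral_mono i2.integrableOn i2.abs.integrableOn fun _ => le_abs_self _
  linarith [S.stop_ge hN hμ hF p l M]

theorem Search.over_lim (hN : 2 ≤ N) {p q : ℝ} (hp : 1 / N < p) (hpq : p < q) (m : ℕ) :
    ∀ᵐ ω ∂P, ∀ᶠ l in atTop, ω ∉ S.over p q l (m * 2 ^ l) := by
  filter_upwards [S.post_grid, S.post_cont, S.at_zero hN] with ω h1 h2 h3
  have h4 : ∀ i, ∀ᶠ l : ℕ in atTop, ∀ k, k + 1 ≤ m * 2 ^ l →
      S.post i (grid l (k + 1)) ω - S.post i (grid l k) ω < q - p := by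
    intro i
    obtain ⟨δ, hδ, h5⟩ := Metric.uniformContinuousOn_iff.1
      ((isCompact_Icc (a := (0 : ℝ≥0)) (b := m)).uniformContinuousOn_of_continuous
        (h2 i).continuousOn) (q - p) (sub_pos.2 hpq)
    filter_upwards [((tendsto_pow_atTop_atTop_of_one_lt one_lt_two).const_div_atTop
      (1 : ℝ)).eventually (gt_mem_nhds hδ)] with l hl k hk
    refine (le_abs_self _).trans_lt (h5 _ ⟨zero_le, grid_le hk⟩ _
      ⟨zero_le, grid_le (by omega)⟩ ?_)
    rwa [NNReal.dist_eq, grid_succ, abs_of_pos (by positivity)]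
  filter_upwards [eventually_all.2 h4] with l hl h
  simp only [Search.over, Set.mem_iUnion, mem_range] at h
  obtain ⟨k, hk, h5, i, hi⟩ := h
  rcases k with _ | k
  · rw [grid_zero, h3.1] at hi
    linarith
  · have h6 := hl i k (by omega)
    rw [h1, h1] at h6
    have h7 : st (S.hit p l) (m * 2 ^ l) ω = k + 1 := h5
    have h8 := fun h : p ≤ S.cE i (grid l k) ω => st_le_of (H := S.hit p l) (m * 2 ^ l) ⟨i, h⟩
    have h9 : ¬p ≤ S.cE i (grid l k) ω := fun h => by have := h8 h; omega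
    exact h9 (by linarith)

/-- first dyadic time at which the level is reached -/
noncomputable def Search.TT (p : ℝ) (ω : Ω) : ℝ≥0∞ :=
  ⨅ (l : ℕ) (k : ℕ) (_ : ω ∈ S.hit p l k), (grid l k : ℝ≥0∞)

omit [IsProbabilityMeasure P] in
theorem Search.TT_meas (p : ℝ) : Measurable (S.TT p) :=
  Measurable.iInf fun l => Measurable.iInf fun k => by
    classical
    simp only [iInf_eq_if]
    exact Measurable.ite ((Gd S.G l).le k _ (S.hit_meas p l k)) measurable_const measurable_const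

theorem Search.upper2 (hN : 2 ≤ N) (hμ : 0 < μ) (hF : S.IsFTL) {p q : ℝ} (hp : 1 / N < p)
    (hpq : p < q) (hq : q < 1) (m : ℕ) :
    ∫⁻ ω, min (S.TT p ω) m ∂P ≤ ENNReal.ofReal (2 / μ ^ 2 * (AA N q - AA N (1 / N))) := by
  have i2 : Integrable (fun ω => |S.U m ω - AA N q|) P := by
    have := S.intU hN 0 (m * 2 ^ 0)
    rw [grid_nat] at this
    exact (this.sub (integrable_const _)).abs
  have hE : ∀ l, MeasurableSet (S.over p q l (m * 2 ^ l)) := fun l =>
    Finset.measurableSet_biUnion _ fun k _ => S.G.le _ _ (S.over_meas p q l _ k)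
  have h1 := tendsto_integral_of_dominated_convergence (μ := P)
    (F := fun l => (S.over p q l (m * 2 ^ l)).indicator fun ω => |S.U m ω - AA N q|)
    (f := fun _ => 0) _ (fun l => (i2.indicator (hE l)).1) i2
    (fun l => Eventually.of_forall fun ω => (norm_indicator_le_norm_self _ _).trans (by simp))
    ((S.over_lim hN hp hpq m).mono fun ω hω => tendsto_const_nhds.congr'
      (hω.mono fun l hl => (Set.indicator_of_notMem hl _).symm))
  simp only [integral_indicator (hE _), integral_zero] at h1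
  have h2 := ENNReal.tendsto_ofReal ((h1.const_add (AA N q - AA N (1 / N))).const_mul (2 / μ ^ 2))
  rw [add_zero] at h2
  refine ge_of_tendsto' h2 fun l => ?_
  have h3 := S.upper1 hN hμ hF p ⟨(hp.trans hpq).le, hq⟩ l (m * 2 ^ l)
  rw [grid_nat] at h3
  calc _ ≤ ∫⁻ ω, ENNReal.ofReal (grid l (st (S.hit p l) (m * 2 ^ l) ω)) ∂P := by
        refine lintegral_mono fun ω => ?_
        rw [ENNReal.ofReal_coe_nnreal]
        rcases st_spec (S.hit p l) (m * 2 ^ l) ω with h | h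
        · rw [h, grid_nat]; exact min_le_right _ _
        · exact (min_le_left _ _).trans (iInf_le_of_le l (iInf_le_of_le _ (iInf_le _ h)))
    _ ≤ _ := by
        rw [← ofReal_integral_eq_lintegral_ofReal (S.time_eq p l _).1
          (Eventually.of_forall fun _ => NNReal.coe_nonneg _)]
        refine ENNReal.ofReal_le_ofReal ?_
        have := mul_le_mul_of_nonneg_left h3 (by positivity : 0 ≤ 2 / μ ^ 2)
        refine (le_of_eq ?_).trans this
        field_simp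

theorem Search.upper (hN : 2 ≤ N) (hμ : 0 < μ) (hF : S.IsFTL) {ε : ℝ} (hε : 0 < ε)
    (h : 1 / N < 1 - ε) :
    S.cost ε ≤ ENNReal.ofReal (2 / μ ^ 2 * (AA N (1 - ε) - AA N (1 / N))) := by
  have h0 : S.cost ε ≤ ∫⁻ ω, ⨆ m : ℕ, min (S.TT (1 - ε) ω) m ∂P := by
    refine lintegral_mono_ae ?_
    filter_upwards [S.post_grid] with ω hω
    simp only [← inf_iSup_eq, ENNReal.iSup_natCast, le_top, inf_of_le_left]
    exact le_iInf fun l => le_iInf₂ fun k ⟨i, hi⟩ => iInf₂_le _ ⟨i, by rwa [hω]⟩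
  rw [lintegral_iSup (fun m => (S.TT_meas _).min measurable_const)
    fun m m' h ω => min_le_min le_rfl (by exact_mod_cast h)] at h0
  refine ge_of_tendsto (tendsto_AA hN μ h (by linarith) (Set.Ioi (1 - ε))) ?_
  filter_upwards [Ioo_mem_nhdsGT (by linarith : 1 - ε < 1)] with q hq
  exact h0.trans (iSup_le fun m => S.upper2 hN hμ hF h hq.1 hq.2 m)

theorem Search.main (hN : 2 ≤ N) (hμ : 0 < μ) {ε : ℝ} (hε : 0 < ε) :
    ENNReal.ofReal (value N μ ε) ≤ S.cost ε ∧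
      (S.IsFTL → S.cost ε = ENNReal.ofReal (value N μ ε)) := by
  unfold value
  split_ifs with h
  · refine ⟨by simp, fun _ => ?_⟩
    rw [ENNReal.ofReal_zero, ← nonpos_iff_eq_zero, ← lintegral_zero (μ := P)]
    refine lintegral_mono_ae ?_
    filter_upwards [S.post_grid, S.at_zero hN] with ω h1 h2
    have h3 := h1 0 0 ⟨0, by omega⟩
    rw [grid_zero, h2.1] at h3
    exact iInf₂_le (0 : ℝ≥0) ⟨_, by rwa [h3]⟩
  · have h2 : (2 : ℝ) ≤ N := by exact_mod_cast hN
    have hn : (N : ℝ) - 1 ≠ 0 := by linarith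
    have e : ((N : ℝ) - 2) / (N - 1) * (N * (1 - ε) - 1) +
        (2 * (1 - ε) - 1) * Real.log ((N - 1) * (1 - ε) / ε) = AA N (1 - ε) - AA N (1 / N) := by
      rw [AA_inv hN, AA, sub_sub_cancel]
      field_simp
      ring
    rw [e]
    have h1 := S.lower hN hμ hε (not_le.1 h)
    exact ⟨h1, fun hF => le_antisymm (S.upper hN hμ hF hε (not_le.1 h)) h1⟩

end Pool.Agent.MP_96872c_an

end
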