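import Mathlib

section

open Finset Real

namespace Pool.Agent.MP_96872c_an

theorem E1 {d : ℝ} (hd : 0 ≤ d) : 2 * d ≤ exp d - exp (-d) := by
  have h := Real.self_le_sinh_iff.2 hd
  rw [Real.sinh_eq] at h
  linarith

theorem E2 {d : ℝ} (hd : 0 ≤ d) : 0 ≤ (d - 2) * exp d + d + 2 := by
  have hder : ∀ x : ℝ, HasDerivAt (fun d => (d - 2) * exp d + d + 2) ((x - 1) * exp x + 1) x := by
    intro x
    have h1 := (((hasDerivAt_id x).sub_const 2).mul (Real.hasDerivAt_exp x)).add (hasDerivAt_id x)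
    have h2 := h1.add_const 2
    refine h2.congr_deriv ?_
    simp only [id]; ring
  have hm : Monotone fun d : ℝ => (d - 2) * exp d + d + 2 := by
    refine monotone_of_deriv_nonneg (fun x => (hder x).differentiableAt) fun x => ?_
    rw [(hder x).deriv]
    have h1 := Real.add_one_le_exp (-x)
    have h2 : exp x * exp (-x) = 1 := by rw [← Real.exp_add]; simp
    have h3 := Real.exp_pos x
    nlinarith
  have := hm hd
  simpa using this

/-- `q t = e^t - 1 - t` -/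
noncomputable def qq (t : ℝ) : ℝ := exp t - 1 - t

theorem qq_nonneg (t : ℝ) : 0 ≤ qq t := by
  have := Real.add_one_le_exp t
  unfold qq; linarith

theorem qq_neg_le {d : ℝ} (hd : 0 ≤ d) : qq (-d) ≤ qq d := by
  have := E1 hd
  unfold qq; linarith

theorem qq_le_mul {d : ℝ} (hd : 0 ≤ d) : qq d ≤ exp d * qq (-d) := by
  have h := E2 hd
  have h2 : exp d * exp (-d) = 1 := by rw [← Real.exp_add]; simp
  unfold qq; nlinarith

theorem qq_mono {a b : ℝ} (ha : 0 ≤ a) (hab : a ≤ b) : qq a ≤ qq b := by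
  have h1 := Real.add_one_le_exp (b - a)
  have h2 : exp b = exp a * exp (b - a) := by rw [← Real.exp_add]; simp
  have h3 : 1 ≤ exp a := Real.one_le_exp ha
  unfold qq; nlinarith

theorem qq_neg_mono {a b : ℝ} (ha : 0 ≤ a) (hab : a ≤ b) : qq (-a) ≤ qq (-b) := by
  have h1 := Real.add_one_le_exp (-(b - a))
  have h2 : exp (-b) = exp (-a) * exp (-(b - a)) := by rw [← Real.exp_add]; congr 1; ring
  have h3 : exp (-a) ≤ 1 := Real.exp_le_one_iff.2 (by linarith)
  have h4 := Real.exp_pos (-a)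
  unfold qq; nlinarith

/-- `r t = e^t + e^{-t} - 2` -/
noncomputable def rr (t : ℝ) : ℝ := exp t + exp (-t) - 2

theorem qq_le_rr (t : ℝ) : qq t ≤ rr t := by
  have := Real.add_one_le_exp (-t)
  unfold qq rr; linarith

theorem rr_nonneg (t : ℝ) : 0 ≤ rr t := (qq_nonneg t).trans (qq_le_rr t)

/-- ordered pair term -/
noncomputable def xi (a b : ℝ) : ℝ := exp a * min a b - exp (min a b)

/-- symmetric pair term -/
noncomputable def x2 (a b : ℝ) : ℝ := xi a b + xi b a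

theorem x2_comm (a b : ℝ) : x2 a b = x2 b a := add_comm _ _

/-- slope of the tangent -/
noncomputable def xD (a y : ℝ) : ℝ := min a y + exp (a - min a y) - 1

/-- gap between tangent and function -/
noncomputable def gap (a y x : ℝ) : ℝ := x2 a y + xD a y * (exp y * (exp x - 1)) - x2 a (y + x)

theorem gap_ll {a y x : ℝ} (h1 : y ≤ a) (h2 : y + x ≤ a) :
    gap a y x = exp a * qq x - exp y * (exp x * qq (-x)) := by
  have e1 : exp (a - y) * exp y = exp a := by rw [← Real.exp_add]; simp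
  have e2 : exp x * exp (-x) = 1 := by rw [← Real.exp_add]; simp
  simp only [gap, x2, xi, xD, qq, min_eq_right h1, min_eq_left h1, min_eq_right h2, min_eq_left h2,
    Real.exp_add]
  linear_combination (exp x - 1) * e1 + exp y * e2

theorem gap_lr {a y x : ℝ} (h1 : y ≤ a) (h2 : a ≤ y + x) :
    gap a y x = exp y * (exp x * qq (a - y) - exp (a - y) * qq (-(a - y))) := by
  have e1 : exp (a - y) * exp y = exp a := by rw [← Real.exp_add]; simp
  have e2 : exp (a - y) * exp (-(a - y)) = 1 := by rw [← Real.exp_add]; simp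
  simp only [gap, x2, xi, xD, qq, min_eq_right h1, min_eq_left h1, min_eq_right h2, min_eq_left h2,
    Real.exp_add]
  linear_combination (a - y - 2) * e1 + exp y * e2

theorem gap_rl {a y x : ℝ} (h1 : a ≤ y) (h2 : y + x ≤ a) :
    gap a y x = exp (y + x) * (exp (a - (y + x)) * qq (-(a - (y + x))) - qq (a - (y + x))) := by
  have e1 : exp (a - (y + x)) * exp (y + x) = exp a := by rw [← Real.exp_add]; simp
  have e2 : exp (a - (y + x)) * exp (-(a - (y + x))) = 1 := by rw [← Real.exp_add]; simp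
  have e3 : exp (y + x) = exp y * exp x := Real.exp_add _ _
  simp only [gap, x2, xi, xD, qq, min_eq_right h1, min_eq_left h1, min_eq_right h2, min_eq_left h2,
    sub_self, Real.exp_zero]
  linear_combination (-(a - (y + x)) + 2) * e1 - exp (y + x) * e2 - a * e3

theorem gap_rr {a y x : ℝ} (h1 : a ≤ y) (h2 : a ≤ y + x) : gap a y x = 0 := by
  simp only [gap, x2, xi, xD, min_eq_right h1, min_eq_left h1, min_eq_right h2, min_eq_left h2,
    sub_self, Real.exp_zero, Real.exp_add]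
  ring

theorem gap_nonneg (a y x : ℝ) : 0 ≤ gap a y x := by
  rcases le_total y a with h1 | h1 <;> rcases le_total (y + x) a with h2 | h2
  · rw [gap_ll h1 h2]
    rcases le_total 0 x with hx | hx
    · have h3 : exp y * exp x ≤ exp a := by rw [← Real.exp_add]; exact Real.exp_le_exp.2 h2
      have h4 := qq_neg_le hx
      have h5 := qq_nonneg (-x)
      have h6 := exp_pos a
      nlinarith
    · have h3 : exp y ≤ exp a := Real.exp_le_exp.2 h1
      have h4 := qq_le_mul (d := -x) (by linarith)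
      rw [neg_neg] at h4
      have e2 : exp x * exp (-x) = 1 := by rw [← Real.exp_add]; simp
      have h5 : exp x * qq (-x) ≤ qq x := by
        have := mul_le_mul_of_nonneg_left h4 (exp_pos x).le
        rwa [← mul_assoc, e2, one_mul] at this
      have h6 := qq_nonneg x
      have h7 := exp_pos y
      nlinarith
  · rw [gap_lr h1 h2]
    refine mul_nonneg (exp_pos _).le ?_
    have h3 : exp (a - y) ≤ exp x := Real.exp_le_exp.2 (by linarith)
    have h4 := qq_neg_le (d := a - y) (by linarith)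
    have h5 := qq_nonneg (-(a - y))
    have h6 := exp_pos (a - y)
    nlinarith
  · rw [gap_rl h1 h2]
    refine mul_nonneg (exp_pos _).le ?_
    have := qq_le_mul (d := a - (y + x)) (by linarith)
    linarith
  · rw [gap_rr h1 h2]

theorem gap_le_q (a y x : ℝ) :
    gap a y x ≤ (max (exp a - exp y) 0 + exp y * |exp x - 1|) * qq x := by
  have hy := exp_pos y
  have hq := qq_nonneg x
  have hm : exp a - exp y ≤ max (exp a - exp y) 0 := le_max_left _ _
  have hm0 : 0 ≤ max (exp a - exp y) 0 := le_max_right _ _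
  have e2 : exp x * exp (-x) = 1 := by rw [← Real.exp_add]; simp
  rcases le_total y a with h1 | h1 <;> rcases le_total (y + x) a with h2 | h2
  · rw [gap_ll h1 h2]
    have key : qq x - exp x * qq (-x) ≤ |exp x - 1| * qq x := by
      rcases le_total 0 x with hx | hx
      · have := qq_le_mul hx
        have : 0 ≤ |exp x - 1| * qq x := by positivity
        linarith
      · have h3 : exp x ≤ 1 := Real.exp_le_one_iff.2 hx
        rw [abs_of_nonpos (by linarith)]
        have h4 := qq_neg_le (d := -x) (by linarith)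
        rw [neg_neg] at h4
        have h5 := exp_pos x
        nlinarith
    nlinarith
  · rw [gap_lr h1 h2]
    have hx : 0 ≤ x := by linarith
    have h3 : 1 ≤ exp x := Real.one_le_exp hx
    rw [abs_of_nonneg (by linarith)]
    have h4 := qq_le_mul (d := a - y) (by linarith)
    have h5 := qq_mono (a := a - y) (b := x) (by linarith) (by linarith)
    have h6 : exp x * qq (a - y) - exp (a - y) * qq (-(a - y)) ≤ (exp x - 1) * qq x := by
      nlinarith
    nlinarith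
  · rw [gap_rl h1 h2]
    have hx : x ≤ 0 := by linarith
    have h3 : exp x ≤ 1 := Real.exp_le_one_iff.2 hx
    rw [abs_of_nonpos (by linarith)]
    set d := a - (y + x) with hd
    have hd0 : 0 ≤ d := by linarith
    have h4 := qq_neg_le hd0
    have h5 := qq_neg_mono (a := d) (b := -x) hd0 (by linarith)
    rw [neg_neg] at h5
    have h6 : exp d ≤ exp (-x) := Real.exp_le_exp.2 (by linarith)
    have h7 : 1 ≤ exp d := Real.one_le_exp hd0
    have h8 := qq_nonneg (-d)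
    have h9 : exp d * qq (-d) - qq d ≤ (exp (-x) - 1) * qq x := by nlinarith
    have h10 : exp (y + x) * ((exp (-x) - 1) * qq x) = exp y * -(exp x - 1) * qq x := by
      rw [Real.exp_add]
      linear_combination exp y * qq x * e2
    have h11 := mul_le_mul_of_nonneg_left h9 (exp_pos (y + x)).le
    nlinarith
  · rw [gap_rr h1 h2]
    positivity

theorem gap_le (a y x : ℝ) {η : ℝ} (hη : 0 < η) :
    gap a y x ≤ max (exp a - exp y) 0 * rr x +
      exp y * (η * rr x + (exp x - 1) ^ 2 * rr x / η) := by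
  have h1 := gap_le_q a y x
  have hy := exp_pos y
  have hm0 : 0 ≤ max (exp a - exp y) 0 := le_max_right _ _
  have h2 : (max (exp a - exp y) 0 + exp y * |exp x - 1|) * qq x ≤
      (max (exp a - exp y) 0 + exp y * |exp x - 1|) * rr x :=
    mul_le_mul_of_nonneg_left (qq_le_rr x) (by positivity)
  have h3 : |exp x - 1| ≤ η + (exp x - 1) ^ 2 / η := by
    rw [← sq_abs (exp x - 1)]
    have h4 := abs_nonneg (exp x - 1)
    set u := |exp x - 1|
    have : u ≤ η ∨ η ≤ u := le_total _ _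
    rcases this with h | h
    · have : 0 ≤ u ^ 2 / η := by positivity
      linarith
    · have : u ≤ u ^ 2 / η := by rw [le_div_iff₀ hη]; nlinarith
      linarith
  have h4 := mul_le_mul_of_nonneg_left h3 (mul_nonneg hy.le (rr_nonneg x))
  have e : exp y * rr x * (η + (exp x - 1) ^ 2 / η) =
      exp y * (η * rr x + (exp x - 1) ^ 2 * rr x / η) := by ring
  nlinarith

/-- ray test function -/
noncomputable def lam (x y w : ℝ) : ℝ :=
  |x - y| ^ 3 + |y - w| ^ 3 + |x - w| ^ 3 + (x + y - 2 * w) * (x + w - 2 * y) * (y + w - 2 * x)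

theorem lam_12 (x y w : ℝ) : lam x y w = lam y x w := by
  unfold lam
  rw [abs_sub_comm x y]; ring

theorem lam_23 (x y w : ℝ) : lam x y w = lam x w y := by
  unfold lam
  rw [abs_sub_comm y w]; ring

theorem lam_sorted {x y w : ℝ} (h1 : y ≤ x) (h2 : w ≤ y) :
    lam x y w = (y - w) ^ 2 * (4 * (y - w) + 6 * (x - y)) := by
  unfold lam
  rw [abs_of_nonneg (by linarith : 0 ≤ x - y), abs_of_nonneg (by linarith : 0 ≤ y - w),
    abs_of_nonneg (by linarith : 0 ≤ x - w)]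
  ring

theorem lam_nonneg_max {x y w : ℝ} (h1 : y ≤ x) (h2 : w ≤ x) : 0 ≤ lam x y w := by
  rcases le_total w y with h | h
  · rw [lam_sorted h1 h]
    exact mul_nonneg (sq_nonneg _) (by linarith)
  · rw [lam_23, lam_sorted h2 h]
    exact mul_nonneg (sq_nonneg _) (by linarith)

theorem lam_nonneg (x y w : ℝ) : 0 ≤ lam x y w := by
  rcases le_total y x with h1 | h1
  · rcases le_total w x with h2 | h2
    · exact lam_nonneg_max h1 h2
    · rw [lam_23, lam_12]; exact lam_nonneg_max h2 (h1.trans h2)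
  · rcases le_total w y with h2 | h2
    · rw [lam_12]; exact lam_nonneg_max h1 h2
    · rw [lam_23, lam_12]; exact lam_nonneg_max (h1.trans h2) h2

theorem eq_of_lam {x y w : ℝ} (h1 : y ≤ x) (h2 : w ≤ x) (h : lam x y w = 0) : y = w := by
  have key : ∀ {y w : ℝ}, y ≤ x → w ≤ y → lam x y w = 0 → y = w := by
    intro y w h1 h2 h
    rw [lam_sorted h1 h2] at h
    by_contra hne
    have h3 : 0 < y - w := sub_pos.2 (lt_of_le_of_ne h2 (Ne.symm hne))
    have : 0 < (y - w) ^ 2 * (4 * (y - w) + 6 * (x - y)) := mul_pos (by positivity) (by linarith)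
    linarith
  rcases le_total w y with h3 | h3
  · exact key h1 h3 h
  · rw [lam_23] at h
    exact (key h2 h3 h).symm

theorem abs_cube (u : ℝ) : |u| ^ 3 = u ^ 3 + 2 * max (-u) 0 ^ 3 := by
  rcases le_total 0 u with h | h
  · rw [abs_of_nonneg h, max_eq_right (by linarith)]; ring
  · rw [abs_of_nonpos h, max_eq_left (by linarith)]; ring

theorem pos_cube_taylor (u d : ℝ) :
    max (u + d) 0 ^ 3 ≤ max u 0 ^ 3 + 3 * max u 0 ^ 2 * d + 3 * d ^ 2 * (max u 0 + |d|) := by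
  have hd := le_abs_self d
  have hd' := neg_abs_le d
  have hd0 := abs_nonneg d
  rcases le_total 0 u with h | h <;> rcases le_total 0 (u + d) with h' | h'
  · rw [max_eq_left h, max_eq_left h']
    nlinarith [mul_nonneg (sq_nonneg d) hd0, mul_le_mul_of_nonneg_left hd (sq_nonneg d)]
  · rw [max_eq_left h, max_eq_right h']
    have hdn : d ≤ 0 := by linarith
    rw [abs_of_nonpos hdn]
    nlinarith [mul_nonneg h (sq_nonneg (u + d)), mul_nonneg (mul_nonneg h h) h,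
      mul_nonneg (neg_nonneg.2 hdn) (sq_nonneg (u + d)), mul_nonneg (neg_nonneg.2 hdn) (sq_nonneg d),
      mul_nonneg h (sq_nonneg d), mul_nonneg (mul_nonneg h (neg_nonneg.2 hdn)) (neg_nonneg.2 h')]
  · rw [max_eq_right h, max_eq_left h']
    have hdn : 0 ≤ d := by linarith
    rw [abs_of_nonneg hdn]
    have h3 : (u + d) ^ 3 ≤ d ^ 3 := pow_le_pow_left₀ h' (by linarith) 3
    nlinarith [pow_nonneg hdn 3]
  · rw [max_eq_right h, max_eq_right h']
    have : 0 ≤ d ^ 2 * |d| := by positivity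
    nlinarith

/-- slope of `lam` in the first variable -/
noncomputable def lamD (y a b : ℝ) : ℝ :=
  6 * (a - b) ^ 2 - 6 * max (a - y) 0 ^ 2 - 6 * max (b - y) 0 ^ 2

theorem lam_taylor (y a b d : ℝ) :
    lam (y + d) a b ≤ lam y a b + lamD y a b * d +
      6 * d ^ 2 * (max (a - y) 0 + max (b - y) 0 + 2 * |d|) := by
  have h1 := pos_cube_taylor (a - y) (-d)
  have h2 := pos_cube_taylor (b - y) (-d)
  rw [abs_neg] at h1 h2
  unfold lam lamD
  rw [abs_cube (y + d - a), abs_cube (y + d - b), abs_cube (y - a), abs_cube (y - b)]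
  have e1 : -(y + d - a) = a - y + -d := by ring
  have e2 : -(y + d - b) = b - y + -d := by ring
  have e3 : -(y - a) = a - y := by ring
  have e4 : -(y - b) = b - y := by ring
  rw [e1, e2, e3, e4]
  nlinarith

end Pool.Agent.MP_96872c_an

end

section

open Finset Real

namespace Pool.Agent.MP_96872c_an

variable {N : ℕ}

noncomputable def SS (ζ : Fin N → ℝ) : ℝ := ∑ i, exp (ζ i)

noncomputable def Phi (ζ : Fin N → ℝ) : ℝ := 2 * ∑ i, exp (ζ i) * ζ i - SS ζ * ∑ i, ζ i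

noncomputable def Xi (ζ : Fin N → ℝ) : ℝ := ∑ i, ∑ l, if i = l then 0 else xi (ζ i) (ζ l)

noncomputable def Gam (ζ : Fin N → ℝ) : ℝ := Phi ζ + ((N : ℝ) - 2) / (N - 1) * Xi ζ

noncomputable def AA (N : ℕ) (p : ℝ) : ℝ :=
  (2 * p - 1) * log ((N - 1) * p / (1 - p)) - (N - 2) * N * (1 - p) / (N - 1)

theorem SS_pos (hN : 2 ≤ N) (ζ : Fin N → ℝ) : 0 < SS ζ :=
  sum_pos (fun _ _ => exp_pos _) ⟨⟨0, by omega⟩, mem_univ _⟩

theorem exp_le_SS (ζ : Fin N → ℝ) (i : Fin N) : exp (ζ i) ≤ SS ζ :=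
  single_le_sum (f := fun i => exp (ζ i)) (fun _ _ => (exp_pos _).le) (mem_univ i)

theorem Xi_eq_half (ζ : Fin N → ℝ) :
    Xi ζ = 1 / 2 * ∑ i, ∑ l, if i = l then 0 else x2 (ζ i) (ζ l) := by
  have h1 : ∑ i, ∑ l, (if i = l then 0 else xi (ζ l) (ζ i)) = Xi ζ := by
    rw [sum_comm]
    exact sum_congr rfl fun i _ => sum_congr rfl fun l _ => by simp [eq_comm]
  have h2 : ∑ i, ∑ l, (if i = l then 0 else x2 (ζ i) (ζ l)) =
      Xi ζ + ∑ i, ∑ l, (if i = l then 0 else xi (ζ l) (ζ i)) := by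
    simp only [Xi, ← sum_add_distrib]
    exact sum_congr rfl fun i _ => sum_congr rfl fun l _ => by split_ifs <;> simp [x2]
  rw [h2, h1]; ring

theorem xi_ge (a b : ℝ) : exp a * b - exp b ≤ xi a b := by
  unfold xi
  rcases le_total a b with h | h
  · rw [min_eq_left h]
    have h1 := Real.add_one_le_exp (b - a)
    have h2 : exp b = exp a * exp (b - a) := by rw [← Real.exp_add]; simp
    have h3 := exp_pos a
    nlinarith
  · rw [min_eq_right h]

theorem sum_erase_eq (f : Fin N → ℝ) (i : Fin N) : ∑ l ∈ univ.erase i, f l = ∑ l, f l - f i := by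
  rw [← add_sum_erase _ _ (mem_univ i)]; ring

theorem sum_ite_ne (f : Fin N → ℝ) (l : Fin N) :
    ∑ i, (if i = l then 0 else f i) = ∑ i, f i - f l := by
  have : ∀ i, (if i = l then 0 else f i) = f i - if i = l then f i else 0 := fun i => by
    split_ifs <;> simp
  simp only [this, sum_sub_distrib, sum_ite_eq', mem_univ, if_true]

/-- comparison function for `Xi` -/
noncomputable def XiL (ζ : Fin N → ℝ) (i0 : Fin N) : ℝ :=
  ∑ i, ∑ l, if i = l then 0 else
    if l = i0 then exp (ζ i) * ζ i - exp (ζ i) else exp (ζ i) * ζ l - exp (ζ l)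

theorem XiL_eq (ζ : Fin N → ℝ) (i0 : Fin N) :
    XiL ζ i0 = SS ζ * (∑ l, ζ l - ζ i0) - N * (SS ζ - exp (ζ i0)) := by
  unfold XiL
  rw [sum_comm]
  have h : ∀ l, ∑ i, (if i = l then 0 else
      if l = i0 then exp (ζ i) * ζ i - exp (ζ i) else exp (ζ i) * ζ l - exp (ζ l)) =
      (SS ζ * ζ l - exp (ζ l) * ζ l - (N - 1) * exp (ζ l)) +
      if l = i0 then (∑ i, exp (ζ i) * ζ i - SS ζ - exp (ζ i0) * ζ i0 + exp (ζ i0)) -
        (SS ζ * ζ i0 - exp (ζ i0) * ζ i0 - (N - 1) * exp (ζ i0)) else 0 := by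
    intro l
    by_cases hl : l = i0
    · subst hl
      simp only [if_true]
      rw [sum_ite_ne (fun i => exp (ζ i) * ζ i - exp (ζ i)), sum_sub_distrib]
      unfold SS; ring
    · simp only [hl, if_false]
      rw [sum_ite_ne (fun i => exp (ζ i) * ζ l - exp (ζ l)), sum_sub_distrib, ← sum_mul]
      simp only [sum_const, card_univ, Fintype.card_fin, nsmul_eq_mul]
      unfold SS; ring
  simp only [h, sum_add_distrib, sum_ite_eq', mem_univ, if_true, sum_sub_distrib, ← mul_sum]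
  unfold SS; ring

theorem XiL_le (ζ : Fin N → ℝ) (i0 : Fin N) (h : ∀ l, ζ l ≤ ζ i0) : XiL ζ i0 ≤ Xi ζ := by
  refine sum_le_sum fun i _ => sum_le_sum fun l _ => ?_
  split_ifs with h1 h2
  · exact le_rfl
  · subst h2
    simp [xi, min_eq_left (h i)]
  · exact xi_ge _ _

theorem Xi_ray (ζ : Fin N → ℝ) (i0 : Fin N) (h : ∀ l, ζ l ≤ ζ i0) (m : ℝ)
    (hm : ∀ l, l ≠ i0 → ζ l = m) : Xi ζ = XiL ζ i0 := by
  refine sum_congr rfl fun i _ => sum_congr rfl fun l _ => ?_
  split_ifs with h1 h2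
  · rfl
  · subst h2
    simp [xi, min_eq_left (h i)]
  · have : ζ l ≤ ζ i := by
      by_cases hi : i = i0
      · rw [hi]; exact h l
      · rw [hm l h2, hm i hi]
    simp [xi, min_eq_right this]

theorem rest_pos (hN : 2 ≤ N) (ζ : Fin N → ℝ) (i0 : Fin N) : 0 < SS ζ - exp (ζ i0) := by
  unfold SS
  rw [← sum_erase_eq (fun i => exp (ζ i))]
  refine sum_pos (fun _ _ => exp_pos _) ?_
  rw [← card_pos, card_erase_of_mem (mem_univ _), card_univ, Fintype.card_fin]
  omega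

theorem SA_eq (hN : 2 ≤ N) (ζ : Fin N → ℝ) (i0 : Fin N) :
    SS ζ * AA N (exp (ζ i0) / SS ζ) =
      (2 * exp (ζ i0) - SS ζ) * (ζ i0 - log ((SS ζ - exp (ζ i0)) / (N - 1))) -
        (N - 2) * N * (SS ζ - exp (ζ i0)) / (N - 1) := by
  have hS := SS_pos hN ζ
  have hR := rest_pos hN ζ i0
  have hn : (0 : ℝ) < N - 1 := by
    have : (2 : ℝ) ≤ N := by exact_mod_cast hN
    linarith
  have e : ((N : ℝ) - 1) * (exp (ζ i0) / SS ζ) / (1 - exp (ζ i0) / SS ζ) =
      exp (ζ i0) / ((SS ζ - exp (ζ i0)) / (N - 1)) := by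
    field_simp
  unfold AA
  rw [e, Real.log_div (exp_pos _).ne' (div_pos hR hn).ne', Real.log_exp]
  field_simp

theorem Gam_ge (hN : 2 ≤ N) (ζ : Fin N → ℝ) (i0 : Fin N) (h : ∀ l, ζ l ≤ ζ i0) :
    SS ζ * AA N (exp (ζ i0) / SS ζ) ≤ Gam ζ := by
  have hS := SS_pos hN ζ
  have hR := rest_pos hN ζ i0
  have h2 : (2 : ℝ) ≤ N := by exact_mod_cast hN
  have hn : (0 : ℝ) < N - 1 := by linarith
  rw [SA_eq hN]
  set R := SS ζ - exp (ζ i0) with hRdef
  set m := R / (N - 1) with hmdef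
  have hm : 0 < m := div_pos hR hn
  set μ0 := log m with hμ0
  have hem : exp μ0 = m := Real.exp_log hm
  have hcard : ((univ.erase i0).card : ℝ) = N - 1 := by
    rw [card_erase_of_mem (mem_univ _), card_univ, Fintype.card_fin, Nat.cast_sub (by omega)]
    simp
  have hRsum : ∑ l ∈ univ.erase i0, exp (ζ l) = R := sum_erase_eq _ _
  have hRm : R = (N - 1) * m := by rw [hmdef]; field_simp
  have hL : ∑ l, ζ l - ζ i0 ≤ (N - 1) * μ0 := by
    rw [← sum_erase_eq]
    have : ∑ l ∈ univ.erase i0, ζ l ≤ ∑ l ∈ univ.erase i0, (μ0 - 1 + exp (ζ l) / m) := by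
      refine sum_le_sum fun l _ => ?_
      have h1 := Real.add_one_le_exp (ζ l - μ0)
      rw [Real.exp_sub, hem] at h1
      linarith
    rw [sum_add_distrib, sum_const, nsmul_eq_mul, hcard, ← sum_div, hRsum, hRm,
      mul_div_assoc, div_self hm.ne'] at this
    linarith
  have hE : R * μ0 ≤ ∑ l, exp (ζ l) * ζ l - exp (ζ i0) * ζ i0 := by
    rw [← sum_erase_eq (fun l => exp (ζ l) * ζ l)]
    have : ∑ l ∈ univ.erase i0, (exp (ζ l) * μ0 + exp (ζ l) - m) ≤
        ∑ l ∈ univ.erase i0, exp (ζ l) * ζ l := by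
      refine sum_le_sum fun l _ => ?_
      have h1 := Real.add_one_le_exp (μ0 - ζ l)
      have h3 : exp (ζ l) * exp (μ0 - ζ l) = m := by rw [← Real.exp_add, ← hem]; simp
      have h4 := exp_pos (ζ l)
      nlinarith
    rw [sum_sub_distrib, sum_add_distrib, ← sum_mul, hRsum, sum_const, nsmul_eq_mul, hcard] at this
    linarith
  have hX := XiL_le ζ i0 h
  rw [XiL_eq] at hX
  have hlam : 0 ≤ ((N : ℝ) - 2) / (N - 1) := div_nonneg (by linarith) hn.le
  have hX' := mul_le_mul_of_nonneg_left hX hlam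
  have e1 : ((N : ℝ) - 2) / (N - 1) = 1 - 1 / (N - 1) := by field_simp; ring
  have h5 : SS ζ / (N - 1) * (∑ l, ζ l - ζ i0) ≤ SS ζ * μ0 := by
    have := mul_le_mul_of_nonneg_left hL (div_pos hS hn).le
    calc _ ≤ _ := this
      _ = _ := by field_simp
  have e2 : ((N : ℝ) - 2) / (N - 1) * (SS ζ * (∑ l, ζ l - ζ i0) - N * R) =
      SS ζ * (∑ l, ζ l - ζ i0) - SS ζ / (N - 1) * (∑ l, ζ l - ζ i0) - (N - 2) * N * R / (N - 1) := by
    field_simp; ring
  unfold Gam Phi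
  rw [e2] at hX'
  have e3 : SS ζ = R + exp (ζ i0) := by rw [hRdef]; ring
  nlinarith

theorem Gam_ray (hN : 2 ≤ N) (ζ : Fin N → ℝ) (i0 : Fin N) (h : ∀ l, ζ l ≤ ζ i0)
    (hm : ∀ l l', l ≠ i0 → l' ≠ i0 → ζ l = ζ l') :
    Gam ζ = SS ζ * AA N (exp (ζ i0) / SS ζ) := by
  have h2 : (2 : ℝ) ≤ N := by exact_mod_cast hN
  have hn : (0 : ℝ) < N - 1 := by linarith
  have : Nontrivial (Fin N) := Fin.nontrivial_iff_two_le.2 hN
  obtain ⟨l0, hl0⟩ := exists_ne i0
  set m := ζ l0 with hmdef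
  have hm' : ∀ l, l ≠ i0 → ζ l = m := fun l hl => hm l l0 hl hl0
  have hcard : ((univ.erase i0).card : ℝ) = N - 1 := by
    rw [card_erase_of_mem (mem_univ _), card_univ, Fintype.card_fin, Nat.cast_sub (by omega)]
    simp
  have key : ∀ f : ℝ → ℝ, ∑ l, f (ζ l) = f (ζ i0) + (N - 1) * f m := by
    intro f
    rw [← add_sum_erase _ _ (mem_univ i0), sum_congr rfl fun l hl => by
      rw [hm' l (ne_of_mem_erase hl)], sum_const, nsmul_eq_mul, hcard]
  have hS : SS ζ = exp (ζ i0) + (N - 1) * exp m := key exp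
  have hL : ∑ l, ζ l = ζ i0 + (N - 1) * m := key id
  have hE : ∑ l, exp (ζ l) * ζ l = exp (ζ i0) * ζ i0 + (N - 1) * (exp m * m) :=
    key fun t => exp t * t
  rw [SA_eq hN]
  have e : (SS ζ - exp (ζ i0)) / (N - 1) = exp m := by rw [hS]; field_simp; ring
  rw [e, Real.log_exp]
  unfold Gam Phi
  rw [Xi_ray ζ i0 h m hm', XiL_eq, hE, hL, hS]
  field_simp
  ring

theorem AA_deriv (hN : 2 ≤ N) {p : ℝ} (h0 : 0 < p) (h1 : p < 1) :
    HasDerivAt (AA N) (2 * log ((N - 1) * p / (1 - p)) + (1 / (1 - p) - 1 / p) +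
      (N - 2) * N / (N - 1)) p := by
  have h2 : (2 : ℝ) ≤ N := by exact_mod_cast hN
  have hn : (0 : ℝ) < N - 1 := by linarith
  have h1' : 1 - p ≠ 0 := by linarith
  have d1 : HasDerivAt (fun p : ℝ => ((N : ℝ) - 1) * p / (1 - p))
      (((N - 1) * 1 * (1 - p) - (N - 1) * p * (-1)) / (1 - p) ^ 2) p :=
    ((hasDerivAt_id p).const_mul _).div ((hasDerivAt_id p).const_sub 1) h1'
  have hpos : 0 < ((N : ℝ) - 1) * p / (1 - p) := div_pos (mul_pos hn h0) (by linarith)
  have d2 := d1.log hpos.ne'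
  have d3 := (((hasDerivAt_id p).const_mul 2).sub_const 1).mul d2
  have d4 := (((hasDerivAt_id p).const_sub 1).const_mul (((N : ℝ) - 2) * N)).div_const (N - 1)
  refine (d3.sub d4).congr_deriv ?_
  simp only [id]
  field_simp
  ring

theorem AA_mono (hN : 2 ≤ N) : MonotoneOn (AA N) (Set.Ico (1 / N) 1) := by
  have h2 : (2 : ℝ) ≤ N := by exact_mod_cast hN
  have hn : (0 : ℝ) < N - 1 := by linarith
  have hN0 : (0 : ℝ) < 1 / N := by positivity
  refine monotoneOn_of_deriv_nonneg (convex_Ico _ _) (fun p hp => ?_) (fun p hp => ?_)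
    fun p hp => ?_
  · exact (AA_deriv hN (hN0.trans_le hp.1) hp.2).continuousAt.continuousWithinAt
  · rw [interior_Ico] at hp
    exact (AA_deriv hN (hN0.trans hp.1) hp.2).differentiableAt.differentiableWithinAt
  · rw [interior_Ico] at hp
    have h0 := hN0.trans hp.1
    rw [(AA_deriv hN h0 hp.2).deriv]
    have hp1 : 1 < N * p := by
      have := hp.1
      rwa [div_lt_iff₀ (by linarith), mul_comm] at this
    have hq : 0 < 1 - p := by linarith [hp.2]
    have a1 : 0 ≤ log ((N - 1) * p / (1 - p)) := by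
      refine Real.log_nonneg ?_
      rw [le_div_iff₀ hq]; linarith
    have a2 : 1 / p ≤ N := by rw [div_le_iff₀ h0]; linarith
    have a3 : (N : ℝ) / (N - 1) ≤ 1 / (1 - p) := by
      rw [div_le_div_iff₀ hn hq]; linarith
    have a4 : ((N : ℝ) - 2) * N / (N - 1) = N - N / (N - 1) := by field_simp; ring
    linarith

theorem AA_cont (hN : 2 ≤ N) {p : ℝ} (h0 : 0 < p) (h1 : p < 1) : ContinuousAt (AA N) p :=
  (AA_deriv hN h0 h1).continuousAt

theorem AA_inv (hN : 2 ≤ N) : AA N (1 / N) = -(N - 2) := by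
  have h2 : (2 : ℝ) ≤ N := by exact_mod_cast hN
  have hn : (0 : ℝ) < N - 1 := by linarith
  have e : ((N : ℝ) - 1) * (1 / N) / (1 - 1 / N) = 1 := by
    field_simp
  unfold AA
  rw [e, Real.log_one]
  field_simp
  ring

theorem Gam_shift (hN : 2 ≤ N) (ζ : Fin N → ℝ) (c : ℝ) :
    Gam (fun i => ζ i + c) = exp c * Gam ζ := by
  have h2 : (2 : ℝ) ≤ N := by exact_mod_cast hN
  have hn : (0 : ℝ) < N - 1 := by linarith
  have hS : SS (fun i => ζ i + c) = exp c * SS ζ := by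
    simp only [SS, Real.exp_add, mul_sum]
    exact sum_congr rfl fun i _ => mul_comm _ _
  have hX : Xi (fun i => ζ i + c) = exp c * Xi ζ + exp c * c * ((N - 1) * SS ζ) := by
    have : ∀ i, ∑ l, (if i = l then 0 else xi (ζ i + c) (ζ l + c)) =
        exp c * ∑ l, (if i = l then 0 else xi (ζ i) (ζ l)) +
          exp c * c * ((N - 1) * exp (ζ i)) := by
      intro i
      have e : ∀ l, (if i = l then 0 else xi (ζ i + c) (ζ l + c)) =
          exp c * (if i = l then 0 else xi (ζ i) (ζ l)) +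
            if l = i then 0 else exp c * c * exp (ζ i) := by
        intro l
        by_cases h : i = l
        · simp [h]
        · simp only [h, Ne.symm h, if_false, xi, min_add_add_right, Real.exp_add]; ring
      simp only [e, sum_add_distrib, ← mul_sum]
      rw [sum_ite_ne (fun _ => exp c * c * exp (ζ i))]
      simp only [sum_const, card_univ, Fintype.card_fin, nsmul_eq_mul]
      ring
    simp only [Xi, this, sum_add_distrib, ← mul_sum, SS]
  have hE : ∑ i, exp (ζ i + c) * (ζ i + c) = exp c * ∑ i, exp (ζ i) * ζ i + exp c * c * SS ζ := by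
    simp only [SS, Real.exp_add, mul_sum, ← sum_add_distrib]
    exact sum_congr rfl fun i _ => by ring
  have hL : ∑ i, (ζ i + c) = ∑ i, ζ i + N * c := by
    simp [sum_add_distrib]
  unfold Gam Phi
  rw [hS, hX, hE, hL]
  field_simp
  ring

end Pool.Agent.MP_96872c_an

end

section

open Finset Real MeasureTheory ProbabilityTheory
open scoped NNReal

namespace Pool.Agent.MP_96872c_an

variable {N : ℕ}

/-- law of one logarithmic step -/
noncomputable def nu (v : ℝ≥0) : Measure ℝ := gaussianReal (-(v : ℝ) / 2) v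

instance (v : ℝ≥0) : IsProbabilityMeasure (nu v) := by unfold nu; infer_instance

theorem int_exp (v : ℝ≥0) (p : ℝ) : Integrable (fun x => exp (p * x)) (nu v) :=
  integrable_exp_mul_gaussianReal p

theorem I_exp (v : ℝ≥0) (p : ℝ) : ∫ x, exp (p * x) ∂nu v = exp (p * (p - 1) * v / 2) := by
  have h := congrFun (mgf_id_gaussianReal (μ := -(v : ℝ) / 2) (v := v)) p
  simp only [mgf, id] at h
  unfold nu
  rw [h]; congr 1; ring

theorem int_exp1 (v : ℝ≥0) : Integrable (fun x => exp x) (nu v) := by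
  simpa using int_exp v 1

theorem I_exp1 (v : ℝ≥0) : ∫ x, exp x ∂nu v = 1 := by
  simpa using I_exp v 1

theorem int_expabs (v : ℝ≥0) (p : ℝ) : Integrable (fun x => exp (p * |x|)) (nu v) := by
  refine ((int_exp v p).add (int_exp v (-p))).mono' (by fun_prop)
    (Filter.Eventually.of_forall fun x => ?_)
  rw [Real.norm_eq_abs, abs_of_pos (exp_pos _)]
  simp only [Pi.add_apply]
  rcases le_total 0 x with h | h
  · rw [abs_of_nonneg h]; linarith [exp_pos (-p * x)]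
  · rw [abs_of_nonpos h, mul_neg, ← neg_mul]; linarith [exp_pos (p * x)]

theorem int_id (v : ℝ≥0) : Integrable (fun x : ℝ => x) (nu v) := by
  refine (int_expabs v 1).mono' (by fun_prop) (Filter.Eventually.of_forall fun x => ?_)
  have := Real.add_one_le_exp |x|
  rw [Real.norm_eq_abs, one_mul]; linarith

theorem I_id (v : ℝ≥0) : ∫ x, x ∂nu v = -(v : ℝ) / 2 := integral_id_gaussianReal

theorem int_xexp (v : ℝ≥0) : Integrable (fun x : ℝ => x * exp x) (nu v) := by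
  refine (int_expabs v 2).mono' (by fun_prop) (Filter.Eventually.of_forall fun x => ?_)
  have h1 := Real.add_one_le_exp |x|
  have h2 : exp x ≤ exp |x| := Real.exp_le_exp.2 (le_abs_self x)
  rw [Real.norm_eq_abs, abs_mul, abs_of_pos (exp_pos x), two_mul, Real.exp_add]
  exact mul_le_mul (by linarith) h2 (exp_pos x).le (exp_pos _).le

theorem I_xexp (v : ℝ≥0) : ∫ x, x * exp x ∂nu v = (v : ℝ) / 2 := by
  have h := hasDerivAt_mgf (X := id) (μ := nu v) (t := 1) (by simp [nu])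
  have h2 : mgf id (nu v) = fun t => exp (-(v : ℝ) / 2 * t + v * t ^ 2 / 2) := mgf_id_gaussianReal
  rw [h2] at h
  have h3 : HasDerivAt (fun t : ℝ => -(v : ℝ) / 2 * t + v * t ^ 2 / 2)
      (-(v : ℝ) / 2 * 1 + v * (2 * 1) / 2) 1 := by
    have := ((hasDerivAt_id (1 : ℝ)).const_mul (-(v : ℝ) / 2)).add
      (((hasDerivAt_pow 2 (1 : ℝ)).const_mul (v : ℝ)).div_const 2)
    refine this.congr_deriv ?_
    simp
  have h4 := h.unique h3.exp
  simp only [id, one_mul] at h4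
  rw [h4]
  have : -(v : ℝ) / 2 * 1 + v * 1 ^ 2 / 2 = 0 := by ring
  rw [this]; simp; ring

/-- functions of exponential growth -/
def Gr (F : (Fin N → ℝ) → ℝ) : Prop :=
  Measurable F ∧ ∃ C p : ℝ, 0 ≤ C ∧ 0 ≤ p ∧ ∀ ζ, |F ζ| ≤ C * exp (p * ‖ζ‖)

namespace Gr

variable {F G : (Fin N → ℝ) → ℝ}

theorem const (c : ℝ) : Gr fun _ : Fin N → ℝ => c :=
  ⟨measurable_const, |c|, 0, abs_nonneg _, le_rfl, fun _ => by simp⟩

theorem of_le (hG : Gr G) (hm : Measurable F) (h : ∀ ζ, |F ζ| ≤ |G ζ|) : Gr F := by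
  obtain ⟨_, C, p, hC, hp, hb⟩ := hG
  exact ⟨hm, C, p, hC, hp, fun ζ => (h ζ).trans (hb ζ)⟩

theorem coord (i : Fin N) : Gr fun ζ : Fin N → ℝ => ζ i :=
  ⟨measurable_pi_apply i, 1, 1, zero_le_one, zero_le_one, fun ζ => by
    have h1 := norm_le_pi_norm ζ i
    have h2 := Real.add_one_le_exp ‖ζ‖
    rw [Real.norm_eq_abs] at h1
    simp only [one_mul]; linarith⟩

theorem expc (i : Fin N) : Gr fun ζ : Fin N → ℝ => exp (ζ i) :=
  ⟨by fun_prop, 1, 1, zero_le_one, zero_le_one, fun ζ => by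
    have h1 := norm_le_pi_norm ζ i
    rw [Real.norm_eq_abs] at h1
    rw [abs_of_pos (exp_pos _), one_mul, one_mul]
    exact Real.exp_le_exp.2 ((le_abs_self _).trans h1)⟩

theorem add (hF : Gr F) (hG : Gr G) : Gr fun ζ => F ζ + G ζ := by
  obtain ⟨mF, C, p, hC, hp, hb⟩ := hF
  obtain ⟨mG, C', p', hC', hp', hb'⟩ := hG
  refine ⟨mF.add mG, C + C', p + p', by positivity, by positivity, fun ζ => ?_⟩
  have h0 := norm_nonneg ζ
  have h1 : exp (p * ‖ζ‖) ≤ exp ((p + p') * ‖ζ‖) := Real.exp_le_exp.2 (by nlinarith)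
  have h2 : exp (p' * ‖ζ‖) ≤ exp ((p + p') * ‖ζ‖) := Real.exp_le_exp.2 (by nlinarith)
  calc |F ζ + G ζ| ≤ |F ζ| + |G ζ| := abs_add_le _ _
    _ ≤ C * exp ((p + p') * ‖ζ‖) + C' * exp ((p + p') * ‖ζ‖) :=
      add_le_add ((hb ζ).trans (mul_le_mul_of_nonneg_left h1 hC))
        ((hb' ζ).trans (mul_le_mul_of_nonneg_left h2 hC'))
    _ = _ := by ring

theorem mul (hF : Gr F) (hG : Gr G) : Gr fun ζ => F ζ * G ζ := by
  obtain ⟨mF, C, p, hC, hp, hb⟩ := hF
  obtain ⟨mG, C', p', hC', hp', hb'⟩ := hG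
  refine ⟨mF.mul mG, C * C', p + p', by positivity, by positivity, fun ζ => ?_⟩
  rw [abs_mul, add_mul, Real.exp_add]
  calc |F ζ| * |G ζ| ≤ C * exp (p * ‖ζ‖) * (C' * exp (p' * ‖ζ‖)) :=
      mul_le_mul (hb ζ) (hb' ζ) (abs_nonneg _) (by positivity)
    _ = _ := by ring

theorem neg (hF : Gr F) : Gr fun ζ => -F ζ := hF.of_le hF.1.neg fun _ => by simp

theorem sub (hF : Gr F) (hG : Gr G) : Gr fun ζ => F ζ - G ζ := by
  simpa only [sub_eq_add_neg] using hF.add hG.neg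

theorem abs (hF : Gr F) : Gr fun ζ => |F ζ| := hF.of_le hF.1.abs fun _ => by simp

theorem cmul (c : ℝ) (hF : Gr F) : Gr fun ζ => c * F ζ := (const c).mul hF

theorem pow (hF : Gr F) (n : ℕ) : Gr fun ζ => F ζ ^ n := by
  induction n with
  | zero => simpa using const 1
  | succ n ih => simpa only [pow_succ] using ih.mul hF

theorem sum {ι : Type*} (s : Finset ι) {f : ι → (Fin N → ℝ) → ℝ} (h : ∀ i, Gr (f i)) :
    Gr fun ζ => ∑ i ∈ s, f i ζ := by
  classical
  induction s using Finset.induction_on with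
  | empty => simpa using const 0
  | insert a s ha ih => simpa only [sum_insert ha] using (h a).add ih

theorem max (hF : Gr F) (hG : Gr G) : Gr fun ζ => max (F ζ) (G ζ) :=
  (hF.abs.add hG.abs).of_le (hF.1.max hG.1) fun ζ => by
    rw [abs_of_nonneg (by positivity : 0 ≤ |F ζ| + |G ζ|)]
    rcases le_total (F ζ) (G ζ) with h | h
    · rw [max_eq_right h]; linarith [abs_nonneg (F ζ)]
    · rw [max_eq_left h]; linarith [abs_nonneg (G ζ)]

theorem min (hF : Gr F) (hG : Gr G) : Gr fun ζ => min (F ζ) (G ζ) :=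
  (hF.abs.add hG.abs).of_le (hF.1.min hG.1) fun ζ => by
    rw [abs_of_nonneg (by positivity : 0 ≤ |F ζ| + |G ζ|)]
    rcases le_total (F ζ) (G ζ) with h | h
    · rw [min_eq_left h]; linarith [abs_nonneg (G ζ)]
    · rw [min_eq_right h]; linarith [abs_nonneg (F ζ)]

theorem ite (c : Prop) [Decidable c] (hF : Gr F) (hG : Gr G) :
    Gr fun ζ => if c then F ζ else G ζ := by
  split_ifs <;> assumption

theorem int_step (hF : Gr F) (v : ℝ≥0) (ζ : Fin N → ℝ) (j : Fin N) :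
    Integrable (fun x => F (ζ + Pi.single j x)) (nu v) := by
  obtain ⟨mF, C, p, hC, hp, hb⟩ := hF
  have hm : Measurable fun x : ℝ => ζ + Pi.single j x := by
    refine measurable_const.add (measurable_pi_lambda _ fun i => ?_)
    by_cases h : i = j
    · subst h; simpa using measurable_id'
    · simp [h]
  refine ((int_expabs v p).const_mul (C * exp (p * ‖ζ‖))).mono' (mF.comp hm).aestronglyMeasurable
    (Filter.Eventually.of_forall fun x => ?_)
  rw [Real.norm_eq_abs]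
  refine (hb _).trans ?_
  rw [mul_assoc, ← Real.exp_add]
  refine mul_le_mul_of_nonneg_left (Real.exp_le_exp.2 ?_) hC
  have h1 := norm_add_le ζ (Pi.single j x)
  rw [Pi.norm_single, Real.norm_eq_abs] at h1
  nlinarith

end Gr

theorem gr_SS : Gr (SS (N := N)) := Gr.sum _ Gr.expc

theorem gr_xi (i l : Fin N) : Gr fun ζ : Fin N → ℝ => xi (ζ i) (ζ l) := by
  refine ((Gr.expc i).mul ((Gr.coord i).min (Gr.coord l))).sub ?_
  refine (Gr.expc i).of_le (by fun_prop) fun ζ => ?_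
  rw [abs_of_pos (exp_pos _), abs_of_pos (exp_pos _)]
  exact Real.exp_le_exp.2 (min_le_left _ _)

theorem gr_x2 (i l : Fin N) : Gr fun ζ : Fin N → ℝ => x2 (ζ i) (ζ l) := (gr_xi i l).add (gr_xi l i)

theorem gr_Phi : Gr (Phi (N := N)) :=
  ((Gr.sum _ fun i => (Gr.expc i).mul (Gr.coord i)).cmul 2).sub (gr_SS.mul (Gr.sum _ Gr.coord))

theorem gr_Xi : Gr (Xi (N := N)) :=
  Gr.sum _ fun i => Gr.sum _ fun l => Gr.ite _ (Gr.const 0) (gr_xi i l)

theorem gr_Gam : Gr (Gam (N := N)) := gr_Phi.add (gr_Xi.cmul _)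

theorem gr_lam (a b c : Fin N) :
    Gr fun ζ : Fin N → ℝ => lam (exp (ζ a)) (exp (ζ b)) (exp (ζ c)) := by
  have ha := Gr.expc a
  have hb := Gr.expc b
  have hc := Gr.expc c
  exact ((((ha.sub hb).abs.pow 3).add ((hb.sub hc).abs.pow 3)).add ((ha.sub hc).abs.pow 3)).add
    ((((ha.add hb).sub (hc.cmul 2)).mul ((ha.add hc).sub (hb.cmul 2))).mul
      ((hb.add hc).sub (ha.cmul 2)))

/-- total excess over the observed coordinate -/
noncomputable def Yy (ζ : Fin N → ℝ) (j : Fin N) : ℝ := ∑ i, max (exp (ζ i) - exp (ζ j)) 0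

theorem gr_Yy (j : Fin N) : Gr fun ζ : Fin N → ℝ => Yy ζ j :=
  Gr.sum _ fun i => ((Gr.expc i).sub (Gr.expc j)).max (Gr.const 0)

theorem Yy_nonneg (ζ : Fin N → ℝ) (j : Fin N) : 0 ≤ Yy ζ j := sum_nonneg fun _ _ => le_max_right _ _

theorem le_Yy (ζ : Fin N → ℝ) (i j : Fin N) : max (exp (ζ i) - exp (ζ j)) 0 ≤ Yy ζ j :=
  single_le_sum (f := fun i => max (exp (ζ i) - exp (ζ j)) 0) (fun _ _ => le_max_right _ _)
    (mem_univ i)

theorem Yy_le (ζ : Fin N → ℝ) (j : Fin N) : Yy ζ j ≤ SS ζ :=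
  sum_le_sum fun i _ => max_le (by linarith [exp_pos (ζ j)]) (exp_pos _).le

theorem sum_single (f : ℝ → ℝ) (ζ : Fin N → ℝ) (j : Fin N) (x : ℝ) :
    ∑ l, f ((ζ + Pi.single j x : Fin N → ℝ) l) = ∑ l, f (ζ l) - f (ζ j) + f (ζ j + x) := by
  rw [← add_sum_erase _ _ (mem_univ j), ← sum_erase_eq (fun l => f (ζ l)), add_comm]
  congr 1
  · exact sum_congr rfl fun l hl => by simp [ne_of_mem_erase hl]
  · simp

theorem I_comb (v : ℝ≥0) (a b c d : ℝ) :
    ∫ x, (a + b * (exp x - 1) + c * x + d * (x * exp x)) ∂nu v = a - c * v / 2 + d * v / 2 := by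
  have i1 : Integrable (fun x => b * (exp x - 1)) (nu v) :=
    ((int_exp1 v).sub (integrable_const 1)).const_mul b
  have i0 : Integrable (fun x => a + b * (exp x - 1)) (nu v) := (integrable_const a).add i1
  have i2 : Integrable (fun x => c * x) (nu v) := (int_id v).const_mul c
  have i3 : Integrable (fun x => a + b * (exp x - 1) + c * x) (nu v) := i0.add i2
  rw [integral_add i3 ((int_xexp v).const_mul d), integral_add i0 i2,
    integral_add (integrable_const a) i1, integral_const_mul, integral_const_mul,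
    integral_const_mul, integral_sub (int_exp1 v) (integrable_const 1), I_exp1, I_id, I_xexp]
  simp
  ring

theorem I_SS (v : ℝ≥0) (ζ : Fin N → ℝ) (j : Fin N) :
    ∫ x, SS (ζ + Pi.single j x) ∂nu v = SS ζ := by
  have : ∀ x, SS (ζ + Pi.single j x) =
      SS ζ + exp (ζ j) * (exp x - 1) + 0 * x + 0 * (x * exp x) := fun x => by
    unfold SS
    rw [sum_single exp, Real.exp_add]; ring
  simp only [this]
  rw [I_comb]; ring

theorem I_Phi (v : ℝ≥0) (ζ : Fin N → ℝ) (j : Fin N) :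
    ∫ x, Phi (ζ + Pi.single j x) ∂nu v = Phi ζ + v / 2 * SS ζ := by
  have : ∀ x, Phi (ζ + Pi.single j x) =
      Phi ζ + (2 * exp (ζ j) * ζ j - exp (ζ j) * ∑ l, ζ l) * (exp x - 1) +
        (-(SS ζ - exp (ζ j))) * x + exp (ζ j) * (x * exp x) := fun x => by
    unfold Phi SS
    rw [sum_single exp, sum_single (fun t => exp t * t), sum_single (fun t => t), Real.exp_add]
    ring
  simp only [this]
  rw [I_comb]; ring

theorem I_poly (v : ℝ≥0) (a b c d e f : ℝ) :
    Integrable (fun x => a * exp (-1 * x) + b + c * exp (1 * x) + d * exp (2 * x) + e * exp (3 * x) +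
      f * exp (4 * x)) (nu v) ∧
    ∫ x, (a * exp (-1 * x) + b + c * exp (1 * x) + d * exp (2 * x) + e * exp (3 * x) +
      f * exp (4 * x)) ∂nu v =
      a * exp v + b + c + d * exp v + e * exp (3 * v) + f * exp (6 * v) := by
  have i1 := (int_exp v (-1)).const_mul a
  have i2 : Integrable (fun x => a * exp (-1 * x) + b) (nu v) := i1.add (integrable_const b)
  have i3 : Integrable (fun x => a * exp (-1 * x) + b + c * exp (1 * x)) (nu v) :=
    i2.add ((int_exp v 1).const_mul c)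
  have i4 : Integrable (fun x => a * exp (-1 * x) + b + c * exp (1 * x) + d * exp (2 * x)) (nu v) :=
    i3.add ((int_exp v 2).const_mul d)
  have i5 : Integrable (fun x => a * exp (-1 * x) + b + c * exp (1 * x) + d * exp (2 * x) +
      e * exp (3 * x)) (nu v) := i4.add ((int_exp v 3).const_mul e)
  refine ⟨i5.add ((int_exp v 4).const_mul f), ?_⟩
  rw [integral_add i5 ((int_exp v 4).const_mul f), integral_add i4 ((int_exp v 3).const_mul e),
    integral_add i3 ((int_exp v 2).const_mul d), integral_add i2 ((int_exp v 1).const_mul c),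
    integral_add i1 (integrable_const b)]
  simp only [integral_const_mul, I_exp, integral_const, probReal_univ, smul_eq_mul, one_mul]
  have e1 : (-1 : ℝ) * (-1 - 1) * v / 2 = v := by ring
  have e3 : (2 : ℝ) * (2 - 1) * v / 2 = v := by ring
  have e4 : (3 : ℝ) * (3 - 1) * v / 2 = 3 * v := by ring
  have e5 : (4 : ℝ) * (4 - 1) * v / 2 = 6 * v := by ring
  rw [e1, I_exp1, e3, e4, e5]; simp

theorem exp_ub {t : ℝ} (h0 : 0 ≤ t) (h1 : t ≤ 1) : exp t ≤ 1 + t + t ^ 2 := by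
  have := Real.abs_exp_sub_one_sub_id_le (x := t) (by rw [abs_of_nonneg h0]; exact h1)
  linarith [(abs_le.1 this).2]

theorem I_gap (v : ℝ≥0) (hv : (v : ℝ) ≤ 1 / 6) (a y : ℝ) {η : ℝ} (hη : 0 < η)
    (hi : Integrable (fun x => gap a y x) (nu v)) :
    ∫ x, gap a y x ∂nu v ≤ 2 * v * max (exp a - exp y) 0 + v * (2 * η + 9 * v / η) * exp y := by
  set M := max (exp a - exp y) 0 with hM
  have hM0 : 0 ≤ M := le_max_right _ _
  have hy := exp_pos y
  obtain ⟨h1, h2⟩ := I_poly v (M + exp y * η + exp y / η) (-2 * M - 2 * exp y * η - 4 * exp y / η)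
    (M + exp y * η + 6 * exp y / η) (-4 * exp y / η) (exp y / η) 0
  refine (integral_mono hi h1 fun x => ?_).trans ?_
  · refine (gap_le a y x hη).trans (le_of_eq ?_)
    have e1 : exp (-x) * exp x = 1 := by rw [← Real.exp_add]; simp
    have e2 : exp (2 * x) = exp x ^ 2 := by rw [← Real.exp_nat_mul]; simp
    have e3 : exp (3 * x) = exp x ^ 3 := by rw [← Real.exp_nat_mul]; simp
    simp only [rr, neg_mul, one_mul, e2, e3]
    field_simp
    linear_combination (exp y * (exp x - 2)) * e1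
  · rw [h2]
    have hv0 : (0 : ℝ) ≤ v := v.2
    have a1 := exp_ub hv0 (by linarith)
    have a2 := exp_ub (t := 3 * v) (by linarith) (by linarith)
    have a3 := Real.add_one_le_exp (v : ℝ)
    have b1 : exp v - 1 ≤ 2 * v := by nlinarith
    have b2 : exp (3 * v) - 3 * exp v + 2 ≤ 9 * v ^ 2 := by nlinarith
    have c1 := mul_le_mul_of_nonneg_left b1 hM0
    have c2 := mul_le_mul_of_nonneg_left b1 (mul_pos hy hη).le
    have c3 := mul_le_mul_of_nonneg_left b2 (div_pos hy hη).le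
    have e : (v : ℝ) * (2 * η + 9 * v / η) * exp y =
        exp y * η * (2 * v) + exp y / η * (9 * v ^ 2) := by ring
    rw [e]
    have e' : (M + exp y * η + exp y / η) * exp v + (-2 * M - 2 * exp y * η - 4 * exp y / η) +
        (M + exp y * η + 6 * exp y / η) + -4 * exp y / η * exp v + exp y / η * exp (3 * v) +
        0 * exp (6 * v) = M * (exp v - 1) + exp y * η * (exp v - 1) +
          exp y / η * (exp (3 * v) - 3 * exp v + 2) := by ring
    rw [e']
    linarith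

/-- one-step inequality -/
def Step (v : ℝ≥0) (F : (Fin N → ℝ) → ℝ) (e : (Fin N → ℝ) → Fin N → ℝ) : Prop :=
  ∀ ζ j, ∫ x, F (ζ + Pi.single j x) ∂nu v ≤ F ζ + e ζ j

theorem I_x2 (v : ℝ≥0) (ζ : Fin N → ℝ) {i j : Fin N} (h : i ≠ j) :
    Integrable (fun x => gap (ζ i) (ζ j) x) (nu v) ∧
    ∫ x, x2 (ζ i) (ζ j + x) ∂nu v = x2 (ζ i) (ζ j) - ∫ x, gap (ζ i) (ζ j) x ∂nu v := by
  have i1 : Integrable (fun x => x2 (ζ i) (ζ j + x)) (nu v) := by
    have := (gr_x2 i j).int_step v ζ j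
    simpa [h] using this
  have i2 : Integrable (fun x => xD (ζ i) (ζ j) * (exp (ζ j) * (exp x - 1))) (nu v) :=
    (((int_exp1 v).sub (integrable_const 1)).const_mul _).const_mul _
  have i3 : Integrable (fun x => x2 (ζ i) (ζ j) + xD (ζ i) (ζ j) * (exp (ζ j) * (exp x - 1)))
    (nu v) := (integrable_const _).add i2
  refine ⟨i3.sub i1, ?_⟩
  unfold gap
  rw [integral_sub i3 i1, integral_add (integrable_const _) i2, integral_const_mul,
    integral_const_mul, integral_sub (int_exp1 v) (integrable_const 1), I_exp1]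
  simp

/-- error term for the pair function -/
noncomputable def err1 (v η : ℝ) (ζ : Fin N → ℝ) (j : Fin N) : ℝ :=
  2 * v * Yy ζ j + v * (2 * η + 9 * v / η) * SS ζ

theorem err1_nonneg {v η : ℝ} (hv : 0 ≤ v) (hη : 0 < η) (ζ : Fin N → ℝ) (j : Fin N) :
    0 ≤ err1 v η ζ j := by
  have := Yy_nonneg ζ j
  have := (exp_pos _).le.trans (exp_le_SS ζ j)
  unfold err1; positivity

theorem I_x2_bounds (v : ℝ≥0) (ζ : Fin N → ℝ) {i l : Fin N} (h : i ≠ l) (j : Fin N) :
    ∫ x, x2 ((ζ + Pi.single j x : Fin N → ℝ) i) ((ζ + Pi.single j x : Fin N → ℝ) l) ∂nu v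
      ≤ x2 (ζ i) (ζ l) ∧
    ((v : ℝ) ≤ 1 / 6 → ∀ η, 0 < η → x2 (ζ i) (ζ l) - err1 v η ζ j ≤
      ∫ x, x2 ((ζ + Pi.single j x : Fin N → ℝ) i) ((ζ + Pi.single j x : Fin N → ℝ) l) ∂nu v) := by
  have key : ∀ i : Fin N, i ≠ j → ∫ x, x2 (ζ i) (ζ j + x) ∂nu v ≤ x2 (ζ i) (ζ j) ∧
      ((v : ℝ) ≤ 1 / 6 → ∀ η, 0 < η → x2 (ζ i) (ζ j) - err1 v η ζ j ≤
        ∫ x, x2 (ζ i) (ζ j + x) ∂nu v) := by
    intro i hi
    obtain ⟨h1, h2⟩ := I_x2 v ζ hi
    rw [h2]
    refine ⟨sub_le_self _ (integral_nonneg fun x => gap_nonneg _ _ x), fun hv η hη => ?_⟩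
    have h3 := I_gap v hv (ζ i) (ζ j) hη h1
    have hv0 : (0 : ℝ) ≤ v := v.2
    have h4 := mul_le_mul_of_nonneg_left (le_Yy ζ i j) (by positivity : 0 ≤ 2 * (v : ℝ))
    have h5 := mul_le_mul_of_nonneg_left (exp_le_SS ζ j)
      (by positivity : 0 ≤ (v : ℝ) * (2 * η + 9 * v / η))
    unfold err1
    linarith
  by_cases h1 : l = j
  · subst h1
    simpa [h] using key i h
  · by_cases h2 : i = j
    · subst h2
      have := key l h1
      simp only [x2_comm (ζ l)] at this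
      simpa [h1] using this
    · simp only [Pi.add_apply, ne_eq, h2, not_false_eq_true, Pi.single_eq_of_ne, add_zero, h1,
        integral_const, probReal_univ, smul_eq_mul, one_mul, le_refl, true_and]
      intro _ η hη
      have := err1_nonneg (v := (v : ℝ)) v.2 hη ζ j
      linarith

theorem I_Xi (v : ℝ≥0) (ζ : Fin N → ℝ) (j : Fin N) :
    ∫ x, Xi (ζ + Pi.single j x) ∂nu v = 1 / 2 * ∑ i, ∑ l, if i = l then 0 else
      ∫ x, x2 ((ζ + Pi.single j x : Fin N → ℝ) i) ((ζ + Pi.single j x : Fin N → ℝ) l) ∂nu v := by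
  simp only [Xi_eq_half]
  rw [integral_const_mul, integral_finsetSum]
  · congr 1
    refine sum_congr rfl fun i _ => ?_
    rw [integral_finsetSum]
    · refine sum_congr rfl fun l _ => ?_
      split_ifs <;> simp
    · exact fun l _ => (Gr.ite _ (Gr.const 0) (gr_x2 i l)).int_step v ζ j
  · exact fun i _ => (Gr.sum _ fun l => Gr.ite _ (Gr.const 0) (gr_x2 i l)).int_step v ζ j

theorem I_Gam (v : ℝ≥0) (ζ : Fin N → ℝ) (j : Fin N) :
    ∫ x, Gam (ζ + Pi.single j x) ∂nu v = Phi ζ + v / 2 * SS ζ +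
      ((N : ℝ) - 2) / (N - 1) * ∫ x, Xi (ζ + Pi.single j x) ∂nu v := by
  unfold Gam
  rw [integral_add (gr_Phi.int_step v ζ j) ((gr_Xi.cmul _).int_step v ζ j), I_Phi,
    integral_const_mul]

theorem step_Gam (hN : 2 ≤ N) (v : ℝ≥0) : Step v (Gam (N := N)) fun ζ _ => v / 2 * SS ζ := by
  intro ζ j
  have h2 : (2 : ℝ) ≤ N := by exact_mod_cast hN
  have hlam : 0 ≤ ((N : ℝ) - 2) / (N - 1) := div_nonneg (by linarith) (by linarith)
  have h : ∫ x, Xi (ζ + Pi.single j x) ∂nu v ≤ Xi ζ := by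
    rw [I_Xi, Xi_eq_half]
    refine mul_le_mul_of_nonneg_left (sum_le_sum fun i _ => sum_le_sum fun l _ => ?_) (by norm_num)
    split_ifs with h
    · exact le_rfl
    · exact (I_x2_bounds v ζ h j).1
  rw [I_Gam]
  have := mul_le_mul_of_nonneg_left h hlam
  unfold Gam
  linarith

theorem step_negGam (hN : 2 ≤ N) (v : ℝ≥0) (hv : (v : ℝ) ≤ 1 / 6) {η : ℝ} (hη : 0 < η) :
    Step v (fun ζ : Fin N → ℝ => -Gam ζ) fun ζ j => -(v / 2 * SS ζ) + N ^ 2 * err1 v η ζ j := by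
  intro ζ j
  have h2 : (2 : ℝ) ≤ N := by exact_mod_cast hN
  have hlam : 0 ≤ ((N : ℝ) - 2) / (N - 1) := div_nonneg (by linarith) (by linarith)
  have hlam1 : ((N : ℝ) - 2) / (N - 1) ≤ 1 := by rw [div_le_one (by linarith)]; linarith
  have he := err1_nonneg (v := (v : ℝ)) v.2 hη ζ j
  have h : Xi ζ - N ^ 2 * err1 v η ζ j ≤ ∫ x, Xi (ζ + Pi.single j x) ∂nu v := by
    rw [I_Xi, Xi_eq_half]
    have h1 : ∑ i, ∑ l, ((if i = l then 0 else x2 (ζ i) (ζ l)) - err1 v η ζ j) ≤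
        ∑ i, ∑ l, if i = l then 0 else ∫ x, x2 ((ζ + Pi.single j x : Fin N → ℝ) i)
          ((ζ + Pi.single j x : Fin N → ℝ) l) ∂nu v := by
      refine sum_le_sum fun i _ => sum_le_sum fun l _ => ?_
      split_ifs with h
      · simpa using he
      · exact (I_x2_bounds v ζ h j).2 hv η hη
    simp only [sum_sub_distrib, sum_const, card_univ, Fintype.card_fin, nsmul_eq_mul] at h1
    have : 0 ≤ (N : ℝ) ^ 2 * err1 v η ζ j := by positivity
    nlinarith
  rw [integral_neg, I_Gam]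
  have h3 := mul_le_mul_of_nonneg_left h hlam
  have h4 : 0 ≤ (N : ℝ) ^ 2 * err1 v η ζ j := by positivity
  unfold Gam
  nlinarith

/-- error term for the ray test function -/
noncomputable def err2 (v η : ℝ) (ζ : Fin N → ℝ) (j : Fin N) : ℝ :=
  24 * v * (exp (ζ j) ^ 2 * Yy ζ j) + 12 * v * (2 * η + 42 * v / η) * SS ζ ^ 3

theorem err2_nonneg {v η : ℝ} (hv : 0 ≤ v) (hη : 0 < η) (ζ : Fin N → ℝ) (j : Fin N) :
    0 ≤ err2 v η ζ j := by
  have := Yy_nonneg ζ j
  have := (exp_pos _).le.trans (exp_le_SS ζ j)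
  unfold err2; positivity

theorem I_lam1 (v : ℝ≥0) (hv : (v : ℝ) ≤ 1 / 6) {η : ℝ} (hη : 0 < η) (ζ : Fin N → ℝ)
    {j b c : Fin N} (hb : b ≠ j) (hc : c ≠ j) :
    ∫ x, lam (exp (ζ j + x)) (exp (ζ b)) (exp (ζ c)) ∂nu v ≤
      lam (exp (ζ j)) (exp (ζ b)) (exp (ζ c)) + err2 v η ζ j := by
  have i1 : Integrable (fun x => lam (exp (ζ j + x)) (exp (ζ b)) (exp (ζ c))) (nu v) := by
    have := (gr_lam j b c).int_step v ζ j
    simpa [hb, hc] using this
  set y := exp (ζ j) with hy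
  have hy0 : 0 < y := exp_pos _
  set M := max (exp (ζ b) - y) 0 + max (exp (ζ c) - y) 0 with hM
  have hM0 : 0 ≤ M := add_nonneg (le_max_right _ _) (le_max_right _ _)
  have hMY : M ≤ 2 * Yy ζ j := by linarith [le_Yy ζ b j, le_Yy ζ c j]
  set L := lam y (exp (ζ b)) (exp (ζ c))
  set D := lamD y (exp (ζ b)) (exp (ζ c))
  set α := 6 * y ^ 2 * M + 12 * y ^ 3 * η with hα
  set β := 12 * y ^ 3 / η with hβ
  obtain ⟨h1, h2⟩ := I_poly v 0 (L - D * y + α + β) (D * y - 2 * α - 4 * β) (α + 6 * β) (-4 * β) β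
  refine (integral_mono i1 h1 fun x => ?_).trans ?_
  · have e0 : exp (ζ j + x) = y + y * (exp x - 1) := by rw [Real.exp_add]; ring
    have e2 : exp (2 * x) = exp x ^ 2 := by rw [← Real.exp_nat_mul]; simp
    have e3 : exp (3 * x) = exp x ^ 3 := by rw [← Real.exp_nat_mul]; simp
    have e4 : exp (4 * x) = exp x ^ 4 := by rw [← Real.exp_nat_mul]; simp
    simp only [e0, one_mul, e2, e3, e4]
    refine (lam_taylor _ _ _ _).trans ?_
    rw [abs_mul, abs_of_pos hy0]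
    have h3 : |exp x - 1| ≤ η + (exp x - 1) ^ 2 / η := by
      rw [← sq_abs (exp x - 1)]
      have h4 := abs_nonneg (exp x - 1)
      set u := |exp x - 1|
      rcases le_total u η with h | h
      · have : 0 ≤ u ^ 2 / η := by positivity
        linarith
      · have : u ≤ u ^ 2 / η := by rw [le_div_iff₀ hη]; nlinarith
        linarith
    have h4 := mul_le_mul_of_nonneg_left h3 (by positivity : 0 ≤ 12 * y ^ 3 * (exp x - 1) ^ 2)
    have e5 : 12 * y ^ 3 * (exp x - 1) ^ 2 * (η + (exp x - 1) ^ 2 / η) =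
        12 * y ^ 3 * η * (exp x - 1) ^ 2 + β * (exp x - 1) ^ 4 := by rw [hβ]; ring
    rw [e5] at h4
    have e6 : 6 * (y * (exp x - 1)) ^ 2 * (M + 2 * (y * |exp x - 1|)) =
        6 * y ^ 2 * M * (exp x - 1) ^ 2 + 12 * y ^ 3 * (exp x - 1) ^ 2 * |exp x - 1| := by ring
    rw [e6]
    have e7 : 0 * exp (-1 * x) + (L - D * y + α + β) + (D * y - 2 * α - 4 * β) * exp x +
        (α + 6 * β) * exp x ^ 2 + -4 * β * exp x ^ 3 + β * exp x ^ 4 =
        L + D * (y * (exp x - 1)) + (6 * y ^ 2 * M * (exp x - 1) ^ 2 +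
          (12 * y ^ 3 * η * (exp x - 1) ^ 2 + β * (exp x - 1) ^ 4)) := by rw [hα]; ring
    rw [e7]
    linarith
  · rw [h2]
    have hv0 : (0 : ℝ) ≤ v := v.2
    have a1 := exp_ub hv0 (by linarith)
    have a2 := exp_ub (t := 6 * v) (by linarith) (by linarith)
    have a3 := Real.add_one_le_exp (3 * (v : ℝ))
    have b1 : exp v - 1 ≤ 2 * v := by nlinarith
    have b2 : exp (6 * v) - 4 * exp (3 * v) + 6 * exp v - 3 ≤ 42 * v ^ 2 := by nlinarith
    have hα0 : 0 ≤ α := by positivity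
    have hβ0 : 0 ≤ β := by positivity
    have c1 := mul_le_mul_of_nonneg_left b1 hα0
    have c2 := mul_le_mul_of_nonneg_left b2 hβ0
    have hS : y ^ 3 ≤ SS ζ ^ 3 := pow_le_pow_left₀ hy0.le (exp_le_SS ζ j) 3
    have c3 := mul_le_mul_of_nonneg_left hS
      (by positivity : 0 ≤ 12 * (v : ℝ) * (2 * η + 42 * v / η))
    have c4 := mul_le_mul_of_nonneg_left hMY (by positivity : 0 ≤ 12 * (v : ℝ) * y ^ 2)
    have e : α * (2 * v) + β * (42 * v ^ 2) =
        12 * v * y ^ 2 * M + 12 * v * (2 * η + 42 * v / η) * y ^ 3 := by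
      rw [hα, hβ]; ring
    unfold err2
    rw [← hy]
    nlinarith

theorem step_lam (v : ℝ≥0) (hv : (v : ℝ) ≤ 1 / 6) {η : ℝ} (hη : 0 < η) {a b c : Fin N}
    (hab : a ≠ b) (hac : a ≠ c) (hbc : b ≠ c) :
    Step v (fun ζ : Fin N → ℝ => lam (exp (ζ a)) (exp (ζ b)) (exp (ζ c))) (err2 v η) := by
  intro ζ j
  by_cases h1 : a = j
  · subst h1
    simpa [hab.symm, hac.symm] using I_lam1 v hv hη ζ hab.symm hac.symm
  · by_cases h2 : b = j
    · subst h2
      have := I_lam1 v hv hη ζ hab hbc.symm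
      simp only [lam_12 _ (exp (ζ a))] at this
      simpa [hab, hbc.symm] using this
    · by_cases h3 : c = j
      · subst h3
        have := I_lam1 v hv hη ζ hac hbc
        simp only [lam_12 _ (exp (ζ a)), lam_23 _ _ (exp (ζ b))] at this
        simpa [hac, hbc] using this
      · simpa [h1, h2, h3] using err2_nonneg (v := (v : ℝ)) v.2 hη ζ j

end Pool.Agent.MP_96872c_an

end

section

open Finset Real MeasureTheory ProbabilityTheory Filter Topology
open scoped NNReal ENNReal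

namespace Pool.Agent.MP_96872c_an

section IL

variable {Ω α : Type}

/-- `X` has law `ν` and is independent of the sub-σ-algebra `m` -/
def IL (m : MeasurableSpace Ω) {mΩ : MeasurableSpace Ω} (ρ : Measure Ω) (X : Ω → ℝ)
    (ν : Measure ℝ) : Prop :=
  ∀ A, MeasurableSet[m] A → (ρ.restrict A).map X = ρ A • ν

variable {m mΩ : MeasurableSpace Ω} {ρ : Measure Ω} {X : Ω → ℝ} {ν : Measure ℝ}

theorem IL.restrict (h : IL m ρ X ν) (hle : m ≤ mΩ) {A : Set Ω} (hA : MeasurableSet[m] A) :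
    IL m (ρ.restrict A) X ν := fun B hB => by
  rw [Measure.restrict_restrict (hle _ hB), Measure.restrict_apply (hle _ hB)]
  exact h _ (hB.inter hA)

theorem IL.mono {m' : MeasurableSpace Ω} (h : IL (mΩ := mΩ) m ρ X ν) (hm : m' ≤ m) :
    IL (mΩ := mΩ) m' ρ X ν :=
  fun A hA => h A (hm _ hA)

theorem IL.map (h : IL m ρ X ν) (hX : Measurable X) {g : ℝ → ℝ} (hg : Measurable g) :
    IL m ρ (fun ω => g (X ω)) (ν.map g) := fun A hA => by
  rw [← Measure.map_smul, ← h A hA, Measure.map_map hg hX]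
  rfl

variable [MeasurableSpace α] [IsFiniteMeasure ρ] [IsProbabilityMeasure ν] {ξ : Ω → α}

theorem IL.map_prod (h : IL m ρ X ν) (hle : m ≤ mΩ) (hX : Measurable X) (hξ : Measurable[m] ξ) :
    ρ.map (fun ω => (ξ ω, X ω)) = (ρ.map ξ).prod ν := by
  have hξ' : Measurable ξ := hξ.mono hle le_rfl
  refine (Measure.prod_eq fun s t hs ht => ?_).symm
  rw [Measure.map_apply (hξ'.prodMk hX) (hs.prod ht), Measure.map_apply hξ' hs]
  have h1 := congrArg (fun μ : Measure ℝ => μ t) (h _ (hξ hs))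
  simp only [Measure.smul_apply, smul_eq_mul] at h1
  rw [← h1, Measure.map_apply hX ht, Measure.restrict_apply (hX ht), Set.inter_comm]
  rfl

theorem IL.lintegral (h : IL m ρ X ν) (hle : m ≤ mΩ) (hX : Measurable X) (hξ : Measurable[m] ξ)
    {f : α × ℝ → ℝ≥0∞} (hf : Measurable f) :
    ∫⁻ ω, f (ξ ω, X ω) ∂ρ = ∫⁻ ω, ∫⁻ x, f (ξ ω, x) ∂ν ∂ρ := by
  have hξ' : Measurable ξ := hξ.mono hle le_rfl
  rw [← lintegral_map hf (hξ'.prodMk hX), h.map_prod hle hX hξ, lintegral_prod _ hf.aemeasurable,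
    lintegral_map hf.lintegral_prod_right' hξ']

theorem IL.integral (h : IL m ρ X ν) (hle : m ≤ mΩ) (hX : Measurable X) (hξ : Measurable[m] ξ)
    {f : α × ℝ → ℝ} (hf : Measurable f) (hi : Integrable (fun ω => f (ξ ω, X ω)) ρ) :
    Integrable (fun ω => ∫ x, f (ξ ω, x) ∂ν) ρ ∧
      ∫ ω, f (ξ ω, X ω) ∂ρ = ∫ ω, ∫ x, f (ξ ω, x) ∂ν ∂ρ := by
  have hξ' : Measurable ξ := hξ.mono hle le_rfl
  have h1 : Integrable f ((ρ.map ξ).prod ν) := by
    rw [← h.map_prod hle hX hξ]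
    exact (integrable_map_measure hf.aestronglyMeasurable (hξ'.prodMk hX).aemeasurable).2 hi
  have h2 := h1.integral_prod_left
  refine ⟨(integrable_map_measure h2.1 hξ'.aemeasurable).1 h2, ?_⟩
  rw [← integral_map (hξ'.prodMk hX).aemeasurable hf.aestronglyMeasurable, h.map_prod hle hX hξ,
    integral_prod _ h1, integral_map hξ'.aemeasurable h2.1]

end IL

section UI

variable {Ω : Type} {mΩ : MeasurableSpace Ω} {ρ : Measure Ω} [IsFiniteMeasure ρ]

omit [IsFiniteMeasure ρ] in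
theorem integrable_of_lint {h : Ω → ℝ} (hm : AEStronglyMeasurable h ρ) {C : ℝ≥0∞} (hC : C ≠ ∞)
    (hb : ∫⁻ ω, ENNReal.ofReal |h ω| ∂ρ ≤ C) : Integrable h ρ := by
  refine ⟨hm, ?_⟩
  rw [hasFiniteIntegral_iff_norm]
  exact hb.trans_lt hC.lt_top

theorem trunc_aux {h : Ω → ℝ} (hm : AEStronglyMeasurable h ρ) {C : ℝ} (hC : 0 ≤ C)
    (hb : ∫⁻ ω, ENNReal.ofReal (h ω ^ 2) ∂ρ ≤ ENNReal.ofReal C) :
    Integrable h ρ ∧ ∀ K : ℝ, 0 < K → |∫ ω, h ω ∂ρ - ∫ ω, max (-K) (min (h ω) K) ∂ρ| ≤ C / K := by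
  have i2 : Integrable (fun ω => h ω ^ 2) ρ :=
    integrable_of_lint (hm.pow 2) ENNReal.ofReal_ne_top (by simpa only [abs_pow, sq_abs] using hb)
  have hI : ∫ ω, h ω ^ 2 ∂ρ ≤ C := by
    rw [← ofReal_integral_eq_lintegral_ofReal i2 (Eventually.of_forall fun _ => sq_nonneg _)] at hb
    exact (ENNReal.ofReal_le_ofReal_iff hC).1 hb
  have i1 : Integrable h ρ := ((integrable_const (1 : ℝ)).add i2).mono' hm
    (Eventually.of_forall fun ω => by
      rw [Real.norm_eq_abs, Pi.add_apply, ← sq_abs]; nlinarith [sq_nonneg (|h ω| - 1)])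
  refine ⟨i1, fun K hK => ?_⟩
  have mT : AEStronglyMeasurable (fun ω => max (-K) (min (h ω) K)) ρ :=
    (by fun_prop : Continuous fun t : ℝ => max (-K) (min t K)).comp_aestronglyMeasurable hm
  have iT : Integrable (fun ω => max (-K) (min (h ω) K)) ρ :=
    Integrable.of_bound mT K (Eventually.of_forall fun ω => by
      rw [Real.norm_eq_abs, abs_le]
      exact ⟨le_max_left _ _, max_le (by linarith) (min_le_right _ _)⟩)
  rw [← integral_sub i1 iT]
  refine (abs_integral_le_integral_abs).trans ((integral_mono (i1.sub iT).abs (i2.div_const K)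
    fun ω => ?_).trans ?_)
  · simp only [Pi.sub_apply]
    rw [le_div_iff₀ hK]
    rcases le_total (h ω) K with h1 | h1
    · rw [min_eq_left h1]
      rcases le_total (-K) (h ω) with h2 | h2
      · rw [max_eq_right h2]; simp [sq_nonneg]
      · rw [max_eq_left h2, abs_of_nonpos (by linarith)]; nlinarith
    · rw [min_eq_right h1, max_eq_right (by linarith), abs_of_nonneg (by linarith)]; nlinarith
  · rw [integral_div]
    exact div_le_div_of_nonneg_right hI hK.le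

theorem tendsto_integral_L2 {f : ℕ → Ω → ℝ} {g : Ω → ℝ} (hf : ∀ n, AEStronglyMeasurable (f n) ρ)
    {C : ℝ} (hb : ∀ n, ∫⁻ ω, ENNReal.ofReal (f n ω ^ 2) ∂ρ ≤ ENNReal.ofReal C)
    (hlim : ∀ᵐ ω ∂ρ, Tendsto (fun n => f n ω) atTop (𝓝 (g ω))) :
    Integrable g ρ ∧ Tendsto (fun n => ∫ ω, f n ω ∂ρ) atTop (𝓝 (∫ ω, g ω ∂ρ)) := by
  wlog hC : 0 ≤ C generalizing C
  · refine this (C := 0) (fun n => (hb n).trans ?_) le_rfl
    exact ENNReal.ofReal_le_ofReal (le_of_not_ge hC)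
  have hg : AEStronglyMeasurable g ρ := aestronglyMeasurable_of_tendsto_ae atTop hf hlim
  have hgb : ∫⁻ ω, ENNReal.ofReal (g ω ^ 2) ∂ρ ≤ ENNReal.ofReal C := by
    calc ∫⁻ ω, ENNReal.ofReal (g ω ^ 2) ∂ρ
        = ∫⁻ ω, liminf (fun n => ENNReal.ofReal (f n ω ^ 2)) atTop ∂ρ := by
          refine lintegral_congr_ae ?_
          filter_upwards [hlim] with ω hω
          exact ((ENNReal.continuous_ofReal.tendsto _).comp (hω.pow 2)).liminf_eq.symm
      _ ≤ liminf (fun n => ∫⁻ ω, ENNReal.ofReal (f n ω ^ 2) ∂ρ) atTop :=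
          lintegral_liminf_le' fun n => ((hf n).aemeasurable.pow_const 2).ennreal_ofReal
      _ ≤ ENNReal.ofReal C := liminf_le_of_frequently_le' (Frequently.of_forall hb)
  obtain ⟨ig, hg2⟩ := trunc_aux hg hC hgb
  refine ⟨ig, Metric.tendsto_atTop.2 fun ε hε => ?_⟩
  set K := 3 * (C + 1) / ε with hK
  have hK0 : 0 < K := by positivity
  have hCK : C / K < ε / 3 := by
    rw [div_lt_iff₀ hK0, hK]; field_simp; linarith
  have hc : Continuous fun t : ℝ => max (-K) (min t K) := by fun_prop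
  have h1 := tendsto_integral_of_dominated_convergence (μ := ρ)
    (F := fun n ω => max (-K) (min (f n ω) K)) (f := fun ω => max (-K) (min (g ω) K)) (fun _ => K)
    (fun n => hc.comp_aestronglyMeasurable (hf n)) (integrable_const K)
    (fun n => Eventually.of_forall fun ω => by
      rw [Real.norm_eq_abs, abs_le]
      exact ⟨le_max_left _ _, max_le (by linarith) (min_le_right _ _)⟩)
    (hlim.mono fun ω hω => (hc.tendsto _).comp hω)
  obtain ⟨n0, hn0⟩ := Metric.tendsto_atTop.1 h1 (ε / 3) (by positivity)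
  refine ⟨n0, fun n hn => ?_⟩
  have h2 := (trunc_aux (hf n) hC (hb n)).2 K hK0
  have h3 := hg2 K hK0
  have h4 := hn0 n hn
  rw [Real.dist_eq] at h4 ⊢
  rw [abs_lt] at h4 ⊢
  rw [abs_le] at h2 h3
  constructor <;> linarith [h2.1, h2.2, h3.1, h3.2, h4.1, h4.2]

omit [IsFiniteMeasure ρ] in
theorem ae_cauchy {f : ℕ → Ω → ℝ} (hf : ∀ n, Measurable (f n)) {c : ℝ}
    (hb : ∀ n, ∫⁻ ω, ENNReal.ofReal ((f (n + 1) ω - f n ω) ^ 2) ∂ρ ≤
      ENNReal.ofReal (c * (1 / 4) ^ n)) :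
    ∀ᵐ ω ∂ρ, ∃ l, Tendsto (fun n => f n ω) atTop (𝓝 l) := by
  wlog hc : 0 ≤ c generalizing c
  · refine this (c := 0) (fun n => (hb n).trans ?_) le_rfl
    exact ENNReal.ofReal_le_ofReal (mul_le_mul_of_nonneg_right (le_of_not_ge hc) (by positivity))
  have hm : ∀ n, Measurable fun ω => ENNReal.ofReal (2 ^ n * (f (n + 1) ω - f n ω) ^ 2) :=
    fun n => by fun_prop
  have h1 : ∫⁻ ω, ∑' n, ENNReal.ofReal (2 ^ n * (f (n + 1) ω - f n ω) ^ 2) ∂ρ ≠ ∞ := by
    rw [lintegral_tsum fun n => (hm n).aemeasurable]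
    have hs : Summable fun n : ℕ => c * (1 / 2 : ℝ) ^ n := summable_geometric_two.mul_left c
    refine ne_top_of_le_ne_top hs.tsum_ofReal_ne_top (ENNReal.tsum_le_tsum fun n => ?_)
    simp_rw [ENNReal.ofReal_mul (by positivity : (0 : ℝ) ≤ 2 ^ n)]
    rw [lintegral_const_mul _ (by fun_prop)]
    refine (mul_le_mul_right (hb n) _).trans (le_of_eq ?_)
    rw [← ENNReal.ofReal_mul (by positivity)]
    congr 1
    rw [mul_left_comm, ← mul_pow]; norm_num
  filter_upwards [ae_lt_top (Measurable.tsum hm) h1] with ω hω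
  have h2 : Summable fun n => 2 ^ n * (f (n + 1) ω - f n ω) ^ 2 := by
    have := ENNReal.summable_toReal hω.ne
    refine this.congr fun n => ENNReal.toReal_ofReal (by positivity)
  have h3 : Summable fun n => dist (f n ω) (f (n + 1) ω) := by
    have hs : Summable fun n : ℕ => ((3 / 4 : ℝ) ^ n) :=
      summable_geometric_of_lt_one (by norm_num) (by norm_num)
    refine (hs.add h2).of_nonneg_of_le (fun _ => dist_nonneg) fun n => ?_
    rw [dist_comm, Real.dist_eq, ← sq_abs]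
    set d := |f (n + 1) ω - f n ω|
    have hd : 0 ≤ d := abs_nonneg _
    have h4 : (1 : ℝ) ≤ 2 ^ n * (3 / 4) ^ n := by
      rw [← mul_pow]; exact one_le_pow₀ (by norm_num)
    have h5 : (0 : ℝ) < (3 / 4) ^ n := by positivity
    have h6 : (0 : ℝ) < 2 ^ n := by positivity
    rcases le_total d ((3 / 4) ^ n) with h | h
    · have : 0 ≤ 2 ^ n * d ^ 2 := by positivity
      linarith
    · have : 1 ≤ 2 ^ n * d := h4.trans (mul_le_mul_of_nonneg_left h h6.le)
      nlinarith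
  exact cauchySeq_tendsto_of_complete (cauchySeq_of_summable_dist h3)

end UI

section Disc

variable {N : ℕ} {Ω : Type} {mΩ : MeasurableSpace Ω}

/-- discrete time model: independent logarithmic steps, adapted choice of coordinate -/
structure Disc (ρ : Measure Ω) (G : Filtration ℕ mΩ) (X : ℕ → Ω → ℝ) (J : ℕ → Ω → Fin N)
    (v : ℝ≥0) (M : ℕ) : Prop where
  mX : ∀ k, Measurable[G (k + 1)] (X k)
  mJ : ∀ k, Measurable[G k] (J k)
  law : ∀ k < M, IL (G k) ρ (X k) (nu v)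

noncomputable def zeta (X : ℕ → Ω → ℝ) (J : ℕ → Ω → Fin N) (k : ℕ) (ω : Ω) : Fin N → ℝ :=
  ∑ l ∈ range k, Pi.single (J l ω) (X l ω)

theorem zeta_succ (X : ℕ → Ω → ℝ) (J : ℕ → Ω → Fin N) (k : ℕ) (ω : Ω) :
    zeta X J (k + 1) ω = zeta X J k ω + Pi.single (J k ω) (X k ω) := sum_range_succ _ _

theorem meas_single : Measurable fun p : Fin N × ℝ => (Pi.single p.1 p.2 : Fin N → ℝ) := by
  refine measurable_from_prod_countable_right fun j => measurable_pi_lambda _ fun i => ?_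
  by_cases h : i = j
  · subst h; simpa using measurable_id'
  · simp [h]

theorem meas_stepF {F : (Fin N → ℝ) → ℝ} (hF : Measurable F) :
    Measurable fun p : ((Fin N → ℝ) × Fin N) × ℝ => F (p.1.1 + Pi.single p.1.2 p.2) :=
  hF.comp (measurable_fst.fst.add (meas_single.comp (measurable_fst.snd.prodMk measurable_snd)))

variable {ρ : Measure Ω} {G : Filtration ℕ mΩ} {X : ℕ → Ω → ℝ} {J : ℕ → Ω → Fin N} {v : ℝ≥0}
  {M : ℕ}

theorem Disc.mz (h : Disc ρ G X J v M) (k : ℕ) : Measurable[G k] (zeta X J k) := by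
  refine @Finset.measurable_sum _ _ _ _ _ _ (G k) _ _ fun l hl => ?_
  have hl' := mem_range.1 hl
  exact meas_single.comp (((h.mJ l).mono (G.mono hl'.le) le_rfl).prodMk
    ((h.mX l).mono (G.mono hl') le_rfl))

theorem Disc.mz' (h : Disc ρ G X J v M) (k : ℕ) : Measurable (zeta X J k) :=
  (h.mz k).mono (G.le k) le_rfl

theorem Disc.moment [IsProbabilityMeasure ρ] (h : Disc ρ G X J v M) (p : ℝ) (i : Fin N) :
    ∀ k ≤ M, ∫⁻ ω, ENNReal.ofReal (exp (p * zeta X J k ω i)) ∂ρ ≤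
      ENNReal.ofReal (exp ((p ^ 2 + |p|) * (v * k))) := by
  intro k
  induction k with
  | zero => intro _; simp [zeta]
  | succ k ih =>
    intro hk
    have hF : Measurable fun ζ : Fin N → ℝ => exp (p * ζ i) := by fun_prop
    have h1 := (h.law k hk).lintegral (G.le k) ((h.mX k).mono (G.le _) le_rfl)
      ((h.mz k).prodMk (h.mJ k)) (meas_stepF hF).ennreal_ofReal
    simp only [zeta_succ]
    rw [h1]
    have hv0 : (0 : ℝ) ≤ v := v.2
    have h2 : ∀ (ζ : Fin N → ℝ) (j : Fin N),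
        ∫⁻ x, ENNReal.ofReal (exp (p * (ζ + Pi.single j x : Fin N → ℝ) i)) ∂nu v ≤
          ENNReal.ofReal (exp ((p ^ 2 + |p|) * v)) * ENNReal.ofReal (exp (p * ζ i)) := by
      intro ζ j
      rw [← ENNReal.ofReal_mul (exp_pos _).le]
      by_cases hij : i = j
      · subst hij
        simp only [Pi.add_apply, Pi.single_eq_same, mul_add, Real.exp_add]
        rw [← ofReal_integral_eq_lintegral_ofReal ((int_exp v p).const_mul _)
          (Eventually.of_forall fun x => by positivity), integral_const_mul, I_exp, mul_comm]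
        refine ENNReal.ofReal_le_ofReal (mul_le_mul_of_nonneg_right (Real.exp_le_exp.2 ?_)
          (exp_pos _).le)
        have := neg_abs_le p
        have := abs_nonneg p
        nlinarith [mul_nonneg (sq_nonneg p) hv0]
      · simp only [Pi.add_apply, ne_eq, hij, not_false_eq_true, Pi.single_eq_of_ne, add_zero,
          lintegral_const, measure_univ, mul_one]
        refine ENNReal.ofReal_le_ofReal (le_mul_of_one_le_left (exp_pos _).le ?_)
        exact Real.one_le_exp (by positivity)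
    refine (lintegral_mono fun ω => h2 (zeta X J k ω) (J k ω)).trans ?_
    have hm3 : Measurable fun ω => ENNReal.ofReal (exp (p * zeta X J k ω i)) :=
      (hF.comp (h.mz' k)).ennreal_ofReal
    rw [lintegral_const_mul _ hm3]
    refine (mul_le_mul_right (ih (by omega)) _).trans (le_of_eq ?_)
    rw [← ENNReal.ofReal_mul (exp_pos _).le, ← Real.exp_add]
    push_cast
    ring_nf

theorem exp_norm_le (ζ : Fin N → ℝ) {p : ℝ} (hp : 0 ≤ p) :
    exp (p * ‖ζ‖) ≤ 1 + ∑ i, (exp (p * ζ i) + exp (-p * ζ i)) := by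
  have hpos : ∀ i, 0 ≤ exp (p * ζ i) + exp (-p * ζ i) := fun i => by positivity
  rcases isEmpty_or_nonempty (Fin N) with hN | hN
  · simp [Subsingleton.elim ζ 0]
  obtain ⟨i, -, hi⟩ := exists_max_image univ (fun i => |ζ i|) univ_nonempty
  have h1 : ‖ζ‖ ≤ |ζ i| := (pi_norm_le_iff_of_nonneg (abs_nonneg _)).2 fun l => hi l (mem_univ _)
  have h2 := single_le_sum (f := fun i => exp (p * ζ i) + exp (-p * ζ i)) (fun i _ => hpos i)
    (mem_univ i)
  have h3 : exp (p * ‖ζ‖) ≤ exp (p * |ζ i|) := Real.exp_le_exp.2 (mul_le_mul_of_nonneg_left h1 hp)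
  have h4 : exp (p * |ζ i|) ≤ exp (p * ζ i) + exp (-p * ζ i) := by
    rcases le_total 0 (ζ i) with h | h
    · rw [abs_of_nonneg h]; linarith [exp_pos (-p * ζ i)]
    · rw [abs_of_nonpos h, mul_neg, ← neg_mul]; linarith [exp_pos (p * ζ i)]
  linarith

theorem Gr.bound {F : (Fin N → ℝ) → ℝ} (hF : Gr F) (T : ℝ) : ∃ C : ℝ,
    ∀ (ρ : Measure Ω) [IsProbabilityMeasure ρ] (G : Filtration ℕ mΩ) (X : ℕ → Ω → ℝ)
      (J : ℕ → Ω → Fin N) (v : ℝ≥0) (M : ℕ), Disc ρ G X J v M → ∀ k ≤ M, (v : ℝ) * k ≤ T →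
      ∫⁻ ω, ENNReal.ofReal |F (zeta X J k ω)| ∂ρ ≤ ENNReal.ofReal C := by
  obtain ⟨_, C, p, hC, hp, hb⟩ := hF
  refine ⟨C * (1 + ∑ _i : Fin N, (exp ((p ^ 2 + p) * T) + exp ((p ^ 2 + p) * T))), ?_⟩
  intro ρ _ G X J v M h k hk hT
  have hz := h.mz' k
  calc ∫⁻ ω, ENNReal.ofReal |F (zeta X J k ω)| ∂ρ
      ≤ ∫⁻ ω, ENNReal.ofReal C * (1 + ∑ i, (ENNReal.ofReal (exp (p * zeta X J k ω i)) +
          ENNReal.ofReal (exp (-p * zeta X J k ω i)))) ∂ρ := by
        refine lintegral_mono fun ω => ?_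
        refine (ENNReal.ofReal_le_ofReal ((hb _).trans
          (mul_le_mul_of_nonneg_left (exp_norm_le _ hp) hC))).trans (le_of_eq ?_)
        rw [ENNReal.ofReal_mul hC, ENNReal.ofReal_add zero_le_one (by positivity),
          ENNReal.ofReal_one, ENNReal.ofReal_sum_of_nonneg (fun i _ => by positivity)]
        simp only [ENNReal.ofReal_add (exp_pos _).le (exp_pos _).le]
    _ = ENNReal.ofReal C * (1 + ∑ i, (∫⁻ ω, ENNReal.ofReal (exp (p * zeta X J k ω i)) ∂ρ +
          ∫⁻ ω, ENNReal.ofReal (exp (-p * zeta X J k ω i)) ∂ρ)) := by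
        rw [lintegral_const_mul _ (by fun_prop), lintegral_add_left measurable_const,
          lintegral_finsetSum _ (fun i _ => by fun_prop)]
        simp only [lintegral_const, measure_univ, mul_one]
        congr 2
        exact sum_congr rfl fun i _ => lintegral_add_left (by fun_prop) _
    _ ≤ _ := by
        rw [ENNReal.ofReal_mul hC, ENNReal.ofReal_add zero_le_one (by positivity),
          ENNReal.ofReal_one, ENNReal.ofReal_sum_of_nonneg (fun i _ => by positivity)]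
        refine mul_le_mul_right (add_le_add_right (sum_le_sum fun i _ => ?_) _) _
        rw [ENNReal.ofReal_add (exp_pos _).le (exp_pos _).le]
        have h3 : exp ((p ^ 2 + p) * (v * k)) ≤ exp ((p ^ 2 + p) * T) :=
          Real.exp_le_exp.2 (mul_le_mul_of_nonneg_left hT (by positivity))
        refine add_le_add ((h.moment p i k hk).trans (ENNReal.ofReal_le_ofReal ?_))
          ((h.moment (-p) i k hk).trans (ENNReal.ofReal_le_ofReal ?_))
        · rwa [abs_of_nonneg hp]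
        · rwa [abs_neg, abs_of_nonneg hp, neg_sq]

variable [IsProbabilityMeasure ρ]

theorem Disc.int (h : Disc ρ G X J v M) {F : (Fin N → ℝ) → ℝ} (hF : Gr F) {k : ℕ} (hk : k ≤ M) :
    Integrable (fun ω => F (zeta X J k ω)) ρ := by
  obtain ⟨C, hC⟩ := hF.bound (mΩ := mΩ) (v * k)
  exact integrable_of_lint (hF.1.comp (h.mz' k)).aestronglyMeasurable ENNReal.ofReal_ne_top
    (hC ρ G X J v M h k hk le_rfl)

theorem meas_err {e : (Fin N → ℝ) → Fin N → ℝ} (he : ∀ j, Gr fun ζ => e ζ j) :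
    Measurable fun p : (Fin N → ℝ) × Fin N => e p.1 p.2 :=
  measurable_from_prod_countable_left fun j => (he j).1

theorem Disc.int_err (h : Disc ρ G X J v M) {e : (Fin N → ℝ) → Fin N → ℝ}
    (he : ∀ j, Gr fun ζ => e ζ j) {k : ℕ} (hk : k ≤ M) :
    Integrable (fun ω => e (zeta X J k ω) (J k ω)) ρ := by
  refine (h.int (Gr.sum univ fun j => (he j).abs) hk).mono'
    ((meas_err he).comp ((h.mz' k).prodMk ((h.mJ k).mono (G.le k) le_rfl))).aestronglyMeasurable
    (Eventually.of_forall fun ω => ?_)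
  exact single_le_sum (f := fun j => |e (zeta X J k ω) j|) (fun _ _ => abs_nonneg _) (mem_univ _)

theorem Disc.chain (h : Disc ρ G X J v M) {F : (Fin N → ℝ) → ℝ} (hF : Gr F)
    {e : (Fin N → ℝ) → Fin N → ℝ} (he : ∀ j, Gr fun ζ => e ζ j) (hs : Step v F e)
    {k0 : ℕ} {A : Set Ω} (hA : MeasurableSet[G k0] A) : ∀ k1, k0 ≤ k1 → k1 ≤ M →
    ∫ ω in A, F (zeta X J k1 ω) ∂ρ ≤ ∫ ω in A, F (zeta X J k0 ω) ∂ρ +
      ∑ k ∈ Ico k0 k1, ∫ ω in A, e (zeta X J k ω) (J k ω) ∂ρ := by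
  intro k1 h01
  induction k1, h01 using Nat.le_induction with
  | base => intro _; simp
  | succ k hk ih =>
    intro hM
    rw [sum_Ico_succ_top hk]
    have ih' := ih (by omega)
    suffices hh : ∫ ω in A, F (zeta X J (k + 1) ω) ∂ρ ≤ ∫ ω in A, F (zeta X J k ω) ∂ρ +
        ∫ ω in A, e (zeta X J k ω) (J k ω) ∂ρ by linarith
    have i1 := (h.int hF hM).integrableOn (s := A)
    simp only [zeta_succ] at i1 ⊢
    obtain ⟨h1, h2⟩ := ((h.law k hM).restrict (G.le k) (G.mono hk _ hA)).integral (G.le k)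
      ((h.mX k).mono (G.le _) le_rfl) ((h.mz k).prodMk (h.mJ k)) (meas_stepF hF.1) i1
    rw [h2, ← integral_add ((h.int hF (by omega)).integrableOn)
      ((h.int_err he (by omega)).integrableOn)]
    exact integral_mono h1 (((h.int hF (by omega)).integrableOn).add
      ((h.int_err he (by omega)).integrableOn)) fun ω => hs _ _

end Disc

end Pool.Agent.MP_96872c_an

end

section

open Finset Real MeasureTheory ProbabilityTheory Filter Topology
open scoped NNReal ENNReal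

namespace Pool.Agent.MP_96872c_an

variable {Ω : Type} {mΩ : MeasurableSpace Ω}

/-- Brownian increments with respect to a filtration up to time `T` -/
structure BMon (ρ : Measure Ω) (G : Filtration ℝ≥0 mΩ) (B : ℝ≥0 → Ω → ℝ) (T : ℝ≥0) : Prop where
  meas : ∀ t, Measurable[G t] (B t)
  law : ∀ s t, s ≤ t → t ≤ T → IL (G s) ρ (fun ω => B t ω - B s ω) (gaussianReal 0 (t - s))

/-- elementary integral along a partition -/
noncomputable def SI (p : ℕ → ℝ≥0) (K : ℕ → Ω → ℝ) (Z : ℝ≥0 → Ω → ℝ) (m : ℕ) (ω : Ω) : ℝ :=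
  ∑ k ∈ range m, K k ω * (Z (p (k + 1)) ω - Z (p k) ω)

/-- the time process -/
def tm : ℝ≥0 → Ω → ℝ := fun t _ => t

def Ad (G : Filtration ℝ≥0 mΩ) (p : ℕ → ℝ≥0) (K : ℕ → Ω → ℝ) : Prop :=
  ∀ k, p k < p (k + 1) → Measurable[G (p k)] (K k)

variable {ρ : Measure Ω} {G : Filtration ℝ≥0 mΩ} {B Z : ℝ≥0 → Ω → ℝ} {T : ℝ≥0} {p : ℕ → ℝ≥0}
  {K : ℕ → Ω → ℝ}

theorem SI_succ (p : ℕ → ℝ≥0) (K : ℕ → Ω → ℝ) (Z : ℝ≥0 → Ω → ℝ) (m : ℕ) (ω : Ω) :
    SI p K Z (m + 1) ω = SI p K Z m ω + K m ω * (Z (p (m + 1)) ω - Z (p m) ω) :=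
  sum_range_succ _ _

theorem Ad.sq (h : Ad G p K) : Ad G p fun k ω => K k ω ^ 2 := fun k hk => (h k hk).pow_const 2

theorem meas_tm (t : ℝ≥0) : Measurable[G t] (tm t : Ω → ℝ) := measurable_const

theorem SI_meas (hp : Monotone p) (hK : Ad G p K) (hZ : ∀ t, Measurable[G t] (Z t)) (m : ℕ) :
    Measurable[G (p m)] (SI p K Z m) := by
  refine @Finset.measurable_sum _ _ _ _ _ _ (G (p m)) _ _ fun k hk => ?_
  have hk' := mem_range.1 hk
  rcases (hp (Nat.le_succ k)).lt_or_eq with h | h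
  · exact ((hK k h).mono (G.mono (hp hk'.le)) le_rfl).mul
      (((hZ _).mono (G.mono (hp hk')) le_rfl).sub ((hZ _).mono (G.mono (hp hk'.le)) le_rfl))
  · simp only [Nat.succ_eq_add_one] at h
    simp only [← h, sub_self, mul_zero]
    exact measurable_const

/-- exponent of the elementary exponential martingale -/
noncomputable def ME (p : ℕ → ℝ≥0) (K : ℕ → Ω → ℝ) (B : ℝ≥0 → Ω → ℝ) (m : ℕ) (ω : Ω) : ℝ :=
  SI p K B m ω - SI p (fun k ω => K k ω ^ 2) tm m ω / 2

theorem ME_meas (hp : Monotone p) (hK : Ad G p K) (hZ : ∀ t, Measurable[G t] (Z t)) (m : ℕ) :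
    Measurable[G (p m)] (ME p K Z m) :=
  (SI_meas hp hK hZ m).sub ((SI_meas hp hK.sq meas_tm m).div_const 2)

theorem gauss_exp (d : ℝ≥0) (k : ℝ) :
    ∫⁻ x, ENNReal.ofReal (exp (k * x - k ^ 2 * d / 2)) ∂gaussianReal 0 d = 1 := by
  simp only [Real.exp_sub]
  rw [← ofReal_integral_eq_lintegral_ofReal ((integrable_exp_mul_gaussianReal k).div_const _)
    (Eventually.of_forall fun x => by positivity), integral_div]
  have h := congrFun (mgf_id_gaussianReal (μ := 0) (v := d)) k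
  simp only [mgf, id] at h
  rw [h, zero_mul, zero_add, mul_comm (d : ℝ), div_self (exp_pos _).ne', ENNReal.ofReal_one]

theorem gauss_sq (d : ℝ≥0) (a k : ℝ) :
    ∫⁻ x, ENNReal.ofReal ((a + k * x) ^ 2) ∂gaussianReal 0 d = ENNReal.ofReal (a ^ 2 + k ^ 2 * d) := by
  have h2 : MemLp (fun x : ℝ => x) 2 (gaussianReal 0 d) := memLp_id_gaussianReal 2
  have i1 : Integrable (fun x : ℝ => x) (gaussianReal 0 d) := h2.integrable (by norm_num)
  have i2 : Integrable (fun x : ℝ => x ^ 2) (gaussianReal 0 d) := h2.integrable_sq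
  have hv : ∫ x, x ^ 2 ∂gaussianReal 0 d = d := by
    have := variance_fun_id_gaussianReal (μ := 0) (v := d)
    rw [variance_eq_integral measurable_id'.aemeasurable] at this
    simpa using this
  have e : ∀ x : ℝ, (a + k * x) ^ 2 = a ^ 2 + 2 * a * k * x + k ^ 2 * x ^ 2 := fun x => by ring
  have i3 : Integrable (fun x : ℝ => a ^ 2 + 2 * a * k * x) (gaussianReal 0 d) :=
    (integrable_const _).add (i1.const_mul _)
  have i4 : Integrable (fun x : ℝ => (a + k * x) ^ 2) (gaussianReal 0 d) := by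
    simp only [e]; exact i3.add (i2.const_mul _)
  rw [← ofReal_integral_eq_lintegral_ofReal i4 (Eventually.of_forall fun x => sq_nonneg _)]
  simp only [e]
  rw [integral_add i3 (i2.const_mul _), integral_add (integrable_const _) (i1.const_mul _),
    integral_const_mul, integral_const_mul, hv, integral_id_gaussianReal]
  simp

variable [IsFiniteMeasure ρ]

theorem expmart (hB : BMon ρ G B T) (hp : Monotone p) (hT : ∀ k, p k ≤ T) (hK : Ad G p K)
    {g : Ω → ℝ≥0∞} (hg : Measurable[G (p 0)] g) (m : ℕ) :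
    ∫⁻ ω, g ω * ENNReal.ofReal (exp (ME p K B m ω)) ∂ρ = ∫⁻ ω, g ω ∂ρ := by
  induction m with
  | zero => simp [ME, SI]
  | succ m ih =>
    rw [← ih]
    have hle := hp (Nat.le_succ m)
    rcases hle.lt_or_eq with h | h
    · have hξ : Measurable[G (p m)] fun ω =>
          (g ω * ENNReal.ofReal (exp (ME p K B m ω)), K m ω) :=
        ((hg.mono (G.mono (hp (Nat.zero_le m))) le_rfl).mul
          (ME_meas hp hK hB.meas m).exp.ennreal_ofReal).prodMk (hK m h)
      have hX : Measurable fun ω => B (p (m + 1)) ω - B (p m) ω :=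
        ((hB.meas _).mono (G.le _) le_rfl).sub ((hB.meas _).mono (G.le _) le_rfl)
      have h1 := (hB.law _ _ hle (hT _)).lintegral (G.le _) hX hξ
        (f := fun q : (ℝ≥0∞ × ℝ) × ℝ => q.1.1 * ENNReal.ofReal
          (exp (q.1.2 * q.2 - q.1.2 ^ 2 * (p (m + 1) - p m : ℝ≥0) / 2))) (by fun_prop)
      simp only at h1
      have h2 : ∀ ω, g ω * ENNReal.ofReal (exp (ME p K B (m + 1) ω)) =
          g ω * ENNReal.ofReal (exp (ME p K B m ω)) * ENNReal.ofReal
            (exp (K m ω * (B (p (m + 1)) ω - B (p m) ω) -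
              K m ω ^ 2 * (p (m + 1) - p m : ℝ≥0) / 2)) := by
        intro ω
        rw [mul_assoc, ← ENNReal.ofReal_mul (exp_pos _).le, ← Real.exp_add, NNReal.coe_sub hle]
        simp only [ME, SI_succ, tm]
        congr 3
        ring
      simp only [h2]
      rw [h1]
      refine lintegral_congr fun ω => ?_
      rw [lintegral_const_mul _ (by fun_prop), gauss_exp, mul_one]
    · simp only [Nat.succ_eq_add_one] at h
      simp [ME, SI_succ, ← h]

theorem SI_time_nonneg (hp : Monotone p) (hK : ∀ k ω, 0 ≤ K k ω) (m : ℕ) (ω : Ω) :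
    0 ≤ SI p K tm m ω :=
  sum_nonneg fun k _ => mul_nonneg (hK k ω) (sub_nonneg.2 (NNReal.coe_le_coe.2 (hp (Nat.le_succ k))))

theorem isometry (hB : BMon ρ G B T) (hp : Monotone p) (hT : ∀ k, p k ≤ T) (hK : Ad G p K)
    (m : ℕ) : ∫⁻ ω, ENNReal.ofReal (SI p K B m ω ^ 2) ∂ρ =
      ∫⁻ ω, ENNReal.ofReal (SI p (fun k ω => K k ω ^ 2) tm m ω) ∂ρ := by
  induction m with
  | zero => simp [SI]
  | succ m ih =>
    have hle := hp (Nat.le_succ m)
    rcases hle.lt_or_eq with h | h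
    · have hS := SI_meas hp hK hB.meas m
      have hξ : Measurable[G (p m)] fun ω => (SI p K B m ω, K m ω) := hS.prodMk (hK m h)
      have hX : Measurable fun ω => B (p (m + 1)) ω - B (p m) ω :=
        ((hB.meas _).mono (G.le _) le_rfl).sub ((hB.meas _).mono (G.le _) le_rfl)
      have h1 := (hB.law _ _ hle (hT _)).lintegral (G.le _) hX hξ
        (f := fun q : (ℝ × ℝ) × ℝ => ENNReal.ofReal ((q.1.1 + q.1.2 * q.2) ^ 2)) (by fun_prop)
      simp only [gauss_sq] at h1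
      simp only [SI_succ]
      rw [h1]
      have hd : (0 : ℝ) ≤ (p (m + 1) : ℝ) - p m := sub_nonneg.2 (NNReal.coe_le_coe.2 hle)
      have hS' : Measurable (SI p K B m) := hS.mono (G.le _) le_rfl
      have hV : Measurable (SI p (fun k ω => K k ω ^ 2) tm m) :=
        (SI_meas hp hK.sq meas_tm m).mono (G.le _) le_rfl
      simp only [NNReal.coe_sub hle, tm]
      have e1 : ∀ ω, ENNReal.ofReal (SI p K B m ω ^ 2 + K m ω ^ 2 * ((p (m + 1) : ℝ) - p m)) =
          ENNReal.ofReal (SI p K B m ω ^ 2) + ENNReal.ofReal (K m ω ^ 2 * ((p (m + 1) : ℝ) - p m)) :=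
        fun ω => ENNReal.ofReal_add (sq_nonneg _) (by positivity)
      have e2 : ∀ ω, ENNReal.ofReal (SI p (fun k ω => K k ω ^ 2) tm m ω +
          K m ω ^ 2 * ((p (m + 1) : ℝ) - p m)) =
          ENNReal.ofReal (SI p (fun k ω => K k ω ^ 2) tm m ω) +
            ENNReal.ofReal (K m ω ^ 2 * ((p (m + 1) : ℝ) - p m)) :=
        fun ω => ENNReal.ofReal_add (SI_time_nonneg hp (fun _ _ => sq_nonneg _) m ω) (by positivity)
      simp only [Nat.succ_eq_add_one, e1, e2]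
      rw [lintegral_add_left (hS'.pow_const 2).ennreal_ofReal, lintegral_add_left hV.ennreal_ofReal,
        ih]
    · simp only [Nat.succ_eq_add_one] at h
      simpa [SI_succ, ← h] using ih

theorem map_eq_of_mgf {X : Ω → ℝ} (hX : Measurable X) (d : ℝ≥0)
    (h : ∀ θ : ℝ, ∫ ω, exp (θ * X ω) ∂ρ = ρ.real Set.univ * exp (θ ^ 2 * d / 2)) :
    ρ.map X = ρ Set.univ • gaussianReal 0 d := by
  have : IsFiniteMeasure (ρ Set.univ • gaussianReal 0 d) := ⟨by simp⟩
  have h1 : mgf id (ρ Set.univ • gaussianReal 0 d) = mgf X ρ := by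
    funext θ
    rw [mgf_smul_measure, mgf_id_gaussianReal, mgf, h θ]
    simp only [zero_mul, zero_add, mul_comm (d : ℝ)]
    rfl
  have h2 := eqOn_complexMGF_of_mgf' h1 (by
    simp [IsProbabilityMeasure.ne_zero (gaussianReal 0 d)])
  have h3 : integrableExpSet id (ρ Set.univ • gaussianReal 0 d) = Set.univ :=
    Set.eq_univ_of_forall fun t => (integrable_exp_mul_gaussianReal t).smul_measure
      (measure_ne_top _ _)
  rw [h3, interior_univ] at h2
  have h4 := Measure.ext_of_complexMGF_eq aemeasurable_id hX.aemeasurable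
    (funext fun z => h2 (Set.mem_univ _))
  rw [Measure.map_id] at h4
  exact h4.symm

end Pool.Agent.MP_96872c_an

namespace Pool.Agent.MP_96872c_an

variable {Ω : Type}

theorem agree_step (𝒜 : MeasurableSpace Ω) {mΩ : MeasurableSpace Ω} {ρ₁ ρ₂ : Measure Ω}
    [IsFiniteMeasure ρ₁] [IsFiniteMeasure ρ₂] {X : Ω → ℝ} {ν : Measure ℝ}
    [IsProbabilityMeasure ν] (hle : 𝒜 ≤ mΩ) (hX : Measurable X) (h1 : IL 𝒜 ρ₁ X ν)
    (h2 : IL 𝒜 ρ₂ X ν) (h : ∀ A, MeasurableSet[𝒜] A → ρ₁ A = ρ₂ A) :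
    ∀ A, MeasurableSet[𝒜 ⊔ MeasurableSpace.comap X inferInstance] A → ρ₁ A = ρ₂ A := by
  have hid : @Measurable Ω Ω 𝒜 𝒜 id := @measurable_id Ω 𝒜
  have hid' : @Measurable Ω Ω mΩ 𝒜 id := hid.mono hle le_rfl
  have e1 := @IL.map_prod Ω Ω 𝒜 mΩ ρ₁ X ν 𝒜 _ _ id h1 hle hX hid
  have e2 := @IL.map_prod Ω Ω 𝒜 mΩ ρ₂ X ν 𝒜 _ _ id h2 hle hX hid
  have e3 : @Measure.map Ω Ω mΩ 𝒜 id ρ₁ = @Measure.map Ω Ω mΩ 𝒜 id ρ₂ := by
    refine @Measure.ext Ω 𝒜 _ _ fun s hs => ?_
    rw [Measure.map_apply hid' hs, Measure.map_apply hid' hs]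
    exact h s hs
  rw [e3, ← e2] at e1
  intro A hA
  have e4 := @MeasurableSpace.comap_prodMk Ω Ω ℝ 𝒜 inferInstance id X
  rw [MeasurableSpace.comap_id] at e4
  rw [← e4] at hA
  obtain ⟨B, hB, rfl⟩ := hA
  have hm : @Measurable Ω (Ω × ℝ) mΩ (𝒜.prod inferInstance) fun ω => (id ω, X ω) := hid'.prodMk hX
  rw [← Measure.map_apply hm hB, ← Measure.map_apply hm hB]
  exact congrArg (fun μ : @Measure (Ω × ℝ) (𝒜.prod inferInstance) => μ B) e1

variable {mΩ : MeasurableSpace Ω}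

theorem agree_natural {Y : ℝ≥0 → Ω → ℝ} {hY : ∀ t, StronglyMeasurable (Y t)} {T : ℝ≥0}
    {ρ₁ ρ₂ : Measure Ω} [IsProbabilityMeasure ρ₁] [IsProbabilityMeasure ρ₂]
    (h1 : BMon ρ₁ (Filtration.natural Y hY) Y T) (h2 : BMon ρ₂ (Filtration.natural Y hY) Y T)
    (z1 : ∀ᵐ ω ∂ρ₁, Y 0 ω = 0) (z2 : ∀ᵐ ω ∂ρ₂, Y 0 ω = 0) :
    ∀ A, MeasurableSet[Filtration.natural Y hY T] A → ρ₁ A = ρ₂ A := by
  classical
  set G := Filtration.natural Y hY with hG
  have key : ∀ I : Finset ℝ≥0, (∀ t ∈ I, t ≤ T) → ∃ s ≤ T, (s = 0 ∨ s ∈ I) ∧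
      ∃ 𝒜 : MeasurableSpace Ω, 𝒜 ≤ G s ∧ Measurable[𝒜] (Y s) ∧ (∀ t ∈ I, Measurable[𝒜] (Y t)) ∧
        ∀ A, MeasurableSet[𝒜] A → ρ₁ A = ρ₂ A := by
    intro I
    induction I using Finset.induction_on_max with
    | empty =>
      intro _
      refine ⟨0, zero_le, Or.inl rfl, MeasurableSpace.comap (Y 0) inferInstance,
        (h1.meas 0).comap_le, Measurable.of_comap_le le_rfl, by simp, ?_⟩
      rintro A ⟨B, hB, rfl⟩
      have : ∀ (ρ : Measure Ω) [IsProbabilityMeasure ρ], (∀ᵐ ω ∂ρ, Y 0 ω = 0) →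
          ρ (Y 0 ⁻¹' B) = if (0 : ℝ) ∈ B then 1 else 0 := by
        intro ρ _ z
        split_ifs with h0
        · rw [← measure_univ (μ := ρ)]
          refine measure_congr (z.mono fun ω hω => ?_)
          change (Y 0 ω ∈ B) = True
          simp [hω, h0]
        · rw [← measure_empty (μ := ρ)]
          refine measure_congr (z.mono fun ω hω => ?_)
          change (Y 0 ω ∈ B) = False
          simp [hω, h0]
      rw [this ρ₁ z1, this ρ₂ z2]
    | insert a I ha ih =>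
      intro hI
      obtain ⟨s, hsT, hs, 𝒜, hle, hs', hI', hag⟩ := ih fun t ht => hI t (mem_insert_of_mem ht)
      have hsa : s ≤ a := by
        rcases hs with rfl | hs
        · exact zero_le
        · exact (ha s hs).le
      have haT := hI a (mem_insert_self _ _)
      have hX : Measurable[G a] fun ω => Y a ω - Y s ω :=
        (h1.meas a).sub ((h1.meas s).mono (G.mono hsa) le_rfl)
      have hX' : Measurable[𝒜 ⊔ MeasurableSpace.comap (fun ω => Y a ω - Y s ω) inferInstance]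
          fun ω => Y a ω - Y s ω := Measurable.of_comap_le le_sup_right
      have hYa : Measurable[𝒜 ⊔ MeasurableSpace.comap (fun ω => Y a ω - Y s ω) inferInstance]
          (Y a) := by
        have := hX'.add (hs'.mono le_sup_left le_rfl)
        convert this using 1
        funext ω
        simp
      refine ⟨a, haT, Or.inr (mem_insert_self _ _), _, sup_le (hle.trans (G.mono hsa)) hX.comap_le,
        hYa, fun t ht => ?_, agree_step 𝒜 (hle.trans (G.le s)) (hX.mono (G.le a) le_rfl)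
          ((h1.law s a hsa haT).mono hle) ((h2.law s a hsa haT).mono hle) hag⟩
      rcases mem_insert.1 ht with rfl | ht
      · exact hYa
      · exact (hI' t ht).mono le_sup_left le_rfl
  let m : Finset (Set.Iic T) → MeasurableSpace Ω := fun I =>
    ⨆ t ∈ I, MeasurableSpace.comap (Y t) inferInstance
  have hmono : Monotone m := fun I I' h => biSup_mono h
  have hgen : G T = MeasurableSpace.generateFrom (⋃ I, {A | MeasurableSet[m I] A}) := by
    refine Eq.trans ?_ (MeasurableSpace.generateFrom_iUnion_measurableSet m).symm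
    refine le_antisymm (iSup₂_le fun t ht => le_iSup_of_le {⟨t, ht⟩} ?_) (iSup_le fun I => ?_)
    · exact le_iSup₂_of_le (⟨t, ht⟩ : Set.Iic T) (mem_singleton_self _) le_rfl
    · exact iSup₂_le fun t _ => ((h1.meas t).comap_le).trans (G.mono t.2)
  intro A hA
  refine ext_on_measurableSpace_of_generate_finite mΩ _ ?_ (G.le T) hgen
    (isPiSystem_iUnion_of_monotone _ (fun I => @MeasurableSpace.isPiSystem_measurableSet Ω (m I))
      fun I I' h => hmono h) (by simp) hA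
  intro B hB
  obtain ⟨I, hB⟩ := Set.mem_iUnion.1 hB
  obtain ⟨s, -, -, 𝒜, -, -, hI', hag⟩ := key (I.image (↑)) fun t ht => by
    obtain ⟨u, -, rfl⟩ := mem_image.1 ht
    exact u.2
  have : m I ≤ 𝒜 := iSup₂_le fun t ht => (hI' t (mem_image_of_mem _ ht)).comap_le
  exact hag B (this _ hB)

end Pool.Agent.MP_96872c_an

end

section

open Finset Real MeasureTheory ProbabilityTheory Filter Topology
open scoped NNReal ENNReal

namespace Pool.Agent.MP_96872c_an

variable {Ω : Type}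

noncomputable def grid (n k : ℕ) : ℝ≥0 := (k : ℝ≥0) / 2 ^ n

theorem grid_coe (n k : ℕ) : (grid n k : ℝ) = k / 2 ^ n := by simp [grid]

theorem grid_mono (n : ℕ) : Monotone (grid n) := fun a b h => by
  rw [← NNReal.coe_le_coe, grid_coe, grid_coe]
  exact div_le_div_of_nonneg_right (by exact_mod_cast h) (by positivity)

theorem grid_zero (n : ℕ) : grid n 0 = 0 := by simp [grid]

theorem grid_mul_pow (n d k : ℕ) : grid (n + d) (k * 2 ^ d) = grid n k := by
  rw [← NNReal.coe_inj, grid_coe, grid_coe]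
  push_cast
  rw [pow_add]
  field_simp

theorem grid_nat (n m : ℕ) : grid n (m * 2 ^ n) = m := by
  have := grid_mul_pow 0 n m
  rw [zero_add] at this
  rw [this]; simp [grid]

theorem grid_succ (n k : ℕ) : (grid n (k + 1) : ℝ) - grid n k = 1 / 2 ^ n := by
  rw [grid_coe, grid_coe]; push_cast; ring

theorem grid_succ' (n k : ℕ) : grid n (k + 1) - grid n k = grid n 1 := by
  rw [← NNReal.coe_inj, NNReal.coe_sub (grid_mono n (Nat.le_succ k)), grid_succ, grid_coe]
  simp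

/-- grid clamped to `[a, b]` -/
noncomputable def pc (n : ℕ) (a b : ℝ≥0) (k : ℕ) : ℝ≥0 := max a (min (grid n k) b)

theorem pc_mono (n : ℕ) (a b : ℝ≥0) : Monotone (pc n a b) := fun _ _ h =>
  max_le_max le_rfl (min_le_min (grid_mono n h) le_rfl)

theorem pc_le (n : ℕ) {a b : ℝ≥0} (h : a ≤ b) (k : ℕ) : pc n a b k ≤ b :=
  max_le h (min_le_right _ _)

theorem pc_zero (n : ℕ) (a b : ℝ≥0) : pc n a b 0 = a := by simp [pc, grid_zero]

theorem pc_top {n m : ℕ} {a b : ℝ≥0} (h : a ≤ b) (hm : b ≤ grid n m) : pc n a b m = b := by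
  simp [pc, min_eq_right hm, h]

theorem pc_lt {n k : ℕ} {a b : ℝ≥0} (h : pc n a b k < pc n a b (k + 1)) :
    grid n k ≤ pc n a b k ∧ pc n a b (k + 1) ≤ grid n (k + 1) := by
  have h1 := grid_mono n (Nat.le_succ k)
  simp only [Nat.succ_eq_add_one] at h1
  unfold pc at *
  constructor
  · rcases le_total (grid n k) b with h2 | h2
    · rw [min_eq_left h2]; exact le_max_right _ _
    · rw [min_eq_right h2, min_eq_right (h2.trans h1)] at h; exact absurd h (lt_irrefl _)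
  · rcases le_total a (grid n (k + 1)) with h2 | h2
    · exact max_le h2 (min_le_left _ _)
    · rw [max_eq_left ((min_le_left _ _).trans h2)] at h
      exact absurd h (not_lt.2 (le_max_left _ _))

theorem ad_pc {mΩ : MeasurableSpace Ω} {G : Filtration ℝ≥0 mΩ} {n : ℕ} {K : ℕ → Ω → ℝ}
    (hK : ∀ k, Measurable[G (grid n k)] (K k)) (a b : ℝ≥0) : Ad G (pc n a b) K :=
  fun k hk => (hK k).mono (G.mono (pc_lt hk).1) le_rfl

theorem SI_split (n : ℕ) {a b c : ℝ≥0} (hab : a ≤ b) (hbc : b ≤ c) (K : ℕ → Ω → ℝ)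
    (Z : ℝ≥0 → Ω → ℝ) (m : ℕ) (ω : Ω) :
    SI (pc n a c) K Z m ω = SI (pc n a b) K Z m ω + SI (pc n b c) K Z m ω := by
  have key : ∀ k, Z (pc n a c k) ω = Z (pc n a b k) ω + Z (pc n b c k) ω - Z b ω := by
    intro k
    unfold pc
    rcases le_total (grid n k) b with h | h
    · rw [min_eq_left h, min_eq_left (h.trans hbc), max_eq_left h]; ring
    · rw [min_eq_right h, max_eq_right hab, max_eq_right (le_min h hbc),
        max_eq_right (hab.trans (le_min h hbc))]; ring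
  simp only [SI, ← sum_add_distrib, key]
  exact sum_congr rfl fun k _ => by ring

theorem SI_const (p : ℕ → ℝ≥0) (θ : ℝ) (Z : ℝ≥0 → Ω → ℝ) (m : ℕ) (ω : Ω) :
    SI p (fun _ _ => θ) Z m ω = θ * (Z (p m) ω - Z (p 0) ω) := by
  simp only [SI, ← mul_sum]
  rw [sum_range_sub (fun k => Z (p k) ω)]

theorem SI_lin (p : ℕ → ℝ≥0) (α β : ℝ) (K K' : ℕ → Ω → ℝ) (Z : ℝ≥0 → Ω → ℝ) (m : ℕ) (ω : Ω) :
    SI p (fun k ω => α * K k ω + β * K' k ω) Z m ω = α * SI p K Z m ω + β * SI p K' Z m ω := by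
  simp only [SI, mul_sum, ← sum_add_distrib]
  exact sum_congr rfl fun k _ => by ring

theorem SI_linZ (p : ℕ → ℝ≥0) (α β : ℝ) (K : ℕ → Ω → ℝ) (Z Z' : ℝ≥0 → Ω → ℝ) (m : ℕ) (ω : Ω) :
    SI p K (fun t ω => α * Z t ω + β * Z' t ω) m ω = α * SI p K Z m ω + β * SI p K Z' m ω := by
  simp only [SI, mul_sum, ← sum_add_distrib]
  exact sum_congr rfl fun k _ => by ring

theorem SI_refine1 (n : ℕ) (a b : ℝ≥0) (K : ℕ → Ω → ℝ) (Z : ℝ≥0 → Ω → ℝ) (ω : Ω) (m : ℕ) :
    SI (pc (n + 1) a b) (fun k => K (k / 2)) Z (m * 2) ω = SI (pc n a b) K Z m ω := by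
  have key : ∀ k, pc (n + 1) a b (k * 2) = pc n a b k := fun k => by
    have := grid_mul_pow n 1 k
    rw [pow_one] at this
    simp only [pc, this]
  induction m with
  | zero => simp [SI]
  | succ m ih =>
    have e : (m + 1) * 2 = m * 2 + 1 + 1 := by ring
    rw [SI_succ, ← ih, ← key, ← key, e, SI_succ, SI_succ]
    have e1 : m * 2 / 2 = m := by omega
    have e2 : (m * 2 + 1) / 2 = m := by omega
    simp only [e1, e2]
    ring

theorem SI_refine (n : ℕ) (a b : ℝ≥0) (K : ℕ → Ω → ℝ) (Z : ℝ≥0 → Ω → ℝ) (ω : Ω) (m d : ℕ) :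
    SI (pc (n + d) a b) (fun k => K (k / 2 ^ d)) Z (m * 2 ^ d) ω = SI (pc n a b) K Z m ω := by
  induction d with
  | zero => simp
  | succ d ih =>
    rw [← ih, ← SI_refine1 (n + d), pow_succ, mul_assoc]
    congr 1
    funext k
    rw [Nat.div_div_eq_div_mul, mul_comm]

theorem floor_refine (n d : ℕ) (s : ℝ) : ⌊s * 2 ^ (n + d)⌋₊ / 2 ^ d = ⌊s * 2 ^ n⌋₊ := by
  rw [← Nat.floor_div_natCast]
  congr 1
  push_cast
  rw [pow_add]
  field_simp

theorem grid_div_le (n d k : ℕ) : grid n (k / 2 ^ d) ≤ grid (n + d) k := by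
  rw [← grid_mul_pow n d]
  exact grid_mono _ (Nat.div_mul_le_self _ _)

theorem meas_step (n : ℕ) (c : ℕ → ℝ) : Measurable fun s : ℝ => c ⌊s * 2 ^ n⌋₊ :=
  (measurable_from_nat (f := c)).comp (Nat.measurable_floor.comp (by fun_prop))

theorem ii_bdd {f : ℝ → ℝ} (hf : Measurable f) {C : ℝ} (hb : ∀ s, |f s| ≤ C) (a b : ℝ) :
    IntervalIntegrable f volume a b := by
  refine (intervalIntegrable_const (c := C)).mono_fun' hf.aestronglyMeasurable
    (Eventually.of_forall fun s => hb s)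

theorem SI_integral {n m : ℕ} {a b : ℝ≥0} (hab : a ≤ b) (hm : b ≤ grid n m) {K : ℕ → Ω → ℝ}
    {Z : ℝ≥0 → Ω → ℝ} {ω : Ω} {ψ : ℝ → ℝ} (hψ : Measurable ψ) (hψb : ∀ s, |ψ s| ≤ 1) {C : ℝ}
    (hK : ∀ k, |K k ω| ≤ C) (hZ : ∀ t : ℝ≥0, Z t ω = ∫ s in (0 : ℝ)..t, ψ s) :
    SI (pc n a b) K Z m ω = ∫ s in (a : ℝ)..b, K ⌊s * 2 ^ n⌋₊ ω * ψ s := by
  have hi : ∀ x y : ℝ, IntervalIntegrable (fun s => K ⌊s * 2 ^ n⌋₊ ω * ψ s) volume x y :=
    ii_bdd ((meas_step n fun k => K k ω).mul hψ) (C := C) fun s => by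
      rw [abs_mul]
      calc _ ≤ C * 1 := mul_le_mul (hK _) (hψb s) (abs_nonneg _) ((abs_nonneg _).trans (hK 0))
        _ = C := mul_one C
  have h1 := intervalIntegral.sum_integral_adjacent_intervals (μ := volume)
    (f := fun s => K ⌊s * 2 ^ n⌋₊ ω * ψ s) (a := fun k => (pc n a b k : ℝ)) (n := m)
    fun k _ => hi _ _
  simp only [pc_zero, pc_top hab hm] at h1
  rw [← h1]
  refine sum_congr rfl fun k _ => ?_
  rw [hZ, hZ, intervalIntegral.integral_interval_sub_left (ii_bdd hψ hψb _ _) (ii_bdd hψ hψb _ _),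
    ← intervalIntegral.integral_const_mul]
  have hle := pc_mono n a b (Nat.le_succ k)
  rcases hle.lt_or_eq with h | h
  · obtain ⟨h2, h3⟩ := pc_lt h
    have hle' : (pc n a b k : ℝ) ≤ pc n a b (k + 1) := NNReal.coe_le_coe.2 hle
    rw [intervalIntegral.integral_of_le hle', intervalIntegral.integral_of_le hle',
      integral_Ioc_eq_integral_Ioo, integral_Ioc_eq_integral_Ioo]
    refine setIntegral_congr_fun measurableSet_Ioo fun s hs => ?_
    have h4 : (k : ℝ) / 2 ^ n ≤ s := by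
      rw [← grid_coe]; exact (NNReal.coe_le_coe.2 h2).trans hs.1.le
    have h5 : s < ((k + 1 : ℕ) : ℝ) / 2 ^ n := by
      rw [← grid_coe]; exact hs.2.trans_le (NNReal.coe_le_coe.2 h3)
    rw [div_le_iff₀ (by positivity)] at h4
    rw [lt_div_iff₀ (by positivity)] at h5
    have : ⌊s * 2 ^ n⌋₊ = k := by
      rw [Nat.floor_eq_iff ((Nat.cast_nonneg k).trans h4)]
      exact ⟨h4, by exact_mod_cast h5⟩
    simp only [this]
  · simp only [Nat.succ_eq_add_one] at h
    simp [← h]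

theorem SI_time {n m : ℕ} {a b : ℝ≥0} (hab : a ≤ b) (hm : b ≤ grid n m) {K : ℕ → Ω → ℝ}
    {ω : Ω} {C : ℝ} (hK : ∀ k, |K k ω| ≤ C) :
    SI (pc n a b) K tm m ω = ∫ s in (a : ℝ)..b, K ⌊s * 2 ^ n⌋₊ ω := by
  simpa using SI_integral (Z := tm) (ψ := fun _ => 1) hab hm measurable_const (by simp) hK
    (by simp [tm])

theorem SI_grid (n : ℕ) {k m : ℕ} (hk : k ≤ m) (K : ℕ → Ω → ℝ) (Z : ℝ≥0 → Ω → ℝ) (ω : Ω) :
    SI (pc n 0 (grid n k)) K Z m ω =
      ∑ l ∈ range k, K l ω * (Z (grid n (l + 1)) ω - Z (grid n l) ω) := by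
  unfold SI
  rw [← sum_range_add_sum_Ico _ hk]
  have h1 : ∀ l ≤ k, pc n 0 (grid n k) l = grid n l := fun l hl => by
    simp [pc, min_eq_left (grid_mono n hl)]
  have h2 : ∀ l, k ≤ l → pc n 0 (grid n k) l = grid n k := fun l hl => by
    simp [pc, min_eq_right (grid_mono n hl)]
  rw [sum_eq_zero (s := Ico k m) fun l hl => by
    rw [h2 l (mem_Ico.1 hl).1, h2 (l + 1) ((mem_Ico.1 hl).1.trans (Nat.le_succ l))]; simp, add_zero]
  exact sum_congr rfl fun l hl => by
    rw [h1 l (mem_range.1 hl).le, h1 (l + 1) (mem_range.1 hl)]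

theorem SI_time_le {n m : ℕ} {a b : ℝ≥0} (hab : a ≤ b) {K : ℕ → Ω → ℝ} {ω : Ω} {C : ℝ}
    (hC : 0 ≤ C) (hK : ∀ k, K k ω ≤ C) : SI (pc n a b) K tm m ω ≤ C * b := by
  have h1 : SI (pc n a b) K tm m ω ≤ SI (pc n a b) (fun _ _ => C) tm m ω :=
    sum_le_sum fun k _ => mul_le_mul_of_nonneg_right (hK k)
      (sub_nonneg.2 (NNReal.coe_le_coe.2 (pc_mono n a b (Nat.le_succ k))))
  rw [SI_const] at h1
  refine h1.trans (mul_le_mul_of_nonneg_left ?_ hC)
  have h2 : (pc n a b m : ℝ) ≤ b := NNReal.coe_le_coe.2 (pc_le n hab m)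
  have h3 : (0 : ℝ) ≤ pc n a b 0 := NNReal.coe_nonneg _
  simp only [tm]
  linarith

end Pool.Agent.MP_96872c_an

end

section

open Finset Real MeasureTheory ProbabilityTheory Filter Topology
open scoped NNReal ENNReal

namespace Pool.Agent.MP_96872c_an

variable {N : ℕ} {Ω : Type} {mΩ : MeasurableSpace Ω} {G : Filtration ℝ≥0 mΩ}
  {J : ℝ≥0 → Ω → Fin N}

theorem prog_clip (hJ : IsProgressive G J) (t : ℝ≥0) :
    @Measurable (ℝ × Ω) (Fin N) (MeasurableSpace.prod inferInstance (G t)) _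
      fun q => J (min q.1.toNNReal t) q.2 := by
  let _ : MeasurableSpace Ω := G t
  have h1 : Measurable fun q : ℝ × Ω =>
      ((⟨min q.1.toNNReal t, Set.mem_Iic.2 (min_le_right _ _)⟩ : Set.Iic t), q.2) :=
    (Measurable.subtype_mk ((measurable_real_toNNReal.comp measurable_fst).min
      measurable_const)).prodMk measurable_snd
  exact (hJ t).comp h1

theorem prog_joint (hJ : IsProgressive G J) :
    Measurable fun q : ℝ × Ω => J q.1.toNNReal q.2 := by
  intro U hU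
  have : (fun q : ℝ × Ω => J q.1.toNNReal q.2) ⁻¹' U =
      ⋃ n : ℕ, {q : ℝ × Ω | q.1 ≤ (n : ℝ)} ∩ (fun q : ℝ × Ω => J (min q.1.toNNReal n) q.2) ⁻¹' U := by
    ext q
    simp only [Set.mem_preimage, Set.mem_iUnion, Set.mem_inter_iff, Set.mem_ofPred_eq]
    have key : ∀ n : ℕ, q.1 ≤ n → min q.1.toNNReal n = q.1.toNNReal := fun n hn =>
      min_eq_left (Real.toNNReal_le_iff_le_coe.2 (by simpa using hn))
    constructor
    · intro h
      obtain ⟨n, hn⟩ := exists_nat_ge q.1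
      exact ⟨n, hn, by rwa [key n hn]⟩
    · rintro ⟨n, hn, h⟩
      rwa [key n hn] at h
  rw [this]
  refine MeasurableSet.iUnion fun n => (measurableSet_le measurable_fst measurable_const).inter ?_
  have h1 : Measurable fun q : ℝ × Ω => J (min q.1.toNNReal n) q.2 := by
    refine (prog_clip hJ n).mono ?_ le_rfl
    exact sup_le_sup le_rfl (MeasurableSpace.comap_mono (G.le n))
  exact h1 hU

/-- indicator that box `j` is observed -/
noncomputable def HH (J : ℝ≥0 → Ω → Fin N) (j : Fin N) (ω : Ω) (s : ℝ) : ℝ :=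
  if J s.toNNReal ω = j then 1 else 0

/-- occupation time of box `j` -/
noncomputable def DD (J : ℝ≥0 → Ω → Fin N) (j : Fin N) (t : ℝ≥0) (ω : Ω) : ℝ :=
  ∫ s in (0 : ℝ)..t, HH J j ω s

theorem meas_path (hJ : IsProgressive G J) (ω : Ω) : Measurable fun s : ℝ => J s.toNNReal ω :=
  (prog_joint hJ).comp (measurable_id.prodMk measurable_const)

theorem meas_HH (hJ : IsProgressive G J) (j : Fin N) (ω : Ω) : Measurable (HH J j ω) :=
  (Measurable.of_discrete (f := fun i : Fin N => if i = j then (1 : ℝ) else 0)).comp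
    (meas_path hJ ω)

theorem HH_abs (j : Fin N) (ω : Ω) (s : ℝ) : |HH J j ω s| ≤ 1 := by
  unfold HH; split_ifs <;> simp

theorem meas_DD (hJ : IsProgressive G J) (j : Fin N) (t : ℝ≥0) : Measurable[G t] (DD J j t) := by
  have h0 := prog_clip hJ t
  let _ : MeasurableSpace Ω := G t
  have h1 : Measurable fun q : ℝ × Ω => if J (min q.1.toNNReal t) q.2 = j then (1 : ℝ) else 0 :=
    (Measurable.of_discrete (f := fun i : Fin N => if i = j then (1 : ℝ) else 0)).comp h0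
  have h2 := (h1.stronglyMeasurable.integral_prod_left'
    (μ := volume.restrict (Set.Ioc (0 : ℝ) t))).measurable
  convert h2 using 1
  funext ω
  unfold DD
  rw [intervalIntegral.integral_of_le t.coe_nonneg]
  refine setIntegral_congr_fun measurableSet_Ioc fun s hs => ?_
  simp only [HH, min_eq_left (Real.toNNReal_le_iff_le_coe.2 hs.2)]

noncomputable def pick (j0 : Fin N) (b : Fin N → Bool) : Fin N :=
  if h : ∃ j, b j = true then h.choose else j0

theorem pick_eq (j0 : Fin N) {b : Fin N → Bool} {i : Fin N} (h : ∀ j, b j = true ↔ j = i) :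
    pick j0 b = i := by
  have h1 : ∃ j, b j = true := ⟨i, (h i).2 rfl⟩
  rw [pick, dif_pos h1]
  exact (h _).1 h1.choose_spec

open Classical in
/-- the simple policy at level `n` -/
noncomputable def Jn (J : ℝ≥0 → Ω → Fin N) (j0 : Fin N) (n k : ℕ) (ω : Ω) : Fin N :=
  pick j0 fun j => decide (1 / 2 < 2 ^ n * (DD J j (grid n k) ω - DD J j (grid n (k - 1)) ω))

theorem meas_Jn (hJ : IsProgressive G J) (j0 : Fin N) (n k : ℕ) :
    Measurable[G (grid n k)] (Jn J j0 n k) := by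
  classical
  have h1 : ∀ j, Measurable[G (grid n k)] fun ω =>
      (2 : ℝ) ^ n * (DD J j (grid n k) ω - DD J j (grid n (k - 1)) ω) := fun j =>
    ((meas_DD hJ j _).sub ((meas_DD hJ j _).mono (G.mono (grid_mono n (Nat.sub_le k 1)))
      le_rfl)).const_mul _
  let _ : MeasurableSpace Ω := G (grid n k)
  refine (Measurable.of_discrete (f := pick j0)).comp (measurable_pi_lambda _ fun j => ?_)
  refine measurable_to_bool ?_
  have := measurableSet_lt (measurable_const (a := (1 / 2 : ℝ))) (h1 j)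
  convert this using 1
  ext ω
  simp

theorem Jn_conv (hJ : IsProgressive G J) (j0 : Fin N) (ω : Ω) :
    ∀ᵐ s : ℝ, 0 < s → ∀ᶠ n in atTop, Jn J j0 n ⌊s * 2 ^ n⌋₊ ω = J s.toNNReal ω := by
  classical
  have hloc : ∀ j, LocallyIntegrable (HH J j ω) volume := fun j =>
    (locallyIntegrable_const (1 : ℝ)).mono (meas_HH hJ j ω).aestronglyMeasurable
      (Eventually.of_forall fun s => by simpa using HH_abs j ω s)
  have h := ae_all_iff.2 fun j => IsUnifLocDoublingMeasure.ae_tendsto_average volume (hloc j) 3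
  filter_upwards [h] with s hs hs0
  have hbig : ∀ᶠ n : ℕ in atTop, 1 ≤ s * 2 ^ n :=
    (Tendsto.const_mul_atTop hs0 (tendsto_pow_atTop_atTop_of_one_lt one_lt_two)).eventually_ge_atTop 1
  have key : ∀ j, Tendsto (fun n : ℕ => (2 : ℝ) ^ n * (DD J j (grid n ⌊s * 2 ^ n⌋₊) ω -
      DD J j (grid n (⌊s * 2 ^ n⌋₊ - 1)) ω)) atTop (𝓝 (HH J j ω s)) := by
    intro j
    have hδ : Tendsto (fun n : ℕ => (1 / 2 : ℝ) * (1 / 2) ^ n) atTop (𝓝[>] 0) := by
      refine tendsto_nhdsWithin_iff.2 ⟨?_, Eventually.of_forall fun n => ?_⟩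
      · have := (tendsto_pow_atTop_nhds_zero_of_lt_one (by norm_num : (0 : ℝ) ≤ 1 / 2)
          (by norm_num)).const_mul (1 / 2)
        rwa [mul_zero] at this
      · exact Set.mem_Ioi.2 (by positivity)
    have h1 := hs j (fun n : ℕ => ((⌊s * 2 ^ n⌋₊ : ℝ) - 1 / 2) * (1 / 2) ^ n) _ hδ
      (Eventually.of_forall fun n => by
        have h2 := Nat.floor_le (by positivity : 0 ≤ s * 2 ^ n)
        have h3 := Nat.lt_floor_add_one (s * 2 ^ n)
        have h4 : s = s * 2 ^ n * (1 / 2) ^ n := by rw [mul_assoc, ← mul_pow]; simp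
        have h5 : (0 : ℝ) < (1 / 2) ^ n := by positivity
        rw [Metric.mem_closedBall, Real.dist_eq, abs_le]
        constructor <;> nlinarith)
    refine h1.congr' ?_
    filter_upwards [hbig] with n hn
    have hk : 1 ≤ ⌊s * 2 ^ n⌋₊ := Nat.le_floor (by exact_mod_cast hn)
    set k := ⌊s * 2 ^ n⌋₊
    have e1 : ((k : ℝ) - 1 / 2) * (1 / 2) ^ n - 1 / 2 * (1 / 2) ^ n = grid n (k - 1) := by
      rw [grid_coe, Nat.cast_sub hk, one_div_pow]; push_cast; ring
    have e2 : ((k : ℝ) - 1 / 2) * (1 / 2) ^ n + 1 / 2 * (1 / 2) ^ n = grid n k := by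
      rw [grid_coe, one_div_pow]; ring
    have hle : (grid n (k - 1) : ℝ) ≤ grid n k := NNReal.coe_le_coe.2 (grid_mono n (Nat.sub_le k 1))
    have e3 : (grid n k : ℝ) - grid n (k - 1) = (2 ^ n)⁻¹ := by
      rw [← e1, ← e2, one_div_pow]; ring
    rw [Real.closedBall_eq_Icc, e1, e2, setAverage_eq, integral_Icc_eq_integral_Ioc,
      ← intervalIntegral.integral_of_le hle, Real.volume_real_Icc_of_le hle, e3, inv_inv,
      smul_eq_mul]
    unfold DD
    rw [intervalIntegral.integral_interval_sub_left (ii_bdd (meas_HH hJ j ω) (HH_abs j ω) _ _)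
      (ii_bdd (meas_HH hJ j ω) (HH_abs j ω) _ _)]
  have h2 : ∀ j, ∀ᶠ n : ℕ in atTop, (1 / 2 < (2 : ℝ) ^ n * (DD J j (grid n ⌊s * 2 ^ n⌋₊) ω -
      DD J j (grid n (⌊s * 2 ^ n⌋₊ - 1)) ω) ↔ j = J s.toNNReal ω) := by
    intro j
    by_cases hj : J s.toNNReal ω = j
    · have h3 : HH J j ω s = 1 := if_pos hj
      filter_upwards [(key j).eventually (lt_mem_nhds (by rw [h3]; norm_num : 1 / 2 < HH J j ω s))]
        with n hn
      exact ⟨fun _ => hj.symm, fun _ => hn⟩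
    · have h3 : HH J j ω s = 0 := if_neg hj
      filter_upwards [(key j).eventually (gt_mem_nhds (by rw [h3]; norm_num : HH J j ω s < 1 / 2))]
        with n hn
      exact ⟨fun h => absurd h (not_lt.2 hn.le), fun h => absurd h.symm hj⟩
  filter_upwards [eventually_all.2 h2] with n hn
  exact pick_eq j0 fun j => by simpa using hn j

/-- time during which the simple policy differs from the policy -/
noncomputable def ee (J : ℝ≥0 → Ω → Fin N) (n : ℕ) (c : ℕ → Ω → Fin N) (T : ℝ≥0) (ω : Ω) : ℝ :=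
  ∫ s in (0 : ℝ)..T, if c ⌊s * 2 ^ n⌋₊ ω = J s.toNNReal ω then (0 : ℝ) else 1

theorem meas_ee_joint (hJ : IsProgressive G J) (n : ℕ) {c : ℕ → Ω → Fin N}
    (hc : ∀ k, Measurable (c k)) : Measurable fun q : ℝ × Ω =>
      if c ⌊q.1 * 2 ^ n⌋₊ q.2 = J q.1.toNNReal q.2 then (0 : ℝ) else 1 := by
  have h1 : Measurable fun q : ℕ × Ω => c q.1 q.2 := measurable_from_prod_countable_right hc
  have h2 : Measurable fun q : ℝ × Ω => c ⌊q.1 * 2 ^ n⌋₊ q.2 :=
    h1.comp ((Nat.measurable_floor.comp (measurable_fst.mul_const _)).prodMk measurable_snd)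
  exact (Measurable.of_discrete
    (f := fun i : Fin N × Fin N => if i.1 = i.2 then (0 : ℝ) else 1)).comp (h2.prodMk (prog_joint hJ))

theorem meas_ee (hJ : IsProgressive G J) (n : ℕ) {c : ℕ → Ω → Fin N}
    (hc : ∀ k, Measurable (c k)) (T : ℝ≥0) : Measurable (ee J n c T) := by
  have h2 := ((meas_ee_joint hJ n hc).stronglyMeasurable.integral_prod_left'
    (μ := volume.restrict (Set.Ioc (0 : ℝ) T))).measurable
  convert h2 using 1
  funext ω
  exact intervalIntegral.integral_of_le T.coe_nonneg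

theorem meas_ee_path (hJ : IsProgressive G J) (n : ℕ) (c : ℕ → Ω → Fin N) (ω : Ω) :
    Measurable fun s : ℝ => if c ⌊s * 2 ^ n⌋₊ ω = J s.toNNReal ω then (0 : ℝ) else 1 := by
  have h2 : Measurable fun s : ℝ => c ⌊s * 2 ^ n⌋₊ ω :=
    (measurable_from_nat (f := fun k => c k ω)).comp (Nat.measurable_floor.comp (by fun_prop))
  exact (Measurable.of_discrete
    (f := fun i : Fin N × Fin N => if i.1 = i.2 then (0 : ℝ) else 1)).comp (h2.prodMk (meas_path hJ ω))

theorem ee_bdd (n : ℕ) (c : ℕ → Ω → Fin N) (T : ℝ≥0) (ω : Ω) : |ee J n c T ω| ≤ T := by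
  have := intervalIntegral.norm_integral_le_of_norm_le_const (a := 0) (b := T) (C := 1)
    (f := fun s : ℝ => if c ⌊s * 2 ^ n⌋₊ ω = J s.toNNReal ω then (0 : ℝ) else 1)
    fun s _ => by split_ifs <;> simp
  simpa [ee] using this

theorem abs_int_le_ee (hJ : IsProgressive G J) (n : ℕ) (c : ℕ → Ω → Fin N) {a b T : ℝ≥0}
    (hab : a ≤ b) (hb : b ≤ T) (ω : Ω) {f : ℝ → ℝ}
    (hf : ∀ s, |f s| ≤ if c ⌊s * 2 ^ n⌋₊ ω = J s.toNNReal ω then (0 : ℝ) else 1) :
    |∫ s in (a : ℝ)..b, f s| ≤ ee J n c T ω := by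
  have hi := ii_bdd (meas_ee_path hJ n c ω) (C := 1) fun s => by split_ifs <;> simp
  refine (intervalIntegral.norm_integral_le_of_norm_le (f := f) (NNReal.coe_le_coe.2 hab)
    (Eventually.of_forall fun s _ => hf s) (hi _ _)).trans ?_
  exact intervalIntegral.integral_mono_interval a.coe_nonneg (NNReal.coe_le_coe.2 hab)
    (NNReal.coe_le_coe.2 hb) (Eventually.of_forall fun s => by
      simp only [Pi.zero_apply]; split_ifs <;> simp) (hi _ _)

theorem tendsto_int_zero {f : ℕ → ℝ → ℝ} (hf : ∀ r, Measurable (f r)) (hb : ∀ r s, |f r s| ≤ 1)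
    (T : ℝ≥0) (h : ∀ᵐ s : ℝ, 0 < s → s ≤ T → Tendsto (fun r => f r s) atTop (𝓝 0)) :
    Tendsto (fun r => ∫ s in (0 : ℝ)..T, f r s) atTop (𝓝 0) := by
  simp only [intervalIntegral.integral_of_le T.coe_nonneg]
  have := tendsto_integral_of_dominated_convergence (μ := volume.restrict (Set.Ioc (0 : ℝ) T))
    (F := f) (f := fun _ => 0) (fun _ => 1) (fun r => (hf r).aestronglyMeasurable)
    (integrable_const 1) (fun r => Eventually.of_forall (hb r))
    ((ae_restrict_iff' measurableSet_Ioc).2 (h.mono fun s hs hs' => hs hs'.1 hs'.2))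
  simpa using this

theorem ee_tendsto (hJ : IsProgressive G J) {n : ℕ → ℕ} {c : ℕ → ℕ → Ω → Fin N} (T : ℝ≥0) {ω : Ω}
    (h : ∀ᵐ s : ℝ, 0 < s → ∀ᶠ r in atTop, c r ⌊s * 2 ^ n r⌋₊ ω = J s.toNNReal ω) :
    Tendsto (fun r => ee J (n r) (c r) T ω) atTop (𝓝 0) :=
  tendsto_int_zero (fun r => meas_ee_path hJ _ _ ω) (fun r s => by split_ifs <;> simp) T
    (h.mono fun s hs h0 _ => tendsto_const_nhds.congr' ((hs h0).mono fun r hr => by simp [hr]))

/-- a rapidly converging sequence of simple policies -/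
structure Apx (P : Measure Ω) (G : Filtration ℝ≥0 mΩ) (J : ℝ≥0 → Ω → Fin N) (T : ℝ≥0)
    (n : ℕ → ℕ) (c : ℕ → ℕ → Ω → Fin N) : Prop where
  mono : StrictMono n
  meas : ∀ r k, Measurable[G (grid (n r) k)] (c r k)
  conv : ∀ ω, ∀ᵐ s : ℝ, 0 < s → ∀ᶠ r in atTop, c r ⌊s * 2 ^ n r⌋₊ ω = J s.toNNReal ω
  fast : ∀ r, ∫⁻ ω, ENNReal.ofReal (ee J (n r) (c r) T ω) ∂P ≤ ENNReal.ofReal ((1 / 4) ^ r)

theorem exists_apx (P : Measure Ω) [IsProbabilityMeasure P] (hJ : IsProgressive G J) (j0 : Fin N)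
    (T : ℝ≥0) : ∃ n c, Apx P G J T n c := by
  have hm : ∀ n, Measurable (ee J n (Jn J j0 n) T) := fun n =>
    meas_ee hJ n (fun k => (meas_Jn hJ j0 n k).mono (G.le _) le_rfl) T
  have h1 := tendsto_lintegral_of_dominated_convergence (μ := P)
    (F := fun n ω => ENNReal.ofReal (ee J n (Jn J j0 n) T ω)) (f := fun _ => 0)
    (fun _ => ENNReal.ofReal T) (fun n => (hm n).ennreal_ofReal)
    (fun n => Eventually.of_forall fun ω =>
      ENNReal.ofReal_le_ofReal ((le_abs_self _).trans (ee_bdd _ _ _ _))) (by simp)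
    (Eventually.of_forall fun ω => by
      simpa using ENNReal.tendsto_ofReal (ee_tendsto hJ (n := id) T (Jn_conv hJ j0 ω)))
  rw [lintegral_zero] at h1
  obtain ⟨n, hn, hb⟩ := extraction_forall_of_eventually
    (P := fun r n => ∫⁻ ω, ENNReal.ofReal (ee J n (Jn J j0 n) T ω) ∂P ≤
      ENNReal.ofReal ((1 / 4) ^ r)) fun r =>
      h1.eventually (ge_mem_nhds (ENNReal.ofReal_pos.2 (by positivity)))
  exact ⟨n, fun r => Jn J j0 (n r), hn, fun r k => meas_Jn hJ j0 _ _,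
    fun ω => (Jn_conv hJ j0 ω).mono fun s hs h0 => hn.tendsto_atTop.eventually (hs h0), hb⟩

end Pool.Agent.MP_96872c_an

end

section

open Finset Real MeasureTheory ProbabilityTheory Filter Topology
open scoped NNReal ENNReal

namespace Pool.Agent.MP_96872c_an

variable {N : ℕ} {Ω : Type} {mΩ : MeasurableSpace Ω} {G : Filtration ℝ≥0 mΩ}
  {J : ℝ≥0 → Ω → Fin N}

/-- indicator that the simple policy observes box `j` -/
noncomputable def ph (c : ℕ → Ω → Fin N) (j : Fin N) (k : ℕ) (ω : Ω) : ℝ :=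
  if c k ω = j then 1 else 0

theorem ph_abs (c : ℕ → Ω → Fin N) (j : Fin N) (k : ℕ) (ω : Ω) : |ph c j k ω| ≤ 1 := by
  unfold ph; split_ifs <;> simp

theorem ph_meas {m : MeasurableSpace Ω} {c : ℕ → Ω → Fin N} {k : ℕ} (hc : Measurable[m] (c k))
    (j : Fin N) : Measurable[m] (ph c j k) :=
  (Measurable.of_discrete (f := fun i : Fin N => if i = j then (1 : ℝ) else 0)).comp hc

/-- elementary integral of the indicator -/
noncomputable def II (m n : ℕ) (c : ℕ → Ω → Fin N) (j : Fin N) (a b : ℝ≥0) (Z : ℝ≥0 → Ω → ℝ)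
    (ω : Ω) : ℝ := SI (pc n a b) (ph c j) Z (m * 2 ^ n) ω

/-- approximate log likelihood -/
noncomputable def zr (μ : ℝ) (Y : ℝ≥0 → Ω → ℝ) (m n : ℕ) (c : ℕ → Ω → Fin N) (j : Fin N)
    (a : ℝ≥0) (ω : Ω) : ℝ := μ * II m n c j 0 a Y ω - μ ^ 2 / 2 * II m n c j 0 a tm ω

/-- log likelihood -/
noncomputable def zl (μ : ℝ) (Y : ℝ≥0 → Ω → ℝ) (m : ℕ) (n : ℕ → ℕ) (c : ℕ → ℕ → Ω → Fin N)
    (j : Fin N) (a : ℝ≥0) (ω : Ω) : ℝ := limUnder atTop fun r => zr μ Y m (n r) (c r) j a ω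

theorem II_meas {n : ℕ} {c : ℕ → Ω → Fin N} (hc : ∀ k, Measurable[G (grid n k)] (c k)) (m : ℕ)
    (j : Fin N) {a b : ℝ≥0} (hab : a ≤ b) {Z : ℝ≥0 → Ω → ℝ} (hZ : ∀ t, Measurable[G t] (Z t)) :
    Measurable[G b] (II m n c j a b Z) :=
  (SI_meas (pc_mono n a b) (ad_pc (fun k => ph_meas (hc k) j) a b) hZ _).mono
    (G.mono (pc_le n hab _)) le_rfl

theorem zr_meas {n : ℕ} {c : ℕ → Ω → Fin N} (hc : ∀ k, Measurable[G (grid n k)] (c k)) (μ : ℝ)
    {Y : ℝ≥0 → Ω → ℝ} (hY : ∀ t, Measurable[G t] (Y t)) (m : ℕ) (j : Fin N) (a : ℝ≥0) :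
    Measurable[G a] (zr μ Y m n c j a) :=
  ((II_meas hc m j zero_le hY).const_mul _).sub ((II_meas hc m j zero_le meas_tm).const_mul _)

theorem zl_meas {n : ℕ → ℕ} {c : ℕ → ℕ → Ω → Fin N}
    (hc : ∀ r k, Measurable[G (grid (n r) k)] (c r k)) (μ : ℝ)
    {Y : ℝ≥0 → Ω → ℝ} (hY : ∀ t, Measurable[G t] (Y t)) (m : ℕ) (j : Fin N) (a : ℝ≥0) :
    Measurable[G a] (zl μ Y m n c j a) := by
  have h := fun r => zr_meas (hc r) μ hY m j a
  let _ : MeasurableSpace Ω := G a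
  exact (StronglyMeasurable.limUnder (l := atTop) fun r => (h r).stronglyMeasurable).measurable

theorem zr_zero (μ : ℝ) (Y : ℝ≥0 → Ω → ℝ) (m n : ℕ) (c : ℕ → Ω → Fin N) (j : Fin N) (ω : Ω) :
    zr μ Y m n c j 0 ω = 0 := by
  simp [zr, II, SI, pc]

theorem zl_zero (μ : ℝ) (Y : ℝ≥0 → Ω → ℝ) (m : ℕ) (n : ℕ → ℕ) (c : ℕ → ℕ → Ω → Fin N)
    (j : Fin N) (ω : Ω) : zl μ Y m n c j 0 ω = 0 := by
  simp only [zl, zr_zero]
  exact tendsto_const_nhds.limUnder_eq

theorem DD_sub (hJ : IsProgressive G J) (j : Fin N) (a b : ℝ≥0) (ω : Ω) :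
    DD J j b ω - DD J j a ω = ∫ s in (a : ℝ)..b, HH J j ω s :=
  intervalIntegral.integral_interval_sub_left (ii_bdd (meas_HH hJ j ω) (HH_abs j ω) _ _)
    (ii_bdd (meas_HH hJ j ω) (HH_abs j ω) _ _)

theorem II_tm_close (hJ : IsProgressive G J) {m : ℕ} (n : ℕ) (c : ℕ → Ω → Fin N) (j : Fin N)
    {a b : ℝ≥0} (hab : a ≤ b) (hb : b ≤ m) (ω : Ω) :
    |II m n c j a b tm ω - (DD J j b ω - DD J j a ω)| ≤ ee J n c m ω := by
  unfold II
  rw [SI_time hab (by rwa [grid_nat]) (fun k => ph_abs c j k ω), DD_sub hJ,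
    ← intervalIntegral.integral_sub (ii_bdd (meas_step n fun k => ph c j k ω)
      (fun s => ph_abs c j _ ω) _ _) (ii_bdd (meas_HH hJ j ω) (HH_abs j ω) _ _)]
  refine abs_int_le_ee hJ n c hab hb ω fun s => ?_
  unfold ph HH
  split_ifs with h1 h2 h3 h3 h2 h3 <;> simp_all

theorem II_DD_close (hJ : IsProgressive G J) {m : ℕ} (n : ℕ) (c : ℕ → Ω → Fin N) (j : Fin N)
    {a b : ℝ≥0} (hab : a ≤ b) (hb : b ≤ m) (ω : Ω) :
    |II m n c j a b (DD J j) ω - (DD J j b ω - DD J j a ω)| ≤ ee J n c m ω := by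
  unfold II
  rw [SI_integral hab (by rwa [grid_nat]) (meas_HH hJ j ω) (HH_abs j ω) (fun k => ph_abs c j k ω)
    (fun t => rfl), DD_sub hJ,
    ← intervalIntegral.integral_sub (ii_bdd (f := fun s => ph c j ⌊s * 2 ^ n⌋₊ ω * HH J j ω s)
      ((meas_step n fun k => ph c j k ω).mul (meas_HH hJ j ω)) (C := 1) (fun s => by
        rw [abs_mul]; exact mul_le_one₀ (ph_abs c j _ ω) (abs_nonneg _) (HH_abs j ω s)) _ _)
      (ii_bdd (meas_HH hJ j ω) (HH_abs j ω) _ _)]
  refine abs_int_le_ee hJ n c hab hb ω fun s => ?_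
  unfold ph HH
  split_ifs with h1 h2 h3 h3 h2 h3 <;> simp_all

theorem II_DD_close' (hJ : IsProgressive G J) {m : ℕ} (n : ℕ) (c : ℕ → Ω → Fin N) (i j : Fin N)
    {a b : ℝ≥0} (hab : a ≤ b) (hb : b ≤ m) (ω : Ω) :
    |II m n c i a b (DD J j) ω - ∫ s in (a : ℝ)..b, HH J i ω s * HH J j ω s| ≤ ee J n c m ω := by
  have m1 := meas_step n fun k => ph c i k ω
  have m2 := meas_HH hJ i ω
  have m3 := meas_HH hJ j ω
  unfold II
  rw [SI_integral hab (by rwa [grid_nat]) m3 (HH_abs j ω) (fun k => ph_abs c i k ω)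
    (fun t => rfl), ← intervalIntegral.integral_sub
    (ii_bdd (by fun_prop) (C := 1) (fun s => by simp only [ph, HH]; split_ifs <;> simp) _ _)
    (ii_bdd (by fun_prop) (C := 1) (fun s => by simp only [HH]; split_ifs <;> simp) _ _)]
  refine abs_int_le_ee hJ n c hab hb ω fun s => ?_
  unfold ph HH
  split_ifs <;> simp_all

theorem tendsto_of_close {f e : ℕ → ℝ} {x : ℝ} (h : ∀ r, |f r - x| ≤ e r)
    (he : Tendsto e atTop (𝓝 0)) : Tendsto f atTop (𝓝 x) :=
  tendsto_iff_dist_tendsto_zero.2 (squeeze_zero (fun _ => dist_nonneg) h he)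

theorem II_split (m n : ℕ) (c : ℕ → Ω → Fin N) (j : Fin N) {a b d : ℝ≥0} (hab : a ≤ b)
    (hbd : b ≤ d) (Z : ℝ≥0 → Ω → ℝ) (ω : Ω) :
    II m n c j a d Z ω = II m n c j a b Z ω + II m n c j b d Z ω := SI_split n hab hbd _ _ _ _

theorem II_sub (m n : ℕ) (c : ℕ → Ω → Fin N) (j : Fin N) (a b : ℝ≥0) (μ : ℝ)
    (Y D : ℝ≥0 → Ω → ℝ) (ω : Ω) :
    II m n c j a b (fun t ω => Y t ω - μ * D t ω) ω =
      II m n c j a b Y ω - μ * II m n c j a b D ω := by
  have := SI_linZ (pc n a b) 1 (-μ) (ph c j) Y D (m * 2 ^ n) ω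
  simp only [one_mul, neg_mul, ← sub_eq_add_neg] at this
  exact this

theorem ME_ph {m : ℕ} (n : ℕ) (c : ℕ → Ω → Fin N) (j : Fin N) {a b : ℝ≥0} (hab : a ≤ b)
    (hb : b ≤ m) (θ μ : ℝ) (B : ℝ≥0 → Ω → ℝ) (ω : Ω) :
    ME (pc n a b) (fun k ω => θ - μ * ph c j k ω) B (m * 2 ^ n) ω =
      θ * (B b ω - B a ω) - θ ^ 2 * ((b : ℝ) - a) / 2 - μ * II m n c j a b B ω +
        (θ * μ - μ ^ 2 / 2) * II m n c j a b tm ω := by
  have e1 : (fun k ω => θ - μ * ph c j k ω) = fun k ω => 1 * θ + -μ * ph c j k ω := by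
    funext k ω; ring
  have e2 : (fun k ω => (θ - μ * ph c j k ω) ^ 2) =
      fun k ω => 1 * θ ^ 2 + (μ ^ 2 - 2 * θ * μ) * ph c j k ω := by
    funext k ω; unfold ph; split_ifs <;> ring
  unfold ME
  rw [e2, e1, SI_lin _ 1 _ (fun _ _ => θ), SI_lin _ 1 _ (fun _ _ => θ ^ 2), SI_const, SI_const,
    pc_zero, pc_top hab (by rwa [grid_nat])]
  simp only [II, tm]
  ring

variable {ρ : Measure Ω} {B : ℝ≥0 → Ω → ℝ}

theorem three_phase [IsFiniteMeasure ρ] {T : ℝ≥0} (hB : BMon ρ G B T) {n : ℕ} (M : ℕ)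
    {K1 K2 K3 : ℕ → Ω → ℝ} (h1 : ∀ k, Measurable[G (grid n k)] (K1 k))
    (h2 : ∀ k, Measurable[G (grid n k)] (K2 k)) (h3 : ∀ k, Measurable[G (grid n k)] (K3 k))
    {s t u : ℝ≥0} (hst : s ≤ t) (htu : t ≤ u) (hu : u ≤ T) {g : Ω → ℝ≥0∞}
    (hg : Measurable[G s] g) :
    ∫⁻ ω, g ω * ENNReal.ofReal (exp (ME (pc n 0 s) K1 B M ω + ME (pc n s t) K2 B M ω +
      ME (pc n t u) K3 B M ω)) ∂ρ = ∫⁻ ω, g ω * ENNReal.ofReal (exp (ME (pc n 0 s) K1 B M ω)) ∂ρ := by
  have m1 : Measurable[G s] (ME (pc n 0 s) K1 B M) :=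
    (ME_meas (pc_mono n _ _) (ad_pc h1 _ _) hB.meas M).mono (G.mono (pc_le n zero_le _)) le_rfl
  have m2 : Measurable[G t] (ME (pc n s t) K2 B M) :=
    (ME_meas (pc_mono n _ _) (ad_pc h2 _ _) hB.meas M).mono (G.mono (pc_le n hst _)) le_rfl
  have g1 : Measurable[G s] fun ω => g ω * ENNReal.ofReal (exp (ME (pc n 0 s) K1 B M ω)) :=
    hg.mul m1.exp.ennreal_ofReal
  have g2 : Measurable[G t] fun ω => g ω * ENNReal.ofReal (exp (ME (pc n 0 s) K1 B M ω)) *
      ENNReal.ofReal (exp (ME (pc n s t) K2 B M ω)) :=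
    (g1.mono (G.mono hst) le_rfl).mul m2.exp.ennreal_ofReal
  have e2 := expmart hB (pc_mono n s t) (fun k => (pc_le n hst k).trans (htu.trans hu))
    (ad_pc h2 s t) (by rw [pc_zero]; exact g1) M
  have e3 := expmart hB (pc_mono n t u) (fun k => (pc_le n htu k).trans hu)
    (ad_pc h3 t u) (by rw [pc_zero]; exact g2) M
  rw [← e2, ← e3]
  refine lintegral_congr fun ω => ?_
  rw [Real.exp_add, Real.exp_add, ENNReal.ofReal_mul (by positivity),
    ENNReal.ofReal_mul (by positivity)]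
  ring

theorem three_phase_sq [IsProbabilityMeasure ρ] {T : ℝ≥0} (hB : BMon ρ G B T) {n : ℕ} (M : ℕ)
    {K1 K2 K3 : ℕ → Ω → ℝ} (h1 : ∀ k, Measurable[G (grid n k)] (K1 k))
    (h2 : ∀ k, Measurable[G (grid n k)] (K2 k)) (h3 : ∀ k, Measurable[G (grid n k)] (K3 k))
    {s t u : ℝ≥0} (hst : s ≤ t) (htu : t ≤ u) (hu : u ≤ T) {C : ℝ} (hC : 0 ≤ C)
    (b1 : ∀ k ω, K1 k ω ^ 2 ≤ C) (b2 : ∀ k ω, K2 k ω ^ 2 ≤ C) (b3 : ∀ k ω, K3 k ω ^ 2 ≤ C) :
    ∫⁻ ω, ENNReal.ofReal (exp (ME (pc n 0 s) K1 B M ω + ME (pc n s t) K2 B M ω +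
      ME (pc n t u) K3 B M ω) ^ 2) ∂ρ ≤ ENNReal.ofReal (exp (3 * (C * T))) := by
  have key : ∀ (K : ℕ → Ω → ℝ) (a b : ℝ≥0), a ≤ b → b ≤ T → (∀ k ω, K k ω ^ 2 ≤ C) → ∀ ω,
      2 * ME (pc n a b) K B M ω ≤ ME (pc n a b) (fun k ω => 2 * K k ω) B M ω + C * T := by
    intro K a b hab hb hK ω
    have e1 := SI_lin (pc n a b) 2 0 K K B M ω
    have e2 := SI_lin (pc n a b) 4 0 (fun k ω => K k ω ^ 2) K tm M ω
    simp only [zero_mul, add_zero] at e1 e2
    have e3 : (fun k ω => (2 * K k ω) ^ 2) = fun k ω => 4 * K k ω ^ 2 := by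
      funext k ω; ring
    have e4 := SI_time_le (n := n) (m := M) hab (K := fun k ω => K k ω ^ 2) hC fun k => hK k ω
    have e5 := mul_le_mul_of_nonneg_left (NNReal.coe_le_coe.2 hb) hC
    unfold ME
    rw [e3, e1, e2]
    linarith
  have e1 := three_phase hB M (fun k => (h1 k).const_mul 2) (fun k => (h2 k).const_mul 2)
    (fun k => (h3 k).const_mul 2) hst htu hu (g := fun _ => ENNReal.ofReal (exp (3 * (C * T))))
    measurable_const
  have e2 := expmart hB (pc_mono n 0 s) (fun k => (pc_le n zero_le k).trans (hst.trans (htu.trans hu)))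
    (ad_pc (fun k => (h1 k).const_mul 2) 0 s) (g := fun _ => ENNReal.ofReal (exp (3 * (C * T))))
    measurable_const M
  rw [e2, lintegral_const, measure_univ, mul_one] at e1
  rw [← e1]
  refine lintegral_mono fun ω => ?_
  rw [← ENNReal.ofReal_mul (exp_pos _).le, ← Real.exp_add, ← Real.exp_nat_mul]
  refine ENNReal.ofReal_le_ofReal (Real.exp_le_exp.2 ?_)
  have := key K1 0 s zero_le (hst.trans (htu.trans hu)) b1 ω
  have := key K2 s t hst (htu.trans hu) b2 ω
  have := key K3 t u htu hu b3 ω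
  push_cast
  linarith

/-- the data for the change of measure given that the object is in box `j` -/
structure One (ρ : Measure Ω) (G : Filtration ℝ≥0 mΩ) (Y : ℝ≥0 → Ω → ℝ) (J : ℝ≥0 → Ω → Fin N)
    (μ : ℝ) (j : Fin N) (m : ℕ) (n : ℕ → ℕ) (c : ℕ → ℕ → Ω → Fin N) : Prop where
  hJ : IsProgressive G J
  hY : ∀ t, Measurable[G t] (Y t)
  bm : BMon ρ G (fun t ω => Y t ω - μ * DD J j t ω) m
  mono : StrictMono n
  meas : ∀ r k, Measurable[G (grid (n r) k)] (c r k)
  conv : ∀ ω, Tendsto (fun r => ee J (n r) (c r) m ω) atTop (𝓝 0)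
  fast : ∀ r, ∫⁻ ω, ENNReal.ofReal (ee J (n r) (c r) m ω) ∂ρ ≤ ENNReal.ofReal (N * (1 / 4) ^ r)

variable {Y : ℝ≥0 → Ω → ℝ} {μ : ℝ} {j : Fin N} {m : ℕ} {n : ℕ → ℕ} {c : ℕ → ℕ → Ω → Fin N}

theorem sq_diff_le (hJ : IsProgressive G J) (n d : ℕ) (c c' : ℕ → Ω → Fin N) (j : Fin N)
    {a : ℝ≥0} (ha : a ≤ m) (ω : Ω) :
    SI (pc (n + d) 0 a) (fun k ω => (1 * ph c' j k ω + -1 * ph c j (k / 2 ^ d) ω) ^ 2) tm
      (m * 2 ^ (n + d)) ω ≤ ee J (n + d) c' m ω + ee J n c m ω := by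
  rw [SI_time zero_le (by rwa [grid_nat]) (C := 1) fun k => by unfold ph; split_ifs <;> simp]
  simp only [floor_refine]
  have m1 := meas_step (n + d) fun k => ph c' j k ω
  have m2 := meas_step n fun k => ph c j k ω
  have m3 := meas_HH hJ j ω
  have e : ∀ s : ℝ, (1 * ph c' j ⌊s * 2 ^ (n + d)⌋₊ ω + -1 * ph c j ⌊s * 2 ^ n⌋₊ ω) ^ 2 =
      (ph c' j ⌊s * 2 ^ (n + d)⌋₊ ω - ph c j ⌊s * 2 ^ n⌋₊ ω) *
        (ph c' j ⌊s * 2 ^ (n + d)⌋₊ ω - HH J j ω s) +
      (ph c' j ⌊s * 2 ^ (n + d)⌋₊ ω - ph c j ⌊s * 2 ^ n⌋₊ ω) *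
        (HH J j ω s - ph c j ⌊s * 2 ^ n⌋₊ ω) := fun s => by ring
  simp only [e]
  rw [intervalIntegral.integral_add
    (ii_bdd (by fun_prop) (C := 1) (fun s => by simp only [ph, HH]; split_ifs <;> simp) _ _)
    (ii_bdd (by fun_prop) (C := 1) (fun s => by simp only [ph, HH]; split_ifs <;> simp) _ _)]
  refine add_le_add ((le_abs_self _).trans (abs_int_le_ee hJ _ _ zero_le ha ω fun s => ?_))
    ((le_abs_self _).trans (abs_int_le_ee hJ _ _ zero_le ha ω fun s => ?_))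
  · unfold ph HH
    split_ifs <;> simp_all
  · unfold ph HH
    split_ifs <;> simp_all

theorem One.cauchy [IsFiniteMeasure ρ] (h : One ρ G Y J μ j m n c) (i : Fin N) {a : ℝ≥0}
    (ha : a ≤ m) : ∀ᵐ ω ∂ρ, ∃ l, Tendsto (fun r => II m (n r) (c r) i 0 a
      (fun t ω => Y t ω - μ * DD J j t ω) ω) atTop (𝓝 l) := by
  set B : ℝ≥0 → Ω → ℝ := fun t ω => Y t ω - μ * DD J j t ω
  refine ae_cauchy (c := 2 * N)
    (fun r => (II_meas (h.meas r) m i zero_le h.bm.meas).mono (G.le _) le_rfl) fun r => ?_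
  obtain ⟨d, hd⟩ := Nat.exists_eq_add_of_le (h.mono (Nat.lt_succ_self r)).le
  simp only [Nat.succ_eq_add_one] at hd
  have e : ∀ ω, II m (n (r + 1)) (c (r + 1)) i 0 a B ω - II m (n r) (c r) i 0 a B ω =
      SI (pc (n r + d) 0 a) (fun k ω => 1 * ph (c (r + 1)) i k ω + -1 * ph (c r) i (k / 2 ^ d) ω) B
        (m * 2 ^ (n r + d)) ω := by
    intro ω
    rw [SI_lin _ 1 (-1) _ (fun k => ph (c r) i (k / 2 ^ d))]
    unfold II
    rw [hd, ← SI_refine (n r) 0 a _ B ω _ d, pow_add, mul_assoc]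
    ring
  simp only [e]
  have hm := h.meas (r + 1)
  have hf := h.fast (r + 1)
  rw [hd] at hm hf
  have hK : ∀ k, Measurable[G (grid (n r + d) k)] fun ω =>
      1 * ph (c (r + 1)) i k ω + -1 * ph (c r) i (k / 2 ^ d) ω := fun k =>
    ((ph_meas (hm k) i).const_mul 1).add
      (((ph_meas (h.meas r _) i).mono (G.mono (grid_div_le _ _ _)) le_rfl).const_mul (-1))
  rw [isometry h.bm (pc_mono _ _ _) (fun k => (pc_le _ zero_le k).trans ha) (ad_pc hK 0 a)]
  calc _ ≤ ∫⁻ ω, (ENNReal.ofReal (ee J (n r + d) (c (r + 1)) m ω) +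
        ENNReal.ofReal (ee J (n r) (c r) m ω)) ∂ρ :=
        lintegral_mono fun ω => (ENNReal.ofReal_le_ofReal (sq_diff_le h.hJ _ _ _ _ i ha ω)).trans
          ENNReal.ofReal_add_le
    _ ≤ ENNReal.ofReal (N * (1 / 4) ^ (r + 1)) + ENNReal.ofReal (N * (1 / 4) ^ r) := by
        rw [lintegral_add_left
          (meas_ee h.hJ _ (fun k => (hm k).mono (G.le _) le_rfl) _).ennreal_ofReal]
        exact add_le_add hf (h.fast r)
    _ ≤ _ := by
        rw [← ENNReal.ofReal_add (by positivity) (by positivity)]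
        refine ENNReal.ofReal_le_ofReal ?_
        have : (0 : ℝ) ≤ N * (1 / 4) ^ r := by positivity
        rw [pow_succ]
        nlinarith

theorem One.tm_lim (h : One ρ G Y J μ j m n c) (i : Fin N) {a b : ℝ≥0} (hab : a ≤ b) (hb : b ≤ m)
    (ω : Ω) :
    Tendsto (fun r => II m (n r) (c r) i a b tm ω) atTop (𝓝 (DD J i b ω - DD J i a ω)) :=
  tendsto_of_close (fun _ => II_tm_close h.hJ _ _ i hab hb ω) (h.conv ω)

theorem One.DD_lim (h : One ρ G Y J μ j m n c) {a b : ℝ≥0} (hab : a ≤ b) (hb : b ≤ m) (ω : Ω) :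
    Tendsto (fun r => II m (n r) (c r) j a b (DD J j) ω) atTop (𝓝 (DD J j b ω - DD J j a ω)) :=
  tendsto_of_close (fun _ => II_DD_close h.hJ _ _ j hab hb ω) (h.conv ω)

theorem One.lim [IsFiniteMeasure ρ] (h : One ρ G Y J μ j m n c) (i : Fin N) {a : ℝ≥0}
    (ha : a ≤ m) :
    ∀ᵐ ω ∂ρ, Tendsto (fun r => zr μ Y m (n r) (c r) i a ω) atTop (𝓝 (zl μ Y m n c i a ω)) := by
  filter_upwards [h.cauchy i ha] with ω ⟨l, hl⟩
  have h1 := tendsto_of_close (fun r => II_DD_close' h.hJ (n r) (c r) i j zero_le ha ω) (h.conv ω)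
  refine tendsto_nhds_limUnder ⟨_, (((hl.add (h1.const_mul μ)).const_mul μ).sub
    ((h.tm_lim i zero_le ha ω).const_mul (μ ^ 2 / 2))).congr fun r => ?_⟩
  rw [II_sub]
  unfold zr
  ring

theorem lint_ind {A : Set Ω} (hA : MeasurableSet A) (f : Ω → ℝ≥0∞) :
    ∫⁻ ω, A.indicator (fun _ => 1) ω * f ω ∂ρ = ∫⁻ ω in A, f ω ∂ρ := by
  rw [← lintegral_indicator hA]
  refine lintegral_congr fun ω => ?_
  by_cases h : ω ∈ A <;> simp [h]

theorem One.key [IsProbabilityMeasure ρ] (h : One ρ G Y J μ j m n c) {s t u : ℝ≥0} (hst : s ≤ t)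
    (htu : t ≤ u) (hu : u ≤ m) (θ : ℝ) {A : Set Ω} (hA : MeasurableSet[G s] A) :
    Tendsto (fun r => ∫⁻ ω in A, ENNReal.ofReal (exp (ME (pc (n r) 0 s)
      (fun k ω => 0 - μ * ph (c r) j k ω) (fun t ω => Y t ω - μ * DD J j t ω) (m * 2 ^ n r) ω)) ∂ρ)
      atTop (𝓝 (∫⁻ ω in A, ENNReal.ofReal (exp (θ * (Y t ω - Y s ω) - θ ^ 2 * ((t : ℝ) - s) / 2 -
        zl μ Y m n c j u ω)) ∂ρ)) := by
  set B : ℝ≥0 → Ω → ℝ := fun t ω => Y t ω - μ * DD J j t ω with hBdef
  have hK : ∀ (θ : ℝ) r k, Measurable[G (grid (n r) k)] fun ω => θ - μ * ph (c r) j k ω :=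
    fun θ r k => ((ph_meas (h.meas r k) j).const_mul μ).const_sub θ
  have hb : ∀ (ϑ : ℝ), |ϑ| ≤ |θ| → ∀ r k ω, (ϑ - μ * ph (c r) j k ω) ^ 2 ≤ (|θ| + |μ|) ^ 2 := by
    intro ϑ hϑ r k ω
    rw [← sq_abs]
    refine pow_le_pow_left₀ (abs_nonneg _) ((abs_sub _ _).trans (add_le_add hϑ ?_)) 2
    rw [abs_mul]
    exact mul_le_of_le_one_right (abs_nonneg _) (ph_abs _ _ _ _)
  set E : ℕ → Ω → ℝ := fun r ω =>
    ME (pc (n r) 0 s) (fun k ω => 0 - μ * ph (c r) j k ω) B (m * 2 ^ n r) ω +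
    ME (pc (n r) s t) (fun k ω => θ - μ * ph (c r) j k ω) B (m * 2 ^ n r) ω +
    ME (pc (n r) t u) (fun k ω => 0 - μ * ph (c r) j k ω) B (m * 2 ^ n r) ω with hE
  have hME : ∀ r a b (θ : ℝ), Measurable
      (ME (pc (n r) a b) (fun k ω => θ - μ * ph (c r) j k ω) B (m * 2 ^ n r)) := fun r a b θ =>
    (ME_meas (pc_mono _ _ _) (ad_pc (hK θ r) _ _) h.bm.meas _).mono (G.le _) le_rfl
  have mE : ∀ r, Measurable (E r) := fun r => ((hME r _ _ _).add (hME r _ _ _)).add (hME r _ _ _)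
  have hA' : MeasurableSet A := G.le _ _ hA
  have e1 : ∀ r, ∫⁻ ω in A, ENNReal.ofReal (exp (ME (pc (n r) 0 s)
      (fun k ω => 0 - μ * ph (c r) j k ω) B (m * 2 ^ n r) ω)) ∂ρ =
      ∫⁻ ω in A, ENNReal.ofReal (exp (E r ω)) ∂ρ := by
    intro r
    have := three_phase h.bm (m * 2 ^ n r) (hK 0 r) (hK θ r) (hK 0 r) hst htu hu
      (g := A.indicator fun _ => 1) (measurable_const.indicator hA)
    rw [lint_ind hA', lint_ind hA'] at this
    exact this.symm
  have hsq : ∀ r, ∫⁻ ω in A, ENNReal.ofReal (exp (E r ω) ^ 2) ∂ρ ≤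
      ENNReal.ofReal (exp (3 * ((|θ| + |μ|) ^ 2 * (m : ℝ≥0)))) := fun r =>
    (setLIntegral_le_lintegral _ _).trans (three_phase_sq h.bm (m * 2 ^ n r) (hK 0 r) (hK θ r)
      (hK 0 r) hst htu hu (sq_nonneg _) (hb 0 (by simp) r) (hb θ le_rfl r) (hb 0 (by simp) r))
  have hlim : ∀ᵐ ω ∂ρ, Tendsto (fun r => exp (E r ω)) atTop (𝓝 (exp (θ * (Y t ω - Y s ω) -
      θ ^ 2 * ((t : ℝ) - s) / 2 - zl μ Y m n c j u ω))) := by
    filter_upwards [h.lim j hu] with ω hω
    refine (Real.continuous_exp.tendsto _).comp ?_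
    have h1 := ((((h.tm_lim j hst (htu.trans hu) ω).const_mul (θ * μ)).add_const
      (θ * (B t ω - B s ω) - θ ^ 2 * ((t : ℝ) - s) / 2)).sub hω).add
      (((h.DD_lim zero_le hu ω).sub (h.tm_lim j zero_le hu ω)).const_mul (μ ^ 2))
    convert h1 using 2 with r
    · simp only [hE]
      rw [ME_ph _ _ j zero_le (hst.trans (htu.trans hu)), ME_ph _ _ j hst (htu.trans hu),
        ME_ph _ _ j htu hu]
      have e2 := II_sub m (n r) (c r) j 0 u μ Y (DD J j) ω
      rw [← hBdef, II_split _ _ _ j zero_le htu B, II_split _ _ _ j zero_le hst B] at e2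
      have e3 := II_split m (n r) (c r) j zero_le htu tm ω
      rw [II_split _ _ _ j zero_le hst tm] at e3
      unfold zr
      linear_combination (-μ) * e2 + μ ^ 2 / 2 * e3
    · simp only [hBdef]
      ring
  obtain ⟨hi, ht⟩ := tendsto_integral_L2 (ρ := ρ.restrict A)
    (fun r => (mE r).exp.aestronglyMeasurable) hsq (ae_restrict_of_ae hlim)
  simp only [e1]
  rw [← ofReal_integral_eq_lintegral_ofReal hi (Eventually.of_forall fun _ => (exp_pos _).le)]
  refine (ENNReal.tendsto_ofReal ht).congr fun r => ?_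
  exact ofReal_integral_eq_lintegral_ofReal (trunc_aux (mE r).exp.aestronglyMeasurable
    (exp_pos _).le (hsq r)).1 (Eventually.of_forall fun _ => (exp_pos _).le)

/-- the reference measure -/
noncomputable def QQ (ρ : Measure Ω) (μ : ℝ) (Y : ℝ≥0 → Ω → ℝ) (m : ℕ) (n : ℕ → ℕ)
    (c : ℕ → ℕ → Ω → Fin N) (j : Fin N) : Measure Ω :=
  ρ.withDensity fun ω => ENNReal.ofReal (exp (-zl μ Y m n c j m ω))

theorem One.key' [IsProbabilityMeasure ρ] (h : One ρ G Y J μ j m n c) {s t : ℝ≥0} (hst : s ≤ t)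
    (ht : t ≤ m) (θ : ℝ) {A : Set Ω} (hA : MeasurableSet[G s] A) :
    ∫⁻ ω in A, ENNReal.ofReal (exp (θ * (Y t ω - Y s ω) - θ ^ 2 * ((t : ℝ) - s) / 2 -
      zl μ Y m n c j m ω)) ∂ρ = ∫⁻ ω in A, ENNReal.ofReal (exp (-zl μ Y m n c j s ω)) ∂ρ := by
  have := tendsto_nhds_unique (h.key hst ht le_rfl θ hA) (h.key le_rfl le_rfl (hst.trans ht) 0 hA)
  simpa using this

theorem One.QQ_apply [IsProbabilityMeasure ρ] (h : One ρ G Y J μ j m n c) {s : ℝ≥0}
    (hs : s ≤ m) {A : Set Ω} (hA : MeasurableSet[G s] A) :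
    QQ ρ μ Y m n c j A = ∫⁻ ω in A, ENNReal.ofReal (exp (-zl μ Y m n c j s ω)) ∂ρ := by
  rw [QQ, withDensity_apply _ (G.le _ _ hA), ← h.key' le_rfl hs 0 hA]
  simp

theorem One.prob [IsProbabilityMeasure ρ] (h : One ρ G Y J μ j m n c) :
    IsProbabilityMeasure (QQ ρ μ Y m n c j) :=
  ⟨by rw [h.QQ_apply zero_le (@MeasurableSet.univ _ (G 0))]; simp [zl_zero]⟩

theorem One.bmQ [IsProbabilityMeasure ρ] (h : One ρ G Y J μ j m n c) :
    BMon (QQ ρ μ Y m n c j) G Y m := by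
  have := h.prob
  refine ⟨h.hY, fun s t hst ht A hA => ?_⟩
  have hA' : MeasurableSet A := G.le _ _ hA
  have hX : Measurable fun ω => Y t ω - Y s ω :=
    ((h.hY t).mono (G.le _) le_rfl).sub ((h.hY s).mono (G.le _) le_rfl)
  have hz : Measurable (zl μ Y m n c j m) := (zl_meas h.meas μ h.hY m j m).mono (G.le _) le_rfl
  rw [map_eq_of_mgf hX (t - s) fun θ => ?_, Measure.restrict_apply_univ]
  rw [integral_eq_lintegral_of_nonneg_ae (Eventually.of_forall fun _ => (exp_pos _).le)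
    (hX.const_mul θ).exp.aestronglyMeasurable, Measure.real, Measure.restrict_apply_univ,
    h.QQ_apply (hst.trans ht) hA, ← h.key' hst ht θ hA, QQ, restrict_withDensity hA',
    lintegral_withDensity_eq_lintegral_mul _ (by fun_prop) (by fun_prop),
    ← ENNReal.toReal_ofReal (exp_pos (θ ^ 2 * (t - s : ℝ≥0) / 2)).le, ← ENNReal.toReal_mul,
    ← lintegral_mul_const _ (by fun_prop)]
  congr 1
  refine lintegral_congr fun ω => ?_
  rw [Pi.mul_apply, ← ENNReal.ofReal_mul (exp_pos _).le, ← ENNReal.ofReal_mul (exp_pos _).le,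
    ← Real.exp_add, ← Real.exp_add, NNReal.coe_sub hst]
  congr 2
  ring

theorem One.dens [IsProbabilityMeasure ρ] (h : One ρ G Y J μ j m n c) {s : ℝ≥0}
    (hs : s ≤ m) {A : Set Ω} (hA : MeasurableSet[G s] A) :
    ρ A = ∫⁻ ω in A, ENNReal.ofReal (exp (zl μ Y m n c j s ω)) ∂QQ ρ μ Y m n c j := by
  have hz := zl_meas h.meas μ h.hY m j s
  have hz' : Measurable[G s] fun ω => ENNReal.ofReal (exp (-zl μ Y m n c j s ω)) :=
    hz.neg.exp.ennreal_ofReal
  have e : (QQ ρ μ Y m n c j).trim (G.le s) = @Measure.withDensity _ (G s) (ρ.trim (G.le s))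
      fun ω => ENNReal.ofReal (exp (-zl μ Y m n c j s ω)) := by
    refine @Measure.ext _ (G s) _ _ fun B hB => ?_
    rw [trim_measurableSet_eq _ hB, h.QQ_apply hs hB, withDensity_apply _ hB,
      setLIntegral_trim _ hz' hB]
  rw [← setLIntegral_trim (G.le s) hz.exp.ennreal_ofReal hA, e, ← trim_measurableSet_eq (G.le s) hA]
  let _ : MeasurableSpace Ω := G s
  rw [restrict_withDensity hA, lintegral_withDensity_eq_lintegral_mul _ hz'
    hz.exp.ennreal_ofReal]
  simp only [Pi.mul_apply, ← ENNReal.ofReal_mul (exp_pos _).le, ← Real.exp_add]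
  simp

end Pool.Agent.MP_96872c_an

end

section

open Finset Real MeasureTheory ProbabilityTheory Filter Topology
open scoped NNReal ENNReal

namespace Pool.Agent.MP_96872c_an

variable {N : ℕ} {Ω : Type} {mΩ : MeasurableSpace Ω} {ρ : Measure Ω} [IsProbabilityMeasure ρ]
  {G : Filtration ℕ mΩ} {X : ℕ → Ω → ℝ} {J : ℕ → Ω → Fin N} {v : ℝ≥0} {M : ℕ}

theorem Disc.mart (h : Disc ρ G X J v M) {F : (Fin N → ℝ) → ℝ} (hF : Gr F)
    (hs : ∀ ζ j, ∫ x, F (ζ + Pi.single j x) ∂nu v = F ζ) {k0 k1 : ℕ} {A : Set Ω}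
    (hA : MeasurableSet[G k0] A) (h01 : k0 ≤ k1) (h1 : k1 ≤ M) :
    ∫ ω in A, F (zeta X J k1 ω) ∂ρ = ∫ ω in A, F (zeta X J k0 ω) ∂ρ := by
  have e1 := h.chain hF (e := fun _ _ => 0) (fun _ => Gr.const 0)
    (fun ζ j => by rw [hs, add_zero]) hA k1 h01 h1
  have e2 := h.chain hF.neg (e := fun _ _ => 0) (fun _ => Gr.const 0)
    (fun ζ j => by rw [integral_neg, hs, add_zero]) hA k1 h01 h1
  simp only [integral_zero, sum_const_zero, add_zero, integral_neg] at e1 e2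
  linarith

theorem I_expc (v : ℝ≥0) (i : Fin N) (ζ : Fin N → ℝ) (j : Fin N) :
    ∫ x, exp ((ζ + Pi.single j x : Fin N → ℝ) i) ∂nu v = exp (ζ i) := by
  by_cases h : i = j
  · subst h
    simp only [Pi.add_apply, Pi.single_eq_same, Real.exp_add]
    rw [integral_const_mul, I_exp1, mul_one]
  · simp [h]

theorem Disc.SS_eq (h : Disc ρ G X J v M) {k : ℕ} (hk : k ≤ M) :
    ∫ ω, SS (zeta X J k ω) ∂ρ = N := by
  have := h.mart gr_SS (I_SS v) (@MeasurableSet.univ _ (G 0)) (Nat.zero_le k) hk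
  simpa [zeta, SS] using this

theorem Disc.sum_SS (h : Disc ρ G X J v M) {k0 k1 : ℕ} {A : Set Ω}
    (hA : MeasurableSet[G k0] A) (h01 : k0 ≤ k1) (h1 : k1 ≤ M) :
    ∑ k ∈ Ico k0 k1, ∫ ω in A, (v : ℝ) / 2 * SS (zeta X J k ω) ∂ρ =
      v * ((k1 : ℝ) - k0) / 2 * ∫ ω in A, SS (zeta X J k0 ω) ∂ρ := by
  rw [sum_congr rfl fun k hk => by
    rw [integral_const_mul, h.mart gr_SS (I_SS v) hA (mem_Ico.1 hk).1 ((mem_Ico.1 hk).2.le.trans h1)],
    sum_const, Nat.card_Ico, nsmul_eq_mul, Nat.cast_sub h01]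
  ring

theorem Disc.D1 (hN : 2 ≤ N) (h : Disc ρ G X J v M) {k0 k1 : ℕ} {A : Set Ω}
    (hA : MeasurableSet[G k0] A) (h01 : k0 ≤ k1) (h1 : k1 ≤ M) :
    ∫ ω in A, Gam (zeta X J k1 ω) ∂ρ ≤ ∫ ω in A, Gam (zeta X J k0 ω) ∂ρ +
      v * ((k1 : ℝ) - k0) / 2 * ∫ ω in A, SS (zeta X J k0 ω) ∂ρ := by
  rw [← h.sum_SS hA h01 h1]
  exact h.chain gr_Gam (fun _ => gr_SS.cmul _) (step_Gam hN v) hA k1 h01 h1

/-- accumulated excess -/
noncomputable def RR (ρ : Measure Ω) (X : ℕ → Ω → ℝ) (J : ℕ → Ω → Fin N) (v : ℝ≥0) (M : ℕ) : ℝ :=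
  v * ∑ k ∈ range M, ∫ ω, Yy (zeta X J k ω) (J k ω) ∂ρ

theorem Disc.sum_le (h : Disc ρ G X J v M) {e : (Fin N → ℝ) → Fin N → ℝ}
    (he : ∀ j, Gr fun ζ => e ζ j) (h0 : ∀ ζ j, 0 ≤ e ζ j) (A : Set Ω) (k0 : ℕ) {k1 : ℕ}
    (h1 : k1 ≤ M) : ∑ k ∈ Ico k0 k1, ∫ ω in A, e (zeta X J k ω) (J k ω) ∂ρ ≤
      ∑ k ∈ range M, ∫ ω, e (zeta X J k ω) (J k ω) ∂ρ := by
  refine (sum_le_sum fun k hk => setIntegral_le_integral
    (h.int_err he ((mem_Ico.1 hk).2.le.trans h1)) (Eventually.of_forall fun ω => h0 _ _)).trans ?_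
  refine sum_le_sum_of_subset_of_nonneg (fun k hk => mem_range.2 ((mem_Ico.1 hk).2.trans_le h1))
    fun k _ _ => integral_nonneg fun ω => h0 _ _

theorem gr_err1 (v η : ℝ) (j : Fin N) : Gr fun ζ => err1 v η ζ j :=
  ((gr_Yy j).cmul _).add (gr_SS.cmul _)

theorem gr_err2 (v η : ℝ) (j : Fin N) : Gr fun ζ => err2 v η ζ j :=
  ((((Gr.expc j).pow 2).mul (gr_Yy j)).cmul _).add ((gr_SS.pow 3).cmul _)

theorem Disc.D2 (hN : 2 ≤ N) (h : Disc ρ G X J v M) (hv0 : 0 < v) (hv : (v : ℝ) ≤ 1 / 6)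
    {k0 k1 : ℕ} {A : Set Ω} (hA : MeasurableSet[G k0] A) (h01 : k0 ≤ k1) (h1 : k1 ≤ M) :
    ∫ ω in A, Gam (zeta X J k0 ω) ∂ρ + v * ((k1 : ℝ) - k0) / 2 * ∫ ω in A, SS (zeta X J k0 ω) ∂ρ
      ≤ ∫ ω in A, Gam (zeta X J k1 ω) ∂ρ +
        N ^ 2 * (2 * RR ρ X J v M + v * M * (11 * √v) * N) := by
  have hη : 0 < √(v : ℝ) := Real.sqrt_pos.2 hv0
  have e1 := h.chain gr_Gam.neg (fun j => (gr_SS.cmul _).neg.add ((gr_err1 _ _ j).cmul _))
    (step_negGam hN v hv hη) hA k1 h01 h1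
  rw [sum_congr rfl fun k hk => integral_add
    (h.int (gr_SS.cmul _).neg ((mem_Ico.1 hk).2.le.trans h1)).integrableOn
    (h.int_err (fun j => (gr_err1 _ _ j).cmul _) ((mem_Ico.1 hk).2.le.trans h1)).integrableOn] at e1
  simp only [integral_neg, sum_add_distrib, sum_neg_distrib] at e1
  rw [h.sum_SS hA h01 h1] at e1
  have e2 := h.sum_le (fun j => (gr_err1 v (√v) j).cmul ((N : ℝ) ^ 2))
    (fun ζ j => mul_nonneg (sq_nonneg _) (err1_nonneg v.2 hη ζ j)) A k0 h1
  have e3 : ∑ k ∈ range M, ∫ ω, (N : ℝ) ^ 2 * err1 v (√v) (zeta X J k ω) (J k ω) ∂ρ =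
      N ^ 2 * (2 * RR ρ X J v M + v * M * (11 * √v) * N) := by
    rw [sum_congr rfl fun k hk => by
      rw [integral_const_mul, integral_congr_ae (Eventually.of_forall fun ω => by rw [err1]),
        integral_add (h.int_err (fun j => (gr_Yy j).cmul _) (mem_range.1 hk).le)
          (h.int (gr_SS.cmul _) (mem_range.1 hk).le), integral_const_mul, integral_const_mul,
        h.SS_eq (mem_range.1 hk).le]]
    simp only [← mul_sum, sum_add_distrib, sum_const, card_range, nsmul_eq_mul, RR, mul_div_assoc,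
      Real.div_sqrt]
    ring
  linarith

theorem err2_aux (ζ : Fin N → ℝ) (j : Fin N) {K : ℝ} (hK : 0 < K) :
    exp (ζ j) ^ 2 * Yy ζ j ≤ K ^ 2 * Yy ζ j + SS ζ ^ 4 / K := by
  have h1 := Yy_nonneg ζ j
  have h2 := Yy_le ζ j
  have h3 := exp_le_SS ζ j
  have h4 := exp_pos (ζ j)
  rcases le_total (exp (ζ j)) K with h | h
  · have : exp (ζ j) ^ 2 ≤ K ^ 2 := pow_le_pow_left₀ h4.le h 2
    have : 0 ≤ SS ζ ^ 4 / K := by positivity
    nlinarith
  · have h5 : exp (ζ j) ^ 2 * Yy ζ j ≤ SS ζ ^ 2 * SS ζ :=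
      mul_le_mul (pow_le_pow_left₀ h4.le h3 2) h2 h1 (sq_nonneg _)
    have h6 : SS ζ ^ 2 * SS ζ ≤ SS ζ ^ 4 / K := by
      rw [le_div_iff₀ hK]
      have : 0 ≤ SS ζ ^ 2 * SS ζ := mul_nonneg (sq_nonneg _) (h4.le.trans h3)
      nlinarith [mul_le_mul_of_nonneg_left (h.trans h3) this]
    have : 0 ≤ K ^ 2 * Yy ζ j := by positivity
    linarith

theorem Disc.D3 (h : Disc ρ G X J v M) (hv0 : 0 < v) (hv : (v : ℝ) ≤ 1 / 6) {a b c : Fin N}
    (hab : a ≠ b) (hac : a ≠ c) (hbc : b ≠ c) {C3 C4 K : ℝ} (hK : 0 < K)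
    (h3 : ∀ k ≤ M, ∫ ω, SS (zeta X J k ω) ^ 3 ∂ρ ≤ C3)
    (h4 : ∀ k ≤ M, ∫ ω, SS (zeta X J k ω) ^ 4 ∂ρ ≤ C4) {k1 : ℕ} (h1 : k1 ≤ M) :
    ∫ ω, lam (exp (zeta X J k1 ω a)) (exp (zeta X J k1 ω b)) (exp (zeta X J k1 ω c)) ∂ρ ≤
      24 * (K ^ 2 * RR ρ X J v M + v * M * C4 / K) + 12 * (v * M) * (44 * √v) * C3 := by
  have hη : 0 < √(v : ℝ) := Real.sqrt_pos.2 hv0
  have e1 := h.chain (gr_lam a b c) (gr_err2 _ _) (step_lam v hv hη hab hac hbc)
    (@MeasurableSet.univ _ (G 0)) k1 (Nat.zero_le _) h1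
  have e2 := h.sum_le (gr_err2 v (√v)) (err2_nonneg v.2 hη) Set.univ 0 h1
  have e0 : ∀ ω, lam (exp (zeta X J 0 ω a)) (exp (zeta X J 0 ω b)) (exp (zeta X J 0 ω c)) = 0 :=
    fun ω => by simp [zeta, lam]; norm_num
  simp only [e0, integral_zero, zero_add] at e1
  rw [Measure.restrict_univ] at e1 e2
  refine e1.trans (e2.trans ?_)
  have e3 : ∀ k ∈ range M, ∫ ω, err2 v (√v) (zeta X J k ω) (J k ω) ∂ρ ≤
      24 * v * (K ^ 2 * ∫ ω, Yy (zeta X J k ω) (J k ω) ∂ρ + C4 / K) + 12 * v * (44 * √v) * C3 := by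
    intro k hk
    have hk' := (mem_range.1 hk).le
    have i1 := h.int_err (fun j => ((Gr.expc j).pow 2).mul (gr_Yy j)) hk'
    have i2 := h.int_err (fun j => (gr_Yy j).cmul (K ^ 2)) hk'
    have i3 := (h.int (gr_SS.pow 4) hk').div_const K
    have a1 := integral_mono i1 (i2.add i3) fun ω => err2_aux _ _ hK
    simp only [Pi.add_apply] at a1
    rw [integral_add i2 i3, integral_const_mul, integral_div] at a1
    have a2 := div_le_div_of_nonneg_right (h4 k hk') hK.le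
    unfold err2
    rw [integral_add (i1.const_mul _) ((h.int (gr_SS.pow 3) hk').const_mul _), integral_const_mul,
      integral_const_mul, mul_div_assoc, Real.div_sqrt]
    have hv0' : (0 : ℝ) ≤ v := v.2
    refine add_le_add (mul_le_mul_of_nonneg_left (by linarith) (by positivity)) ?_
    have : 2 * √(v : ℝ) + 42 * √v = 44 * √v := by ring
    rw [this]
    exact mul_le_mul_of_nonneg_left (h3 k hk') (by positivity)
  refine (sum_le_sum e3).trans (le_of_eq ?_)
  simp only [← mul_sum, sum_add_distrib, sum_const, card_range, nsmul_eq_mul, RR]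
  ring

end Pool.Agent.MP_96872c_an

end
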